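import Pool.Agent.TCF.Defs

/-!
MODULE BowOf (difficulty 3).  If `F - I` is bipartite and has a bridge for some independent set `I`, then `Bow F`.

RECIPE.  Let `H = del F I`, `κ : H.Coloring (Fin 2)` (or `Bool`), `H.Adj u v`, `H.IsBridge s(u, v)`
(`SimpleGraph.isBridge_iff`: `¬ (H.deleteEdges {s(u, v)}).Reachable u v`).  `u, v ∉ I`.  Define `b : W → Fin 5`:
`b w = 0` if `w ∈ I`; otherwise, if `w` is reachable from `v` in `H.deleteEdges {s(u, v)}`: `b w = 4` if `κ w = κ v`, else `3`; otherwise
`b w = 2` if `κ w = κ u`, else `1`.  Then `b u = 2` (`u` is not reachable from `v`), `b v = 4`.  For an edge `i j` of `F` other than `u v`: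
not both in `I`; if one is in `I`: `BowR 0 s` for `s = 1, 2, 3, 4`; if none is in `I` it is an edge of `H.deleteEdges {s(u, v)}`, so both or
none are reachable from `v`, and `κ i ≠ κ j`, so `{b i, b j} = {3, 4}` or `{1, 2}`.
-/

open Finset
open scoped Classical

namespace Pool.TCF
open Pool.OCY Pool.OCG

theorem bow_of {W : Type*} {F : SimpleGraph W} {I : Set W} (hI : Indep F I)
    (h2 : (del F I).Colorable 2) (hB : HasBridge (del F I)) : Bow F := by
  obtain ⟨κ⟩ := h2
  obtain ⟨u, v, huv, hbr⟩ := hB
  rw [SimpleGraph.isBridge_iff] at hbr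
  set H' := (del F I).deleteEdges {s(u, v)} with hH'
  have hnr : ¬ H'.Reachable v u := fun h => hbr h.symm
  have hF : F.Adj u v := huv.1
  have huI : u ∉ I := huv.2.1
  have hvI : v ∉ I := huv.2.2
  have h01 : ∀ x y z : Fin 2, x ≠ y → (x = z ↔ ¬ y = z) := by decide
  refine ⟨u, v, fun w => if w ∈ I then 0 else if H'.Reachable v w then (if κ w = κ v then 4 else 3)
    else (if κ w = κ u then 2 else 1), hF, ?_, ?_, ?_⟩
  · simp only [if_neg huI, if_neg hnr, if_true]
  · simp only [if_neg hvI, if_pos (SimpleGraph.Reachable.refl v), if_true]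
  · intro i j hij h1 h2
    by_cases hi : i ∈ I
    · have hj : j ∉ I := fun hj => hI i hi j hj hij
      simp only [if_pos hi, if_neg hj]
      split_ifs <;> simp [BowR]
    · by_cases hj : j ∈ I
      · simp only [if_pos hj, if_neg hi]
        split_ifs <;> simp [BowR]
      · have hd : (del F I).Adj i j := ⟨hij, hi, hj⟩
        have hH : H'.Adj i j := by
          rw [hH', SimpleGraph.deleteEdges_adj]
          refine ⟨hd, ?_⟩
          simp only [Set.mem_singleton_iff, Sym2.eq_iff]
          rintro (h | h)
          · exact h1 h
          · exact h2 h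
        have hk : κ i ≠ κ j := κ.valid hd
        have hr : H'.Reachable v i ↔ H'.Reachable v j :=
          ⟨fun h => h.trans hH.reachable, fun h => h.trans hH.symm.reachable⟩
        simp only [if_neg hi, if_neg hj]
        by_cases hri : H'.Reachable v i
        · have hrj := hr.1 hri
          simp only [if_pos hri, if_pos hrj]
          by_cases hc : κ i = κ v
          · have hc' := (h01 _ _ _ hk).1 hc
            simp [if_pos hc, if_neg hc', BowR]
          · have hc' : κ j = κ v := by
              by_contra hc'
              exact hc ((h01 _ _ _ hk).2 hc')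
            simp [if_neg hc, if_pos hc', BowR]
        · have hrj : ¬ H'.Reachable v j := fun h => hri (hr.2 h)
          simp only [if_neg hri, if_neg hrj]
          by_cases hc : κ i = κ u
          · have hc' := (h01 _ _ _ hk).1 hc
            simp [if_pos hc, if_neg hc', BowR]
          · have hc' : κ j = κ u := by
              by_contra hc'
              exact hc ((h01 _ _ _ hk).2 hc')
            simp [if_neg hc, if_pos hc', BowR]

end Pool.TCF
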