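import Pool.Agent.TCF.Defs

/-!
MODULE HalfCut (difficulty 2).  Some cut contains at least half of the edges.

RECIPE.  Average over all `side : W → Bool`: for an edge `i j` the involution `side ↦ Function.update side i (!side i)` exchanges
`side i ≠ side j` and `side i = side j`, so exactly half of the `2 ^ |W|` functions separate `i` and `j`; hence
`2 * ∑_side #{x | F.Adj, side x.1 ≠ side x.2} = 2 ^ |W| * #{x | F.Adj}`.  If all cuts (ordered pairs) are `≤ 2 m` then
`#{x | F.Adj x.1 x.2} ≤ 4 m`.  (Alternatively: take a `side` with the largest cut; flipping one vertex does not increase it, so every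
vertex has at least half of its neighbours on the other side.)
`card_pairs`: the number of ordered adjacent pairs is the sum of the degrees `= 2 * F.edgeFinset.card`.
-/

open Finset
open scoped Classical

namespace Pool.TCF
open Pool.OCY Pool.OCG

theorem card_pairs {W : Type*} [Fintype W] (F : SimpleGraph W) :
    (univ.filter fun x : W × W => F.Adj x.1 x.2).card = 2 * F.edgeFinset.card := by
  rw [← F.sum_degrees_eq_twice_card_edges, Finset.card_filter, Fintype.sum_prod_type]
  refine Finset.sum_congr rfl fun v _ => ?_
  rw [← SimpleGraph.card_neighborFinset_eq_degree, SimpleGraph.neighborFinset_eq_filter,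
    Finset.card_filter]

private theorem half_sides {W : Type*} [Fintype W] {i j : W} (h : i ≠ j) :
    2 * (univ.filter fun side : W → Bool => side i ≠ side j).card = Fintype.card (W → Bool) := by
  have h1 : (univ.filter fun side : W → Bool => side i ≠ side j).card
      = (univ.filter fun side : W → Bool => ¬ side i ≠ side j).card := by
    refine Finset.card_bij' (fun side _ => Function.update side i (!side i))
      (fun side _ => Function.update side i (!side i)) ?_ ?_ ?_ ?_
    · intro side hs
      simp only [Finset.mem_filter, Finset.mem_univ, true_and, Function.update_self,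
        Function.update_of_ne h.symm] at hs ⊢
      revert hs
      cases side i <;> cases side j <;> simp
    · intro side hs
      simp only [Finset.mem_filter, Finset.mem_univ, true_and, Function.update_self,
        Function.update_of_ne h.symm] at hs ⊢
      revert hs
      cases side i <;> cases side j <;> simp
    · intro side _
      simp
    · intro side _
      simp
  have h2 := Finset.card_filter_add_card_filter_not (s := (univ : Finset (W → Bool)))
    (fun side : W → Bool => side i ≠ side j)
  rw [Finset.card_univ] at h2
  omega

theorem half_cut {W : Type} [Fintype W] {F : SimpleGraph W} {m : ℕ} (h : CutLe F m) :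
    F.edgeFinset.card ≤ 2 * m := by
  have h1 : ∑ side : W → Bool,
      (univ.filter fun x : W × W => F.Adj x.1 x.2 ∧ side x.1 ≠ side x.2).card
      ≤ Fintype.card (W → Bool) * (2 * m) := by
    calc _ ≤ ∑ _side : W → Bool, 2 * m := Finset.sum_le_sum fun side _ => h side
      _ = _ := by rw [Finset.sum_const, Finset.card_univ, smul_eq_mul]
  have h2 : 2 * ∑ side : W → Bool,
      (univ.filter fun x : W × W => F.Adj x.1 x.2 ∧ side x.1 ≠ side x.2).card
      = Fintype.card (W → Bool) * (univ.filter fun x : W × W => F.Adj x.1 x.2).card := by
    have h3 : ∑ side : W → Bool,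
        (univ.filter fun x : W × W => F.Adj x.1 x.2 ∧ side x.1 ≠ side x.2).card
        = ∑ x ∈ univ.filter (fun x : W × W => F.Adj x.1 x.2),
          (univ.filter fun side : W → Bool => side x.1 ≠ side x.2).card := by
      simp only [Finset.card_filter]
      rw [Finset.sum_filter, Finset.sum_comm]
      refine Finset.sum_congr rfl fun x _ => ?_
      by_cases hx : F.Adj x.1 x.2
      · simp [hx]
      · simp [hx]
    rw [h3, Finset.mul_sum, Finset.sum_congr rfl fun x hx =>
      half_sides (i := x.1) (j := x.2) (by
        rw [Finset.mem_filter] at hx
        exact hx.2.ne), Finset.sum_const, smul_eq_mul, mul_comm]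
  rw [card_pairs] at h2
  have h4 : 0 < Fintype.card (W → Bool) := Fintype.card_pos
  have h5 : Fintype.card (W → Bool) * (2 * F.edgeFinset.card)
      ≤ Fintype.card (W → Bool) * (2 * (2 * m)) := by
    rw [← h2]
    calc _ ≤ 2 * (Fintype.card (W → Bool) * (2 * m)) := Nat.mul_le_mul_left 2 h1
      _ = _ := by ring
  have h6 := Nat.le_of_mul_le_mul_left h5 h4
  omega

end Pool.TCF
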