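import Pool.Agent.TCF.Place3
import Pool.Agent.TCF.HalfCut

/-!
MODULE Cone (difficulty 3).  Cones over bipartite graphs with a perfect matching.

RECIPE.  `κ : U → Bool` with `B.Adj u v → κ u ≠ κ v`.
(1) `cone_col`: colour `none` by `2`, `some u` by `0` or `1` according to `κ u`.  The edges between the colours `0` and `1` are the edges of
`B` (`ecol F c 0 1` counts every edge once: bijection between the ordered pairs `(u, v)` with `B.Adj u v`, `κ u = false`, and half
of all ordered pairs, `card_pairs`), the others are the `card U` edges at `none`.  `(cone B).edgeFinset.card`: `card_pairs`, `sum_ecol` with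
`R = 1`, or count ordered pairs directly: `2 e(cone B) = 2 e(B) + 2 card U`.
(2) `cone_cut`: `μ` is an involution with `B.Adj u (μ u)`.  Let `side : Option U → Bool`, `s u = (side (some u) ≠ side none)` (as 0/1).
The number of ordered cut pairs is `2 ∑_u s u + ∑_{(u,v), B.Adj u v} [s u ≠ s v]`.  The ordered pairs `(u, μ u)` are `card U`
of the `2 e(B)` ordered adjacent pairs of `B`; on the others bound the indicator by `1`; and for the pairs `(u, μ u)`:
`∑_u (2 s u + [s u ≠ s (μ u)]) = ∑_u (s u + s (μ u) + [s u ≠ s (μ u)]) ≤ 2 card U` (each term is `0`, `1 + 1` or `2`).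
Total `≤ 2 card U + (2 e(B) - card U)`.
(3) `cone_bow`: `B.Adj x y`, say `κ x = true`, `κ y = false`.  `u = none`, `v = some y`, `b none = 2`, `b (some z) = 0` if `κ z = true`,
`b (some y) = 4`, `b (some z) = 1` for the other `z` with `κ z = false`.  The edges: `none, some z`: `(2, 0)`, `(2, 1)` or the edge `u v`;
`some z, some z'`: one of them has `κ = true`, so `b = 0`, the other has `b ∈ {1, 4}`.
(4) `match_invol`: from a perfect matching `M` choose for each `u` its partner.
-/

open Finset
open scoped Classical

namespace Pool.TCF
open Pool.OCY Pool.OCG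

private theorem cone_nn {U : Type} {B : SimpleGraph U} : ¬ (cone B).Adj none none := fun h => h
private theorem cone_ns {U : Type} {B : SimpleGraph U} (u : U) : (cone B).Adj none (some u) := trivial
private theorem cone_sn {U : Type} {B : SimpleGraph U} (u : U) : (cone B).Adj (some u) none := trivial
private theorem cone_ss {U : Type} {B : SimpleGraph U} (u v : U) :
    (cone B).Adj (some u) (some v) ↔ B.Adj u v := Iff.rfl

private noncomputable def ind (p : Prop) : ℕ := if p then 1 else 0

private theorem ind_t {p : Prop} (h : p) : ind p = 1 := by unfold ind; exact if_pos h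
private theorem ind_f {p : Prop} (h : ¬ p) : ind p = 0 := by unfold ind; exact if_neg h

private theorem card_ind {A : Type*} [Fintype A] (P : A → Prop) {d : DecidablePred P} :
    (@Finset.filter _ P d univ).card = ∑ x : A, ind (P x) := by
  rw [Finset.card_filter]
  refine Finset.sum_congr rfl fun x _ => ?_
  by_cases h : P x
  · rw [ind_t h, if_pos h]
  · rw [ind_f h, if_neg h]

private theorem card_cone {U : Type} [Fintype U] {B : SimpleGraph U} (P : Option U → Option U → Prop) :
    ∑ x : Option U × Option U, ind ((cone B).Adj x.1 x.2 ∧ P x.1 x.2) =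
      ∑ u : U, ind (P none (some u)) + ∑ u : U, ind (P (some u) none) +
      ∑ u : U, ∑ v : U, ind (B.Adj u v ∧ P (some u) (some v)) := by
  rw [Fintype.sum_prod_type, Fintype.sum_option, Fintype.sum_option]
  simp only [Fintype.sum_option]
  rw [Finset.sum_add_distrib]
  have h0 : ind ((cone B).Adj none none ∧ P none none) = 0 := ind_f fun h => cone_nn h.1
  simp only [cone_ns, cone_sn, cone_ss, true_and]
  rw [h0]
  ring

private theorem cone_col2 {U : Type} [Fintype U] {B : SimpleGraph U} {κ : U → Bool} :
    ecol (cone B) (fun o => match o with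
      | none => 2
      | some z => if κ z = true then 0 else 1) 0 2 +
    ecol (cone B) (fun o => match o with
      | none => 2
      | some z => if κ z = true then 0 else 1) 1 2 = Fintype.card U := by
  unfold ecol
  rw [card_ind, card_ind]
  refine (congrArg₂ (· + ·) (card_cone (P := fun x y => (match x with
      | none => (2 : Fin 3)
      | some z => if κ z = true then 0 else 1) = 0 ∧ (match y with
      | none => (2 : Fin 3)
      | some z => if κ z = true then 0 else 1) = 2))
    (card_cone (P := fun x y => (match x with
      | none => (2 : Fin 3)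
      | some z => if κ z = true then 0 else 1) = 1 ∧ (match y with
      | none => (2 : Fin 3)
      | some z => if κ z = true then 0 else 1) = 2))).trans ?_
  have h1 : ∀ v : U, (if κ v = true then (0 : Fin 3) else 1) ≠ 2 := by
    intro v; split_ifs <;> decide
  have h2 : ¬ ((2 : Fin 3) = 0) := by decide
  have h3 : ¬ ((2 : Fin 3) = 1) := by decide
  have e1 : ∀ u : U, ind ((2 : Fin 3) = 0 ∧ (if κ u = true then (0 : Fin 3) else 1) = 2) = 0 :=
    fun u => ind_f fun h => h2 h.1
  have e2 : ∀ u : U, ind ((2 : Fin 3) = 1 ∧ (if κ u = true then (0 : Fin 3) else 1) = 2) = 0 :=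
    fun u => ind_f fun h => h3 h.1
  have e3 : ∀ u v : U, ind (B.Adj u v ∧ (if κ u = true then (0 : Fin 3) else 1) = 0 ∧
      (if κ v = true then (0 : Fin 3) else 1) = 2) = 0 := fun u v => ind_f fun h => h1 v h.2.2
  have e4 : ∀ u v : U, ind (B.Adj u v ∧ (if κ u = true then (0 : Fin 3) else 1) = 1 ∧
      (if κ v = true then (0 : Fin 3) else 1) = 2) = 0 := fun u v => ind_f fun h => h1 v h.2.2
  have e5 : ∀ u : U, ind ((if κ u = true then (0 : Fin 3) else 1) = 0 ∧ True) +
      ind ((if κ u = true then (0 : Fin 3) else 1) = 1 ∧ True) = 1 := by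
    intro u
    by_cases h : κ u = true
    · rw [ind_t (by simp [h]), ind_f (by simp [h])]
    · rw [ind_f (by simp [h]), ind_t (by simp [h])]
  simp only [e1, e2, e3, e4, Finset.sum_const_zero, add_zero, zero_add]
  rw [← Finset.sum_add_distrib, Finset.sum_congr rfl fun u _ => e5 u]
  simp

theorem cone_col {U : Type} [Fintype U] {B : SimpleGraph U} {κ : U → Bool}
    (hκ : ∀ u v, B.Adj u v → κ u ≠ κ v) :
    ∃ c : Option U → Fin 3, Prop3 (cone B) c ∧ ecol (cone B) c 0 1 = B.edgeFinset.card ∧
      ecol (cone B) c 0 2 + ecol (cone B) c 1 2 = Fintype.card U := by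
  refine ⟨fun o => match o with
    | none => 2
    | some z => if κ z = true then 0 else 1, ?_, ?_, ?_⟩
  · rintro (_ | z) (_ | z') h
    · exact absurd h (by simp [cone])
    · by_cases h1 : κ z' = true <;> simp [h1]
    · by_cases h1 : κ z = true <;> simp [h1]
    · have h2 := hκ z z' h
      by_cases h1 : κ z = true
      · have h3 : κ z' = false := by
          rcases h4 : κ z' with _ | _
          · rfl
          · exact absurd (h1.trans h4.symm) h2
        simp [h1, h3]
      · have h3 : κ z' = true := by
          rcases h4 : κ z' with _ | _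
          · exact absurd (by rw [h4]; simpa using h1) h2
          · rfl
        simp [h1, h3]
  · have h1 : 2 * ecol (cone B) (fun o => match o with
      | none => 2
      | some z => if κ z = true then 0 else 1) 0 1 = 2 * B.edgeFinset.card := by
      rw [← card_pairs]
      unfold ecol
      have h2 : (univ.filter fun x : U × U => B.Adj x.1 x.2) =
          (univ.filter fun x : U × U => B.Adj x.1 x.2 ∧ κ x.1 = true) ∪
          (univ.filter fun x : U × U => B.Adj x.1 x.2 ∧ κ x.2 = true) := by
        ext x
        simp only [mem_filter, mem_univ, true_and, mem_union]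
        constructor
        · intro h
          have h3 := hκ _ _ h
          by_cases h4 : κ x.1 = true
          · exact Or.inl ⟨h, h4⟩
          · refine Or.inr ⟨h, ?_⟩
            rcases h5 : κ x.2 with _ | _
            · exact absurd (by rw [h5]; simpa using h4) h3
            · rfl
        · rintro (h | h)
          · exact h.1
          · exact h.1
      have h3 : Disjoint (univ.filter fun x : U × U => B.Adj x.1 x.2 ∧ κ x.1 = true)
          (univ.filter fun x : U × U => B.Adj x.1 x.2 ∧ κ x.2 = true) := by
        rw [Finset.disjoint_left]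
        intro x h4 h5
        simp only [mem_filter, mem_univ, true_and] at h4 h5
        exact hκ _ _ h4.1 (h4.2.trans h5.2.symm)
      have h4 : (univ.filter fun x : U × U => B.Adj x.1 x.2 ∧ κ x.2 = true).card =
          (univ.filter fun x : U × U => B.Adj x.1 x.2 ∧ κ x.1 = true).card := by
        refine Finset.card_bij (fun x _ => (x.2, x.1)) ?_ ?_ ?_
        · intro x hx
          simp only [mem_filter, mem_univ, true_and] at hx ⊢
          exact ⟨hx.1.symm, hx.2⟩
        · intro x _ x' _ h
          simp only [Prod.mk.injEq] at h
          exact Prod.ext h.2 h.1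
        · intro x hx
          simp only [mem_filter, mem_univ, true_and] at hx
          exact ⟨(x.2, x.1), by simpa using ⟨hx.1.symm, hx.2⟩, rfl⟩
      have h5 : (univ.filter fun x : Option U × Option U => (cone B).Adj x.1 x.2 ∧
          (match x.1 with
            | none => (2 : Fin 3)
            | some z => if κ z = true then 0 else 1) = 0 ∧
          (match x.2 with
            | none => (2 : Fin 3)
            | some z => if κ z = true then 0 else 1) = 1).card =
          (univ.filter fun x : U × U => B.Adj x.1 x.2 ∧ κ x.1 = true).card := by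
        symm
        refine Finset.card_bij (fun x _ => (some x.1, some x.2)) ?_ ?_ ?_
        · intro x hx
          simp only [mem_filter, mem_univ, true_and] at hx ⊢
          refine ⟨hx.1, by simp [hx.2], ?_⟩
          have h3 := hκ _ _ hx.1
          rw [hx.2] at h3
          simp [h3.symm]
        · intro x _ x' _ h
          simp only [Prod.mk.injEq, Option.some.injEq] at h
          exact Prod.ext h.1 h.2
        · rintro ⟨_ | z, _ | z'⟩ hx
          · simp at hx
          · simp at hx
          · simp at hx
          · simp only [mem_filter, mem_univ, true_and] at hx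
            refine ⟨(z, z'), ?_, rfl⟩
            simp only [mem_filter, mem_univ, true_and]
            refine ⟨hx.1, ?_⟩
            by_contra h6
            simp [h6] at hx
      rw [h5, h2, Finset.card_union_of_disjoint h3, h4]
      ring
    omega
  · exact cone_col2

private theorem sum_adj {U : Type} [Fintype U] (B : SimpleGraph U) :
    ∑ u : U, ∑ v : U, ind (B.Adj u v) = 2 * B.edgeFinset.card := by
  rw [← card_pairs, card_ind, Fintype.sum_prod_type]

theorem cone_edges {U : Type} [Fintype U] (B : SimpleGraph U) :
    (cone B).edgeFinset.card = B.edgeFinset.card + Fintype.card U := by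
  have h1 := card_pairs (cone B)
  rw [card_ind] at h1
  have h3 := card_cone (B := B) (P := fun _ _ => True)
  simp only [and_true, ind_t trivial, Finset.sum_const, Finset.card_univ, smul_eq_mul, mul_one] at h3
  rw [h1, sum_adj] at h3
  omega

theorem cone_cut {U : Type} [Fintype U] {B : SimpleGraph U} {μ : U → U}
    (hμ : ∀ u, B.Adj u (μ u)) (hμ2 : ∀ u, μ (μ u) = u) (side : Option U → Bool) :
    (univ.filter fun x : Option U × Option U => (cone B).Adj x.1 x.2 ∧ side x.1 ≠ side x.2).card
      ≤ 2 * B.edgeFinset.card + Fintype.card U := by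
  rw [card_ind]
  refine (card_cone (P := fun x y => side x ≠ side y)).le.trans ?_
  rw [← sum_adj]
  -- the inner sums
  have h3 : ∀ u : U, (∑ v : U, ind (B.Adj u v ∧ side (some u) ≠ side (some v))) +
      ind (side (some u) = side (some (μ u))) ≤ ∑ v : U, ind (B.Adj u v) := by
    intro u
    rw [← Finset.add_sum_erase univ (fun v : U => ind (B.Adj u v ∧ side (some u) ≠ side (some v)))
      (Finset.mem_univ (μ u)), ← Finset.add_sum_erase univ (fun v : U => ind (B.Adj u v))
      (Finset.mem_univ (μ u))]
    have h4 : (∑ v ∈ univ.erase (μ u), ind (B.Adj u v ∧ side (some u) ≠ side (some v))) ≤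
        ∑ v ∈ univ.erase (μ u), ind (B.Adj u v) := by
      refine Finset.sum_le_sum fun v _ => ?_
      by_cases h5 : B.Adj u v
      · rw [ind_t h5]
        by_cases h6 : B.Adj u v ∧ side (some u) ≠ side (some v)
        · rw [ind_t h6]
        · rw [ind_f h6]; omega
      · rw [ind_f fun h => h5 h.1]; omega
    have h5 : ind (B.Adj u (μ u) ∧ side (some u) ≠ side (some (μ u))) +
        ind (side (some u) = side (some (μ u))) = 1 := by
      by_cases h6 : side (some u) = side (some (μ u))
      · rw [ind_t h6, ind_f fun h => h.2 h6]
      · rw [ind_f h6, ind_t ⟨hμ u, h6⟩]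
    have h6 : ind (B.Adj u (μ u)) = 1 := ind_t (hμ u)
    rw [h6]
    omega
  have h4 := Finset.sum_le_sum (fun u (_ : u ∈ (univ : Finset U)) => h3 u)
  rw [Finset.sum_add_distrib] at h4
  -- symmetric sum
  have h5 : ∑ u : U, ind (side (some (μ u)) ≠ side none) =
      ∑ u : U, ind (side (some u) ≠ side none) := by
    have hb : Function.Bijective μ := Function.Involutive.bijective hμ2
    exact hb.sum_comp (fun u : U => ind (side (some u) ≠ side none))
  have h6 : ∑ u : U, ind (side none ≠ side (some u)) =
      ∑ u : U, ind (side (some u) ≠ side none) := by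
    refine Finset.sum_congr rfl fun u _ => ?_
    rw [ne_comm]
  have h7 : ∑ u : U, (ind (side (some u) ≠ side none) + ind (side (some (μ u)) ≠ side none)) ≤
      ∑ u : U, (1 + ind (side (some u) = side (some (μ u)))) := by
    refine Finset.sum_le_sum fun u _ => ?_
    rcases side (some u) <;> rcases side (some (μ u)) <;> rcases side none <;> simp [ind]
  rw [Finset.sum_add_distrib, Finset.sum_add_distrib] at h7
  simp only [Finset.sum_const, Finset.card_univ, smul_eq_mul, mul_one] at h7
  rw [h5] at h7
  rw [h6]
  omega

theorem cone_bow {U : Type} {B : SimpleGraph U} {κ : U → Bool}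
    (hκ : ∀ u v, B.Adj u v → κ u ≠ κ v) (hB : B ≠ ⊥) : Bow (cone B) := by
  obtain ⟨x, y, hxy⟩ : ∃ x y, B.Adj x y := by
    by_contra hcon
    push Not at hcon
    apply hB
    ext a b
    simp [hcon a b]
  obtain ⟨y, hy⟩ : ∃ y, κ y = false := by
    have h := hκ x y hxy
    rcases hx : κ x with _ | _
    · exact ⟨x, hx⟩
    · refine ⟨y, ?_⟩
      rcases hy : κ y with _ | _
      · rfl
      · exact absurd (hx.trans hy.symm) h
  refine ⟨none, some y, fun o => match o with
    | none => 2
    | some z => if κ z = true then 0 else if z = y then 4 else 1, trivial, rfl, ?_, ?_⟩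
  · simp [hy]
  · have hR : ∀ i j : Fin 5, BowR i j → BowR j i := by
      unfold BowR; decide
    have h1 : ∀ z z' : U, B.Adj z z' → κ z = true →
        BowR (if κ z = true then 0 else if z = y then 4 else 1)
          (if κ z' = true then 0 else if z' = y then 4 else 1) := by
      intro z z' h hz
      have h2 := hκ z z' h
      have h3 : κ z' = false := by
        rcases h4 : κ z' with _ | _
        · rfl
        · exact absurd (hz.trans h4.symm) h2
      rw [hz, h3]
      by_cases h5 : z' = y
      · simp [h5, BowR]
      · simp [h5, BowR]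
    have h6 : ∀ z : U, z ≠ y →
        BowR 2 (if κ z = true then 0 else if z = y then 4 else 1) := by
      intro z hz
      by_cases h7 : κ z = true
      · simp [h7, BowR]
      · simp [h7, hz, BowR]
    rintro (_ | z) (_ | z') h hn1 hn2
    · exact absurd h (by simp [cone])
    · have : z' ≠ y := fun h' => hn1 ⟨rfl, by rw [h']⟩
      exact h6 z' this
    · have : z ≠ y := fun h' => hn2 ⟨by rw [h'], rfl⟩
      exact hR _ _ (h6 z this)
    · have h' : B.Adj z z' := h
      by_cases hz : κ z = true
      · exact h1 z z' h' hz
      · have : κ z' = true := by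
          have h2 := hκ z z' h'
          rcases h4 : κ z' with _ | _
          · exact absurd (by rw [h4]; simpa using hz) h2
          · rfl
        exact hR _ _ (h1 z' z h'.symm this)

theorem match_invol {U : Type} {B : SimpleGraph U} {M : B.Subgraph} (hM : M.IsPerfectMatching) :
    ∃ μ : U → U, (∀ u, B.Adj u (μ u)) ∧ ∀ u, μ (μ u) = u := by
  have h : ∀ u, ∃! w, M.Adj u w := fun u => hM.1 (hM.2 u)
  choose μ h1 h2 using h
  refine ⟨μ, fun u => (h1 u).adj_sub, fun u => ?_⟩
  exact (h2 (μ u) u (h1 u).symm).symm

/-- a set with a fixed point free involution has an even number of elements -/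
theorem invol_even {U : Type} [Fintype U] {μ : U → U} (h1 : ∀ u, μ u ≠ u) (h2 : ∀ u, μ (μ u) = u) :
    Even (Fintype.card U) := by
  have h : ∑ u : U, (1 : ZMod 2) = 0 :=
    Finset.sum_involution (fun u _ => μ u) (fun u _ => by decide) (fun u _ _ => h1 u)
      (fun u _ => Finset.mem_univ _) (fun u _ => h2 u)
  rw [Finset.sum_const, Finset.card_univ, nsmul_eq_mul, mul_one] at h
  exact (ZMod.natCast_eq_zero_iff_even).1 h

end Pool.TCF
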