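import Pool.Agent.TCF.Place3
import Pool.Agent.OCG.Fold

/-!
MODULE HomCyc (difficulty 3).  Graphs which are homomorphic to an odd cycle.

RECIPE.  (1) `homcyc_bow`, `k ≥ 2`: `F` has an edge `u v`; `Pool.OCG.fold5 hk hc` gives `c' : W → Fin 5` with `Col F 4 c'`, `c' u = 0`,
`c' v = 1`.  Let `b w = ` (if `w = u` then `2` else `0`) for `c' w = 0`; (if `w = v` then `4` else `1`) for `c' w = 1`; `0` for `c' w = 2`;
`2` for `c' w = 3`; `1` for `c' w = 4`.  For an edge `i j` (`c' j = c' i + 1` or conversely) other than `u v`, `BowR (b i) (b j)`: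
colours `0, 1`: `(2 or 0, 4 or 1)`, not `(2, 4)`; colours `1, 2`: `(4 or 1, 0)`; `2, 3`: `(0, 2)`; `3, 4`: `(2, 1)`; `4, 0`: `(1, 2 or 0)`.
(2) `homcyc_col`: for `s : Fin (2k+1)` let `m s` = number of ordered pairs `(i, j)` with `F.Adj i j`, `c i = s`, `c j = s + 1`.  Then
`Σ_s m s = e` (every edge has exactly one such order, `2k + 1 ≥ 3`).  As `Σ_s (m (s - 1) + m s) = 2 e`, some `s` has
`(2k+1) (m (s - 1) + m s) ≤ 2 e`.  Colour `w` by `2` if `c w = s`, otherwise by the parity of the value of
`c w - s - 1` (in `Fin (2k+1)`, values `0, ..., 2k - 1`).  It is proper (an edge not at the class `s` has values `t, t + 1`,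
both in `0..2k-1`), and the edges with an end of colour `2` are the `m (s-1) + m s` ones at the class `s`; so
`ecol 0 2 + ecol 1 2 = m (s-1) + m s` and `ecol 0 1 + ecol 0 2 + ecol 1 2 = e`.  Claim:
`(2k - 1) (ecol 0 2 + ecol 1 2) ≤ 2 ecol 0 1`, i.e. `(2k+1) (ecol 0 2 + ecol 1 2) ≤ 2 e`.
(The number of all ordered adjacent pairs is `2 (ecol 0 1 + ecol 0 2 + ecol 1 2)`: `sum_ecol` with `R = 1`.)
-/

open Finset
open scoped Classical

namespace Pool.TCF
open Pool.OCY Pool.OCG

private def homcyc_B (x : Fin 5) (p q : Bool) : Fin 5 :=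
  if x = 0 then (if p then 2 else 0) else if x = 1 then (if q then 4 else 1) else
    if x = 2 then 0 else if x = 3 then 2 else 1

private theorem homcyc_B_adj : ∀ (x : Fin 5) (p q p' q' : Bool),
    (x = 0 → ¬ (p = true ∧ q' = true)) →
      BowR (homcyc_B x p q) (homcyc_B (x + 1) p' q') ∧
      BowR (homcyc_B (x + 1) p' q') (homcyc_B x p q) := by
  unfold BowR homcyc_B
  decide

theorem homcyc_bow {W : Type*} {F : SimpleGraph W} (hF : F ≠ ⊥) {k : ℕ} (hk : 2 ≤ k)
    {c : W → Fin (2 * k + 1)} (hc : Col F (2 * k) c) : Bow F := by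
  obtain ⟨u, v, huv⟩ : ∃ u v, F.Adj u v := by
    by_contra h
    push Not at h
    exact hF (by ext a b; simpa using h a b)
  obtain ⟨c', hc', hu, hv⟩ := fold5 hk hc huv
  refine ⟨u, v, fun w => homcyc_B (c' w) (decide (w = u)) (decide (w = v)), huv, ?_, ?_, ?_⟩
  · show homcyc_B (c' u) (decide (u = u)) (decide (u = v)) = 2
    rw [hu]
    simp [homcyc_B]
  · show homcyc_B (c' v) (decide (v = u)) (decide (v = v)) = 4
    rw [hv]
    simp [homcyc_B]
  · intro i j hij h1 h2
    show BowR (homcyc_B (c' i) (decide (i = u)) (decide (i = v)))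
      (homcyc_B (c' j) (decide (j = u)) (decide (j = v)))
    rcases hc' i j hij with h | h
    · rw [h]
      refine (homcyc_B_adj (c' i) _ _ _ _ ?_).1
      rintro - ⟨h3, h4⟩
      exact h1 ⟨of_decide_eq_true h3, of_decide_eq_true h4⟩
    · rw [h]
      refine (homcyc_B_adj (c' j) _ _ _ _ ?_).2
      rintro - ⟨h3, h4⟩
      exact h2 ⟨of_decide_eq_true h4, of_decide_eq_true h3⟩

private theorem homcyc_one {k : ℕ} (hk : 1 ≤ k) : (1 : Fin (2 * k + 1)) ≠ 0 := by
  intro h
  have h1 := congrArg Fin.val h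
  rw [Fin.val_one', Fin.val_zero, Nat.mod_eq_of_lt (by omega)] at h1
  omega

private theorem homcyc_two {k : ℕ} (hk : 1 ≤ k) : (1 : Fin (2 * k + 1)) + 1 ≠ 0 := by
  intro h
  have h1 := congrArg Fin.val h
  rw [Fin.val_add, Fin.val_one', Fin.val_zero, Nat.mod_eq_of_lt (a := 1) (by omega),
    Nat.mod_eq_of_lt (by omega)] at h1
  omega

private theorem homcyc_swap {W : Type*} [Fintype W] (p q : W × W → Prop) [DecidablePred p]
    [DecidablePred q] (h : ∀ x, p x ↔ q x.swap) :
    (univ.filter p).card = (univ.filter q).card := by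
  refine Finset.card_bij (fun x _ => x.swap) ?_ ?_ ?_
  · intro x hx
    simp only [Finset.mem_filter, Finset.mem_univ, true_and] at hx ⊢
    exact (h x).1 hx
  · intro x _ y _ hxy
    exact Prod.swap_injective hxy
  · intro y hy
    refine ⟨y.swap, ?_, Prod.swap_swap y⟩
    simp only [Finset.mem_filter, Finset.mem_univ, true_and] at hy ⊢
    exact (h y.swap).2 (by rwa [Prod.swap_swap])

theorem homcyc_col {W : Type*} [Fintype W] {F : SimpleGraph W} {k : ℕ} (hk : 1 ≤ k)
    {c : W → Fin (2 * k + 1)} (hc : Col F (2 * k) c) :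
    ∃ c' : W → Fin 3, Prop3 F c' ∧
      (2 * k - 1) * (ecol F c' 0 2 + ecol F c' 1 2) ≤ 2 * ecol F c' 0 1 := by
  -- numbers in `Fin (2 * k + 1)`
  have hone : (1 : Fin (2 * k + 1)) ≠ 0 := homcyc_one hk
  have htwo : (1 : Fin (2 * k + 1)) + 1 ≠ 0 := homcyc_two hk
  have hne : ∀ i j, F.Adj i j → c i ≠ c j := by
    intro i j hij h
    rcases hc i j hij with h1 | h1
    · rw [h] at h1
      exact hone (by simpa using h1)
    · rw [h] at h1
      exact hone (by simpa using h1)
  have hex : ∀ x y : Fin (2 * k + 1), y = x + 1 → x = y + 1 → False := by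
    intro x y h1 h2
    rw [h1, add_assoc] at h2
    exact htwo (by simpa using h2)
  set m : Fin (2 * k + 1) → ℕ := fun s =>
    (univ.filter fun x : W × W => F.Adj x.1 x.2 ∧ c x.1 = s ∧ c x.2 = s + 1).card with hm
  set P : ℕ := (univ.filter fun x : W × W => F.Adj x.1 x.2).card with hP
  -- the sum of `m`
  have h1 : (univ.filter fun x : W × W => F.Adj x.1 x.2 ∧ c x.2 = c x.1 + 1).card = ∑ s, m s := by
    rw [Finset.card_eq_sum_card_fiberwise (f := fun x : W × W => c x.1) (t := Finset.univ)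
      (fun x _ => Finset.mem_coe.2 (Finset.mem_univ _))]
    refine Finset.sum_congr rfl fun s _ => ?_
    rw [hm]
    show _ = (univ.filter fun x : W × W => F.Adj x.1 x.2 ∧ c x.1 = s ∧ c x.2 = s + 1).card
    rw [Finset.filter_filter]
    congr 1
    ext x
    simp only [Finset.mem_filter, Finset.mem_univ, true_and]
    constructor
    · rintro ⟨⟨h2, h3⟩, h4⟩
      exact ⟨h2, h4, by rw [h3, h4]⟩
    · rintro ⟨h2, h3, h4⟩
      exact ⟨⟨h2, by rw [h3, h4]⟩, h3⟩
  have h2 : (univ.filter fun x : W × W => F.Adj x.1 x.2 ∧ c x.1 = c x.2 + 1).card = ∑ s, m s := by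
    rw [← h1]
    exact homcyc_swap (fun x : W × W => F.Adj x.1 x.2 ∧ c x.1 = c x.2 + 1)
      (fun x : W × W => F.Adj x.1 x.2 ∧ c x.2 = c x.1 + 1)
      (fun x => ⟨fun h => ⟨h.1.symm, h.2⟩, fun h => ⟨h.1.symm, h.2⟩⟩)
  have h3 : P = 2 * ∑ s, m s := by
    have h4 : (univ.filter fun x : W × W => F.Adj x.1 x.2) =
        (univ.filter fun x : W × W => F.Adj x.1 x.2 ∧ c x.2 = c x.1 + 1) ∪
        (univ.filter fun x : W × W => F.Adj x.1 x.2 ∧ c x.1 = c x.2 + 1) := by
      ext x
      simp only [Finset.mem_filter, Finset.mem_univ, true_and, Finset.mem_union]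
      constructor
      · intro h
        rcases hc x.1 x.2 h with h5 | h5
        · exact Or.inl ⟨h, h5⟩
        · exact Or.inr ⟨h, h5⟩
      · rintro (h | h)
        · exact h.1
        · exact h.1
    rw [hP, h4, Finset.card_union_of_disjoint, h1, h2]
    · exact (two_mul _).symm
    rw [Finset.disjoint_left]
    intro x h5 h6
    simp only [Finset.mem_filter, Finset.mem_univ, true_and] at h5 h6
    exact hex _ _ h5.2 h6.2
  -- the class `s`
  obtain ⟨s, hs⟩ : ∃ s, (2 * k + 1) * (m (s - 1) + m s) ≤ P := by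
    obtain ⟨s, -, hs⟩ := Finset.exists_le_of_sum_le (s := (Finset.univ : Finset (Fin (2 * k + 1))))
      (f := fun s => (2 * k + 1) * (m (s - 1) + m s)) (g := fun _ => P) ⟨0, Finset.mem_univ _⟩ (by
        rw [Finset.sum_const, Finset.card_univ, Fintype.card_fin, smul_eq_mul, ← Finset.mul_sum,
          Finset.sum_add_distrib, h3]
        have h4 : ∑ s, m (s - 1) = ∑ s, m s :=
          Fintype.sum_equiv (Equiv.subRight (1 : Fin (2 * k + 1))) _ _ (fun s => rfl)
        rw [h4]
        exact le_of_eq (congrArg _ (two_mul _).symm))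
    exact ⟨s, hs⟩
  -- the colouring
  set c' : W → Fin 3 := fun w => if c w = s then 2 else if (c w - s - 1).val % 2 = 0 then 0 else 1
    with hc'
  have hc2 : ∀ w, c' w = 2 ↔ c w = s := by
    intro w
    show (if c w = s then (2 : Fin 3) else if (c w - s - 1).val % 2 = 0 then 0 else 1) = 2 ↔ _
    by_cases h4 : c w = s
    · simp [h4]
    · rw [if_neg h4]
      by_cases h5 : (c w - s - 1).val % 2 = 0
      · rw [if_pos h5]
        simp [h4]
      · rw [if_neg h5]
        simp [h4]
  have hpar : ∀ i j, c i ≠ s → c j ≠ s → c j = c i + 1 →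
      ((c i - s - 1).val % 2 = 0 ↔ ¬ (c j - s - 1).val % 2 = 0) := by
    intro i j hi hj h4
    have h5 : c j - s - 1 = (c i - s - 1) + 1 := by
      rw [h4]
      abel
    have h6 : c i - s - 1 ≠ Fin.last (2 * k) := by
      intro h7
      apply hi
      have h8 : (Fin.last (2 * k) : Fin (2 * k + 1)) + 1 = 0 := Fin.last_add_one _
      rw [← h7] at h8
      have h9 : c i - s = 0 := by
        rw [← h8]
        abel
      exact sub_eq_zero.1 h9
    rw [h5, Fin.val_add_one, if_neg h6]
    omega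
  have hprop : Prop3 F c' := by
    have key : ∀ i j, F.Adj i j → c j = c i + 1 → c' i ≠ c' j := by
      intro i j hij h4 h5
      by_cases hi : c i = s
      · have h6 : c' j = 2 := by rw [← h5]; exact (hc2 i).2 hi
        have h7 := (hc2 j).1 h6
        exact hne i j hij (hi.trans h7.symm)
      · by_cases hj : c j = s
        · have h6 : c' i = 2 := by rw [h5]; exact (hc2 j).2 hj
          exact hi ((hc2 i).1 h6)
        · have h6 := hpar i j hi hj h4
          have h7 : c' i = if (c i - s - 1).val % 2 = 0 then 0 else 1 := if_neg hi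
          have h8 : c' j = if (c j - s - 1).val % 2 = 0 then 0 else 1 := if_neg hj
          rw [h7, h8] at h5
          by_cases h9 : (c i - s - 1).val % 2 = 0
          · rw [if_pos h9, if_neg (h6.1 h9)] at h5
            exact absurd h5 (by decide)
          · have h10 : (c j - s - 1).val % 2 = 0 := by
              by_contra h11
              exact h9 (h6.2 h11)
            rw [if_neg h9, if_pos h10] at h5
            exact absurd h5 (by decide)
    intro i j hij
    rcases hc i j hij with h4 | h4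
    · exact key i j hij h4
    · exact (key j i hij.symm h4).symm
  refine ⟨c', hprop, ?_⟩
  -- the edges at the colour `2`
  have h4 : ecol F c' 0 2 + ecol F c' 1 2 = m (s - 1) + m s := by
    have h5 : ecol F c' 0 2 + ecol F c' 1 2 =
        (univ.filter fun x : W × W => F.Adj x.1 x.2 ∧ c x.2 = s).card := by
      unfold ecol
      rw [← Finset.card_union_of_disjoint]
      · congr 1
        ext x
        simp only [Finset.mem_filter, Finset.mem_univ, true_and, Finset.mem_union]
        constructor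
        · rintro (h | h)
          · exact ⟨h.1, (hc2 _).1 h.2.2⟩
          · exact ⟨h.1, (hc2 _).1 h.2.2⟩
        · rintro ⟨h, h6⟩
          have h7 : c x.1 ≠ s := fun h8 => hne _ _ h (h8.trans h6.symm)
          have h8 : c' x.1 ≠ 2 := fun h9 => h7 ((hc2 _).1 h9)
          have h9 := (hc2 x.2).2 h6
          have h10 : ∀ z : Fin 3, z ≠ 2 → z = 0 ∨ z = 1 := by decide
          rcases h10 _ h8 with h11 | h11
          · exact Or.inl ⟨h, h11, h9⟩
          · exact Or.inr ⟨h, h11, h9⟩
      · rw [Finset.disjoint_left]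
        intro x h6 h7
        simp only [Finset.mem_filter, Finset.mem_univ, true_and] at h6 h7
        have h8 := h6.2.1.symm.trans h7.2.1
        exact absurd h8 (by decide)
    have h6 : (univ.filter fun x : W × W => F.Adj x.1 x.2 ∧ c x.2 = s) =
        (univ.filter fun x : W × W => F.Adj x.1 x.2 ∧ c x.1 = s - 1 ∧ c x.2 = s - 1 + 1) ∪
        (univ.filter fun x : W × W => F.Adj x.1 x.2 ∧ c x.2 = s ∧ c x.1 = s + 1) := by
      ext x
      simp only [Finset.mem_filter, Finset.mem_univ, true_and, Finset.mem_union]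
      constructor
      · rintro ⟨h, h7⟩
        rcases hc x.1 x.2 h with h8 | h8
        · refine Or.inl ⟨h, ?_, ?_⟩
          · rw [← h7, h8]
            abel
          · rw [h7]
            abel
        · exact Or.inr ⟨h, h7, by rw [h8, h7]⟩
      · rintro (h | h)
        · exact ⟨h.1, by rw [h.2.2]; abel⟩
        · exact ⟨h.1, h.2.1⟩
    rw [h5, h6, Finset.card_union_of_disjoint]
    · congr 1
      exact homcyc_swap (fun x : W × W => F.Adj x.1 x.2 ∧ c x.2 = s ∧ c x.1 = s + 1)
        (fun x : W × W => F.Adj x.1 x.2 ∧ c x.1 = s ∧ c x.2 = s + 1)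
        (fun x => ⟨fun h => ⟨h.1.symm, h.2.1, h.2.2⟩, fun h => ⟨h.1.symm, h.2.1, h.2.2⟩⟩)
    · rw [Finset.disjoint_left]
      intro x h7 h8
      simp only [Finset.mem_filter, Finset.mem_univ, true_and] at h7 h8
      have h9 : c x.2 = c x.1 + 1 := by rw [h7.2.2, h7.2.1]
      have h10 : c x.1 = c x.2 + 1 := by rw [h8.2.2, h8.2.1]
      exact hex _ _ h9 h10
  -- all edges
  have h5 : P = 2 * (ecol F c' 0 1 + (ecol F c' 0 2 + ecol F c' 1 2)) := by
    have h6 := sum_ecol hprop (fun _ _ => 1) (fun _ _ => rfl)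
    have h7 : (P : ℝ) = ∑ i, ∑ j, (if F.Adj i j then (1 : ℝ) else 0) := by
      rw [hP, Finset.card_filter, Nat.cast_sum, ← Fintype.sum_prod_type'
        (f := fun i j => if F.Adj i j then (1 : ℝ) else 0)]
      refine Finset.sum_congr rfl fun x _ => ?_
      split_ifs <;> simp
    rw [← h7] at h6
    have h8 : (P : ℝ) = ((2 * (ecol F c' 0 1 + (ecol F c' 0 2 + ecol F c' 1 2)) : ℕ) : ℝ) := by
      rw [h6]
      push_cast
      ring
    exact_mod_cast h8
  rw [h5, ← h4] at hs
  generalize ecol F c' 0 2 + ecol F c' 1 2 = X at hs ⊢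
  obtain ⟨j, rfl⟩ : ∃ j, k = j + 1 := ⟨k - 1, by omega⟩
  have h9 : 2 * (j + 1) - 1 = 2 * j + 1 := by omega
  rw [h9]
  nlinarith

end Pool.TCF
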