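import Pool.Agent.TCF.Defs

/-!
MODULE Circ (difficulty 3).  Two sides, complete between them, a circulant graph inside each of them.

RECIPE.  For `u = (x, b)` the neighbours are `(y, !b)` (`l + 1` of them) and `(y, b)` with `d = y - x ≠ 0` and
`d.val ≤ D` or `(-d).val ≤ D`, i.e. `1 ≤ d.val ≤ D` or `l + 1 - D ≤ d.val ≤ l` (`(-d).val = l + 1 - d.val` for `d ≠ 0`); these are
`2 D` values of `d`, as `2 D < l + 1`.  The map `y ↦ y - x` is a bijection of `Fin (l + 1)`.
The row sum of the weights is `(l + 1) - τ * 2 D`, and there are `2 (l + 1)` rows.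
-/

open Finset
open scoped Classical

namespace Pool.TCF
open Pool.OCY Pool.OCG

/-- the example -/
def circ (l D : ℕ) : SimpleGraph (Fin (l + 1) × Bool) where
  Adj u v := u.2 ≠ v.2 ∨ (u.2 = v.2 ∧ u.1 ≠ v.1 ∧ ((v.1 - u.1).val ≤ D ∨ (u.1 - v.1).val ≤ D))
  symm := ⟨by
    rintro u v (h | ⟨h1, h2, h3⟩)
    · exact Or.inl h.symm
    · exact Or.inr ⟨h1.symm, h2.symm, h3.symm⟩⟩
  loopless := ⟨by
    rintro u (h | ⟨_, h, _⟩)
    · exact h rfl
    · exact h rfl⟩

private theorem circ_count {l D : ℕ} (h : 2 * D < l + 1) :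
    ((range (l + 1)).filter fun i : ℕ => i ≠ 0 ∧ (i ≤ D ∨ l + 1 - i ≤ D)).card = 2 * D := by
  have h1 : ((range (l + 1)).filter fun i : ℕ => i ≠ 0 ∧ (i ≤ D ∨ l + 1 - i ≤ D))
      = Icc 1 D ∪ Icc (l + 1 - D) l := by
    ext i
    simp only [mem_filter, mem_range, mem_union, mem_Icc]
    omega
  rw [h1, card_union_of_disjoint]
  · rw [Nat.card_Icc, Nat.card_Icc]; omega
  · rw [Finset.disjoint_left]
    intro i hi hi'
    rw [mem_Icc] at hi hi'
    omega

private theorem circ_fin {l D : ℕ} (h : 2 * D < l + 1) (x : Fin (l + 1)) (p : ℝ) :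
    ∑ y : Fin (l + 1), (if x ≠ y ∧ ((y - x).val ≤ D ∨ (x - y).val ≤ D) then p else 0) = 2 * D * p := by
  have h1 : ∑ y : Fin (l + 1), (if x ≠ y ∧ ((y - x).val ≤ D ∨ (x - y).val ≤ D) then p else 0)
      = ∑ d : Fin (l + 1), (if (d : ℕ) ≠ 0 ∧ ((d : ℕ) ≤ D ∨ l + 1 - (d : ℕ) ≤ D) then p else 0) := by
    refine (Fintype.sum_equiv (Equiv.addLeft x) _ _ fun d => ?_).symm
    have e1 : (Equiv.addLeft x d - x : Fin (l + 1)) = d := by simp
    have e2 : (x - Equiv.addLeft x d : Fin (l + 1)) = -d := by simp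
    have e3 : (x ≠ Equiv.addLeft x d) ↔ (d : ℕ) ≠ 0 := by
      rw [Equiv.coe_addLeft, ne_eq, left_eq_add, ne_eq, Fin.val_eq_zero_iff]
    refine if_congr ?_ rfl rfl
    rw [e1, e2, e3]
    refine and_congr_right fun hd => or_congr_right ?_
    rw [Fin.val_neg', Nat.mod_eq_of_lt (by omega)]
  rw [h1, Fin.sum_univ_eq_sum_range (fun i : ℕ => if i ≠ 0 ∧ (i ≤ D ∨ l + 1 - i ≤ D) then p else 0) (l + 1),
    ← sum_filter, sum_const, circ_count h, nsmul_eq_mul]
  push_cast
  ring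

private theorem circ_row {l D : ℕ} (h : 2 * D < l + 1) (u : Fin (l + 1) × Bool) (p q : ℝ) :
    ∑ v, (if (circ l D).Adj u v then (if u.2 = v.2 then p else q) else 0) = ((l : ℝ) + 1) * q + 2 * D * p := by
  obtain ⟨x, b⟩ := u
  rw [Fintype.sum_prod_type]
  have h1 : ∀ y : Fin (l + 1), ∑ b' : Bool, (if (circ l D).Adj (x, b) (y, b') then (if (x, b).2 = (y, b').2 then p else q) else 0)
      = q + (if x ≠ y ∧ ((y - x).val ≤ D ∨ (x - y).val ≤ D) then p else 0) := by
    intro y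
    rw [Fintype.sum_bool]
    cases b <;> simp [circ, add_comm]
  rw [sum_congr rfl fun y _ => h1 y, sum_add_distrib, circ_fin h, sum_const, card_univ, Fintype.card_fin, nsmul_eq_mul]
  push_cast
  ring

theorem circ_degree {l D : ℕ} (h : 2 * D < l + 1) (u : Fin (l + 1) × Bool) :
    (circ l D).degree u = (l + 1) + 2 * D := by
  have h1 := circ_row h u 1 1
  have h2 : ∑ v, (if (circ l D).Adj u v then (if u.2 = v.2 then (1 : ℝ) else 1) else 0) = ((circ l D).degree u : ℝ) := by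
    rw [← SimpleGraph.card_neighborFinset_eq_degree, SimpleGraph.neighborFinset_eq_filter, card_filter]
    push_cast
    refine sum_congr rfl fun v _ => ?_
    simp
  rw [h2] at h1
  have h3 : ((circ l D).degree u : ℝ) = (((l + 1) + 2 * D : ℕ) : ℝ) := by
    rw [h1]; push_cast; ring
  exact_mod_cast h3

theorem circ_sum {l D : ℕ} (h : 2 * D < l + 1) (τ : ℝ) :
    ∑ u, ∑ v, OCY.ext (circ l D) (fun u v => if u.2 = v.2 then -τ else 1) u v =
      2 * ((l : ℝ) + 1) * (((l : ℝ) + 1) - 2 * D * τ) := by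
  have h1 : ∀ u : Fin (l + 1) × Bool, ∑ v, OCY.ext (circ l D) (fun u v => if u.2 = v.2 then -τ else 1) u v
      = ((l : ℝ) + 1) * 1 + 2 * D * (-τ) := by
    intro u
    rw [← circ_row h u (-τ) 1]
    refine sum_congr rfl fun v _ => ?_
    unfold OCY.ext
    congr
  rw [sum_congr rfl fun u _ => h1 u, sum_const, card_univ, Fintype.card_prod, Fintype.card_fin, Fintype.card_bool, nsmul_eq_mul]
  push_cast
  ring

end Pool.TCF
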