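import Pool.Agent.TCF.Transfer
import Pool.Agent.TCF.Circ
import Pool.Agent.TCF.HalfCut

/-!
MODULE Low1 (difficulty 3).  The lower bound `e / (2 m)` for graphs without cuts of more than `m < e` edges.

RECIPE.  `e = F.edgeFinset.card`, `j = e - m ≥ 1`, `j ≤ m` (`half_cut`), `m ≥ 1`.  `e / (2m) = 1/2 + j/(2m)`.  Given
`δ < e/(2m)` choose `s ≥ 1` with `(e/(2m) - δ) * (2 m s) ≥ 1`; `L = 2 m s = l + 1`, `D = j s - 1`, `2 D < L`.
Apply `low_graph` to `circ l D` with `ρ u v = if u.2 = v.2 then -τ else 1`, `τ = m / j`.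
Degrees: `L + 2 D = 2 m s + 2 j s - 2 ≥ δ * 2 L` (as `e/(2m) * 2L = 2 m s + 2 j s` and `(e/(2m) - δ) * 2 L ≥ 2`).
Total: `circ_sum`: `L - 2 D τ = 2 m s - 2 (j s - 1) m / j = 2 m / j > 0`.
Copies `f : W → Fin (l+1) × Bool`: with `side i = (f i).2` and `C` = number of ordered pairs with different sides,
`C ≤ 2 m`; the number of all ordered pairs is `2 e` (`card_pairs`), so the sum is `C - τ (2 e - C) ≤ 2 m - τ (2 e - 2 m) = 0`
(compare `low_copies` in the proved file `Pool/Agent/OCG/LowG.lean`).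
-/

open Finset
open scoped Classical

namespace Pool.TCF
open Pool.OCY Pool.OCG

theorem low1 {W : Type} [Fintype W] {F : SimpleGraph W} {m : ℕ} (hm : m < F.edgeFinset.card)
    (h : CutLe F m) {δ : ℝ} (hδ : δ < (F.edgeFinset.card : ℝ) / (2 * m)) (n₀ : ℕ) :
    ∃ n ≥ n₀, Bad F δ n := by
  have he2 := half_cut h
  set e : ℕ := F.edgeFinset.card with he
  have hm1 : 1 ≤ m := by omega
  obtain ⟨j, hj⟩ : ∃ j, e = m + j := ⟨e - m, by omega⟩
  have hj1 : 1 ≤ j := by omega
  have hjm : j ≤ m := by omega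
  have hmR : (0 : ℝ) < m := by exact_mod_cast hm1
  have hjR : (0 : ℝ) < j := by exact_mod_cast hj1
  have heR : (e : ℝ) = m + j := by rw [hj]; push_cast; ring
  have hgap : 0 < (e : ℝ) / (2 * m) - δ := by linarith
  have hgm : 0 < ((e : ℝ) / (2 * m) - δ) * (2 * m) := by positivity
  obtain ⟨s, hs⟩ := exists_nat_gt (1 / (((e : ℝ) / (2 * m) - δ) * (2 * m)))
  have hsR : (0 : ℝ) < s := lt_trans (by positivity) hs
  have hs1 : 1 ≤ s := by exact_mod_cast hsR
  have hs2 : 1 ≤ ((e : ℝ) / (2 * m) - δ) * (2 * m) * s := by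
    rw [div_lt_iff₀ hgm] at hs
    linarith
  have hms : 1 ≤ m * s := Nat.mul_pos hm1 hs1
  have hjs : 1 ≤ j * s := Nat.mul_pos hj1 hs1
  have hjms : j * s ≤ m * s := Nat.mul_le_mul_right s hjm
  obtain ⟨l, hl⟩ : ∃ l, l + 1 = 2 * (m * s) := ⟨2 * (m * s) - 1, by omega⟩
  obtain ⟨D, hD⟩ : ∃ D, D + 1 = j * s := ⟨j * s - 1, by omega⟩
  have h2D : 2 * D < l + 1 := by omega
  have hlR : (l : ℝ) + 1 = 2 * (m * s) := by exact_mod_cast hl
  have hDR : (D : ℝ) + 1 = j * s := by exact_mod_cast hD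
  have hbot : F ≠ ⊥ := by
    intro hb
    have hne : F.edgeFinset.Nonempty := card_pos.mp (by omega)
    obtain ⟨x, hx⟩ := hne
    rw [SimpleGraph.mem_edgeFinset] at hx
    rw [hb, SimpleGraph.edgeSet_bot] at hx
    exact hx
  refine low_graph hbot (circ l D) (fun u v => if u.2 = v.2 then -((m : ℝ) / j) else 1) ?_ ?_ ?_ n₀
  · intro u
    rw [circ_degree h2D u]
    simp only [Fintype.card_prod, Fintype.card_fin, Fintype.card_bool]
    push_cast
    have h1 : (e : ℝ) / (2 * m) * (((l : ℝ) + 1) * 2) = 2 * (e * s) := by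
      rw [hlR]; field_simp
    have h2 : 2 ≤ ((e : ℝ) / (2 * m) - δ) * (((l : ℝ) + 1) * 2) := by
      rw [hlR]
      calc (2 : ℝ) ≤ 2 * (((e : ℝ) / (2 * m) - δ) * (2 * m) * s) := by linarith
        _ = _ := by ring
    have h3 : (l : ℝ) + 1 + 2 * D = 2 * (e * s) - 2 := by
      rw [heR, hlR]; linear_combination 2 * hDR
    rw [h3]
    linarith
  · intro f _
    have hc := h (fun i => (f i).2)
    have hp := card_pairs F
    have h1 : ∑ i, ∑ k, (if F.Adj i k then (if (f i).2 = (f k).2 then -((m : ℝ) / j) else 1) else 0) =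
        ∑ x : W × W, (if F.Adj x.1 x.2 then (if (f x.1).2 = (f x.2).2 then -((m : ℝ) / j) else 1)
          else 0) := by
      rw [Fintype.sum_prod_type]
    have h2 : ∀ x : W × W, (if F.Adj x.1 x.2 then (if (f x.1).2 = (f x.2).2 then -((m : ℝ) / j)
          else 1) else 0) =
        (1 + (m : ℝ) / j) * (if F.Adj x.1 x.2 ∧ (f x.1).2 ≠ (f x.2).2 then (1 : ℝ) else 0)
          - (m : ℝ) / j * (if F.Adj x.1 x.2 then (1 : ℝ) else 0) := by
      intro x
      by_cases hA : F.Adj x.1 x.2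
      · by_cases hB : (f x.1).2 = (f x.2).2
        · simp [hA, hB]
        · simp [hA, hB]
      · simp [hA]
    show ∑ i, ∑ k, (if F.Adj i k then (if (f i).2 = (f k).2 then -((m : ℝ) / j) else 1) else 0) ≤ 0
    rw [h1, sum_congr rfl (fun x _ => h2 x), sum_sub_distrib, ← mul_sum, ← mul_sum, sum_boole,
      sum_boole, hp, ← he]
    have hcR : ((univ.filter fun x : W × W => F.Adj x.1 x.2 ∧ (f x.1).2 ≠ (f x.2).2).card : ℝ)
        ≤ 2 * m := by exact_mod_cast hc
    have h3 : (1 + (m : ℝ) / j) *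
        ((univ.filter fun x : W × W => F.Adj x.1 x.2 ∧ (f x.1).2 ≠ (f x.2).2).card : ℝ)
        ≤ (1 + (m : ℝ) / j) * (2 * m) :=
      mul_le_mul_of_nonneg_left hcR (by positivity)
    have h4 : (1 + (m : ℝ) / j) * (2 * m) = (m : ℝ) / j * ((2 * e : ℕ) : ℝ) := by
      push_cast
      rw [heR]; field_simp; ring
    linarith
  · rw [circ_sum h2D]
    have h5 : (l : ℝ) + 1 - 2 * D * ((m : ℝ) / j) = 2 * m / j := by
      have : (D : ℝ) = j * s - 1 := by linarith
      rw [hlR, this]; field_simp; ring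
    rw [h5, hlR]
    positivity

end Pool.TCF
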