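import Pool.Agent.TCF.Defs

/-!
MODULE Switch (difficulty 3).  Switching: the edges `a p`, `b c` are replaced by the edges `a b`, `p c`.

RECIPE.  `G.Adj x y := (G₁.Adj x y ∧ s(x, y) ≠ s(a, p) ∧ s(x, y) ≠ s(b, c)) ∨ s(x, y) = s(a, b) ∨ s(x, y) = s(p, c)`
(no loops as `a ≠ b`, `p ≠ c`).  Degrees: for `v ∉ {a, p, b, c}` the neighbours are the same; the neighbours of `a` are those in
`G₁` with `p` replaced by `b` (`G₁.Adj a p`, `¬ G₁.Adj a b`), those of `p`: `a` replaced by `c`; of `b`: `c` replaced by `a`; of `c`: `b`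
replaced by `p`.  The four vertices are distinct.  The number of edges: half of the sum of the degrees.
-/

open Finset
open scoped Classical

namespace Pool.TCF
open Pool.OCY Pool.OCG

private theorem Switch_card {V : Type*} {M N : Finset V} {x y : V} (hx : x ∈ M) (hy : y ∉ M)
    (h : N = insert y (M.erase x)) : N.card = M.card := by
  rw [h, Finset.card_insert_of_notMem (fun hh => hy (Finset.mem_of_mem_erase hh)),
    Finset.card_erase_of_mem hx]
  have := Finset.card_pos.2 ⟨x, hx⟩
  omega

theorem switch {V : Type*} [Fintype V] (G₁ : SimpleGraph V) {a p b c : V} (hap : a ≠ p) (hab : a ≠ b)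
    (hac : a ≠ c) (hpb : p ≠ b) (hpc : p ≠ c) (hbc : b ≠ c) (h1 : G₁.Adj a p) (h2 : G₁.Adj b c)
    (h3 : ¬ G₁.Adj a b) (h4 : ¬ G₁.Adj p c) :
    ∃ G : SimpleGraph V, (∀ v, G.degree v = G₁.degree v) ∧
      G.edgeFinset.card = G₁.edgeFinset.card ∧
      ∀ x y, G.Adj x y ↔ ((G₁.Adj x y ∧ s(x, y) ≠ s(a, p) ∧ s(x, y) ≠ s(b, c)) ∨
        s(x, y) = s(a, b) ∨ s(x, y) = s(p, c)) := by
  obtain ⟨G, hG⟩ : ∃ G : SimpleGraph V, ∀ x y, G.Adj x y ↔
      ((G₁.Adj x y ∧ s(x, y) ≠ s(a, p) ∧ s(x, y) ≠ s(b, c)) ∨
        s(x, y) = s(a, b) ∨ s(x, y) = s(p, c)) := by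
    refine ⟨SimpleGraph.mk (fun x y => (G₁.Adj x y ∧ s(x, y) ≠ s(a, p) ∧ s(x, y) ≠ s(b, c)) ∨
        s(x, y) = s(a, b) ∨ s(x, y) = s(p, c)) ⟨?_⟩ ⟨?_⟩, fun x y => Iff.rfl⟩
    · intro x y h
      have e : s(y, x) = s(x, y) := Sym2.eq_swap
      rw [e]
      rcases h with h | h | h
      · exact Or.inl ⟨h.1.symm, h.2⟩
      · exact Or.inr (Or.inl h)
      · exact Or.inr (Or.inr h)
    · intro x h
      rcases h with h | h | h
      · exact G₁.loopless.irrefl x h.1
      · rw [Sym2.eq_iff] at h
        rcases h with ⟨h1, h2⟩ | ⟨h1, h2⟩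
        · exact hab (h1.symm.trans h2)
        · exact hab (h2.symm.trans h1)
      · rw [Sym2.eq_iff] at h
        rcases h with ⟨h1, h2⟩ | ⟨h1, h2⟩
        · exact hpc (h1.symm.trans h2)
        · exact hpc (h2.symm.trans h1)
  have hdeg : ∀ v, G.degree v = G₁.degree v := by
    intro v
    rw [← SimpleGraph.card_neighborFinset_eq_degree, ← SimpleGraph.card_neighborFinset_eq_degree]
    by_cases hva : v = a
    · subst hva
      refine Switch_card (x := p) (y := b) (by simpa using h1) (by simpa using h3) ?_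
      ext z
      rw [SimpleGraph.mem_neighborFinset, hG, Finset.mem_insert, Finset.mem_erase,
        SimpleGraph.mem_neighborFinset]
      simp only [ne_eq, Sym2.eq_iff]
      constructor
      · rintro (⟨h, h5, h6⟩ | h | h)
        · right
          refine ⟨fun h7 => h5 (Or.inl ⟨trivial, h7⟩), h⟩
        · rcases h with ⟨-, h⟩ | ⟨h, -⟩
          · exact Or.inl h
          · exact absurd h hab
        · rcases h with ⟨h, -⟩ | ⟨h, -⟩
          · exact absurd h hap
          · exact absurd h hac
      · rintro (h | ⟨h, h5⟩)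
        · exact Or.inr (Or.inl (Or.inl ⟨trivial, h⟩))
        · left
          refine ⟨h5, ?_, ?_⟩
          · rintro (⟨-, h6⟩ | ⟨h6, -⟩)
            · exact h h6
            · exact hap h6
          · rintro (⟨h6, -⟩ | ⟨h6, -⟩)
            · exact hab h6
            · exact hac h6
    by_cases hvp : v = p
    · subst hvp
      refine Switch_card (x := a) (y := c) (by simpa using h1.symm) (by simpa using h4) ?_
      ext z
      rw [SimpleGraph.mem_neighborFinset, hG, Finset.mem_insert, Finset.mem_erase,
        SimpleGraph.mem_neighborFinset]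
      simp only [ne_eq, Sym2.eq_iff]
      constructor
      · rintro (⟨h, h5, h6⟩ | h | h)
        · right
          refine ⟨fun h7 => h5 (Or.inr ⟨trivial, h7⟩), h⟩
        · rcases h with ⟨h, -⟩ | ⟨h, -⟩
          · exact absurd h.symm hap
          · exact absurd h hpb
        · rcases h with ⟨-, h⟩ | ⟨h, -⟩
          · exact Or.inl h
          · exact absurd h hpc
      · rintro (h | ⟨h, h5⟩)
        · exact Or.inr (Or.inr (Or.inl ⟨trivial, h⟩))
        · left
          refine ⟨h5, ?_, ?_⟩
          · rintro (⟨h6, -⟩ | ⟨-, h6⟩)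
            · exact hap h6.symm
            · exact h h6
          · rintro (⟨h6, -⟩ | ⟨h6, -⟩)
            · exact hpb h6
            · exact hpc h6
    by_cases hvb : v = b
    · subst hvb
      refine Switch_card (x := c) (y := a) (by simpa using h2) (by simpa using fun h => h3 h.symm) ?_
      ext z
      rw [SimpleGraph.mem_neighborFinset, hG, Finset.mem_insert, Finset.mem_erase,
        SimpleGraph.mem_neighborFinset]
      simp only [ne_eq, Sym2.eq_iff]
      constructor
      · rintro (⟨h, h5, h6⟩ | h | h)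
        · right
          refine ⟨fun h7 => h6 (Or.inl ⟨trivial, h7⟩), h⟩
        · rcases h with ⟨h, -⟩ | ⟨-, h⟩
          · exact absurd h.symm hab
          · exact Or.inl h
        · rcases h with ⟨h, -⟩ | ⟨h, -⟩
          · exact absurd h.symm hpb
          · exact absurd h hbc
      · rintro (h | ⟨h, h5⟩)
        · exact Or.inr (Or.inl (Or.inr ⟨trivial, h⟩))
        · left
          refine ⟨h5, ?_, ?_⟩
          · rintro (⟨h6, -⟩ | ⟨h6, -⟩)
            · exact hab h6.symm
            · exact hpb h6.symm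
          · rintro (⟨-, h6⟩ | ⟨h6, -⟩)
            · exact h h6
            · exact hbc h6
    by_cases hvc : v = c
    · subst hvc
      refine Switch_card (x := b) (y := p) (by simpa using h2.symm) (by simpa using fun h => h4 h.symm) ?_
      ext z
      rw [SimpleGraph.mem_neighborFinset, hG, Finset.mem_insert, Finset.mem_erase,
        SimpleGraph.mem_neighborFinset]
      simp only [ne_eq, Sym2.eq_iff]
      constructor
      · rintro (⟨h, h5, h6⟩ | h | h)
        · right
          refine ⟨fun h7 => h6 (Or.inr ⟨trivial, h7⟩), h⟩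
        · rcases h with ⟨h, -⟩ | ⟨h, -⟩
          · exact absurd h.symm hac
          · exact absurd h.symm hbc
        · rcases h with ⟨h, -⟩ | ⟨-, h⟩
          · exact absurd h.symm hpc
          · exact Or.inl h
      · rintro (h | ⟨h, h5⟩)
        · exact Or.inr (Or.inr (Or.inr ⟨trivial, h⟩))
        · left
          refine ⟨h5, ?_, ?_⟩
          · rintro (⟨h6, -⟩ | ⟨h6, -⟩)
            · exact hac h6.symm
            · exact hpc h6.symm
          · rintro (⟨h6, -⟩ | ⟨-, h6⟩)
            · exact hbc h6.symm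
            · exact h h6
    · congr 1
      ext z
      rw [SimpleGraph.mem_neighborFinset, hG, SimpleGraph.mem_neighborFinset]
      simp only [ne_eq, Sym2.eq_iff]
      constructor
      · rintro (⟨h, -⟩ | h | h)
        · exact h
        · rcases h with ⟨h, -⟩ | ⟨h, -⟩
          · exact absurd h hva
          · exact absurd h hvb
        · rcases h with ⟨h, -⟩ | ⟨h, -⟩
          · exact absurd h hvp
          · exact absurd h hvc
      · intro h
        left
        refine ⟨h, ?_, ?_⟩
        · rintro (⟨h6, -⟩ | ⟨h6, -⟩)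
          · exact hva h6
          · exact hvp h6
        · rintro (⟨h6, -⟩ | ⟨h6, -⟩)
          · exact hvb h6
          · exact hvc h6
  refine ⟨G, hdeg, ?_, hG⟩
  have e1 := G.sum_degrees_eq_twice_card_edges
  have e2 := G₁.sum_degrees_eq_twice_card_edges
  have e3 : ∑ v, G.degree v = ∑ v, G₁.degree v := Finset.sum_congr rfl (fun v _ => hdeg v)
  omega

end Pool.TCF
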