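import Pool.Agent.TCF.Transfer
import Pool.Agent.TCF.Switch

/-!
MODULE Low2 (difficulty 4).  The lower bound `2/3` for the graphs `F` such that `F - I` has no bridge for every independent set `I`.

RECIPE.  `base s` on `Fin 3 × Fin s`: classes `0`, `1` are cliques, class `2` is independent and complete to the others,
except that `(0, 0)` and `(2, 0)` are not adjacent; no edges between the classes `0` and `1`.  Degrees (`s ≥ 1`): class 0:
`(s - 1) + s` (minus `1` for `(0, 0)`), class 1: `(s - 1) + s`, class 2: `2 s` (minus `1` for `(2, 0)`): all `≥ 2 s - 2`.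
Given `δ < 2/3` choose `s ≥ 2` with `δ * (3 s) ≤ 2 s - 2`.  `q = 2 * E * (n₀ + 1)`, `E = F.edgeFinset.card > 0`, `G₁ = blow (base s) q`
(`blow_degree`, `blow_edges`; `q ≥ 1`), and `switch` with `a = ((0, 1), 0)`, `p = ((0, 0), 0)`, `b = ((1, 0), 0)`, `c = ((2, 0), 0)`:
`G₁.Adj a p`, `G₁.Adj b c`, `¬ G₁.Adj a b`, `¬ G₁.Adj p c`.  `Divisible F G` as in module `Transfer` (`low_graph`; `gcd_dvd_two`), degrees
`≥ q (2 s - 2) ≥ δ * (3 s q)`.  Apply `transfer` with `r x y = if s(x, y) = s(a, b) then 1 else 0`.  Total `= 2 > 0` (`G.Adj a b`).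
Copies: `f : W → V` injective with `F.Adj i j → G.Adj (f i) (f j)`; we show that no edge `i j` of `F` has `s(f i, f j) = s(a, b)` (then the
sum is `0`).  Suppose `F.Adj u v`, `f u = a`, `f v = b` (or exchanged).  Let `I = {w | (f w).1.1 = 2}`: independent in `F` (two vertices of class
`2` are not adjacent in `G`: also `s(p, c)`, `s(a, b)` are not inside class `2`).  In `del F I` every vertex of an edge has class `0` or `1`,
and an edge with different classes is mapped to an edge of `G` between the classes `0` and `1`, i.e. to `{a, b}`, so it is `s(u, v)`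
(`f` injective).  So `s(u, v)` is a bridge of `del F I`: along a walk of `(del F I).deleteEdges {s(u, v)}` the class does not change
(induction on the walk, or `SimpleGraph.Reachable` to a predicate), but the classes of `u`, `v` are `0`, `1`.  Contradiction to `hI`.
-/

open Finset
open scoped Classical

namespace Pool.TCF
open Pool.OCY Pool.OCG

/-- the reduced graph of the example -/
def base (s : ℕ) : SimpleGraph (Fin 3 × Fin s) where
  Adj x y := (x.1 = y.1 ∧ x.1 ≠ 2 ∧ x.2 ≠ y.2) ∨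
    (x.1 = 2 ∧ y.1 ≠ 2 ∧ ¬ (y.1 = 0 ∧ y.2.val = 0 ∧ x.2.val = 0)) ∨
    (y.1 = 2 ∧ x.1 ≠ 2 ∧ ¬ (x.1 = 0 ∧ x.2.val = 0 ∧ y.2.val = 0))
  symm := ⟨by
    rintro x y (⟨h1, h2, h3⟩ | ⟨h1, h2, h3⟩ | ⟨h1, h2, h3⟩)
    · exact Or.inl ⟨h1.symm, h1 ▸ h2, h3.symm⟩
    · exact Or.inr (Or.inr ⟨h1, h2, h3⟩)
    · exact Or.inr (Or.inl ⟨h1, h2, h3⟩)⟩
  loopless := ⟨by
    rintro x (⟨_, _, h3⟩ | ⟨h1, h2, _⟩ | ⟨h1, h2, _⟩)
    · exact h3 rfl
    · exact h2 h1
    · exact h2 h1⟩

private theorem fin3 : ∀ i : Fin 3, i = 0 ∨ i = 1 ∨ i = 2 := by decide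

private theorem base_degree (t : ℕ) (x : Fin 3 × Fin (t + 2)) :
    2 * (t + 2) ≤ (base (t + 2)).degree x + 2 := by
  obtain ⟨i, k⟩ := x
  have h1 : (univ.filter fun y => (base (t + 2)).Adj (i, k) y).card +
      (univ.filter fun y => ¬ (base (t + 2)).Adj (i, k) y).card = 3 * (t + 2) := by
    rw [Finset.card_filter_add_card_filter_not, Finset.card_univ]
    simp
  have h2 : (base (t + 2)).degree (i, k) = (univ.filter fun y => (base (t + 2)).Adj (i, k) y).card := by
    rw [← SimpleGraph.card_neighborFinset_eq_degree, SimpleGraph.neighborFinset_eq_filter]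
  have key : ∀ (j : Fin 3) (z : Fin 3 × Fin (t + 2)),
      (∀ y, ¬ (base (t + 2)).Adj (i, k) y → y = (i, k) ∨ y = z ∨ y.1 = j) →
      (univ.filter fun y => ¬ (base (t + 2)).Adj (i, k) y).card ≤ t + 2 + 2 := by
    intro j z h
    have hsub : (univ.filter fun y => ¬ (base (t + 2)).Adj (i, k) y) ⊆
        insert (i, k) (insert z (({j} : Finset (Fin 3)) ×ˢ (univ : Finset (Fin (t + 2))))) := by
      intro y hy
      rw [Finset.mem_filter] at hy
      rw [Finset.mem_insert, Finset.mem_insert]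
      rcases h y hy.2 with h | h | h
      · exact Or.inl h
      · exact Or.inr (Or.inl h)
      · refine Or.inr (Or.inr ?_)
        rw [Finset.mem_product]
        exact ⟨Finset.mem_singleton.2 h, Finset.mem_univ _⟩
    refine (Finset.card_le_card hsub).trans ((Finset.card_insert_le _ _).trans ?_)
    refine Nat.succ_le_succ ((Finset.card_insert_le _ _).trans ?_)
    rw [Finset.card_product]
    simp
  have h3 : (univ.filter fun y => ¬ (base (t + 2)).Adj (i, k) y).card ≤ t + 2 + 2 := by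
    have hi := fin3 i
    rcases hi with rfl | rfl | rfl
    · refine key 1 (2, 0) ?_
      rintro ⟨j, l⟩ hy
      have hj := fin3 j
      rcases hj with rfl | rfl | rfl
      · left
        by_contra hne
        apply hy
        refine Or.inl ⟨rfl, show (0 : Fin 3) ≠ 2 by decide, ?_⟩
        intro hkl
        exact hne (Prod.ext rfl hkl.symm)
      · exact Or.inr (Or.inr rfl)
      · right; left
        by_contra hne
        apply hy
        refine Or.inr (Or.inr ⟨rfl, show (0 : Fin 3) ≠ 2 by decide, ?_⟩)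
        rintro ⟨_, _, hl⟩
        exact hne (Prod.ext rfl (Fin.ext hl))
    · refine key 0 (0, 0) ?_
      rintro ⟨j, l⟩ hy
      have hj := fin3 j
      rcases hj with rfl | rfl | rfl
      · exact Or.inr (Or.inr rfl)
      · left
        by_contra hne
        apply hy
        refine Or.inl ⟨rfl, show (1 : Fin 3) ≠ 2 by decide, ?_⟩
        intro hkl
        exact hne (Prod.ext rfl hkl.symm)
      · exfalso
        apply hy
        refine Or.inr (Or.inr ⟨rfl, show (1 : Fin 3) ≠ 2 by decide, ?_⟩)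
        rintro ⟨h, _⟩
        exact absurd h (show (1 : Fin 3) ≠ 0 by decide)
    · refine key 2 (0, 0) ?_
      rintro ⟨j, l⟩ hy
      have hj := fin3 j
      rcases hj with rfl | rfl | rfl
      · right; left
        by_contra hne
        apply hy
        refine Or.inr (Or.inl ⟨rfl, show (0 : Fin 3) ≠ 2 by decide, ?_⟩)
        rintro ⟨_, hl, _⟩
        exact hne (Prod.ext rfl (Fin.ext hl))
      · exfalso
        apply hy
        refine Or.inr (Or.inl ⟨rfl, show (1 : Fin 3) ≠ 2 by decide, ?_⟩)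
        rintro ⟨h, _⟩
        exact absurd h (show (1 : Fin 3) ≠ 0 by decide)
      · exact Or.inr (Or.inr rfl)
  omega

theorem low2 {W : Type} [Fintype W] {F : SimpleGraph W} (hF : F ≠ ⊥)
    (hI : ∀ I : Set W, Indep F I → ¬ HasBridge (del F I)) {δ : ℝ} (hδ : δ < 2 / 3) (n₀ : ℕ) :
    ∃ n ≥ n₀, Bad F δ n := by
  obtain ⟨t, ht⟩ := exists_nat_gt (2 / (2 - 3 * δ))
  have h3 : (0 : ℝ) < 2 - 3 * δ := by linarith
  have ht2 : δ * (3 * ((t : ℝ) + 2)) ≤ 2 * ((t : ℝ) + 2) - 2 := by
    rw [div_lt_iff₀ h3] at ht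
    nlinarith
  have hE : 0 < F.edgeFinset.card := by
    rw [Finset.card_pos]
    by_contra hne
    rw [Finset.not_nonempty_iff_eq_empty, SimpleGraph.edgeFinset_eq_empty] at hne
    exact hF hne
  obtain ⟨Q, hQ⟩ : ∃ Q, Q + 1 = 2 * F.edgeFinset.card * (n₀ + 1) := by
    refine ⟨2 * F.edgeFinset.card * (n₀ + 1) - 1, ?_⟩
    have : 0 < 2 * F.edgeFinset.card * (n₀ + 1) := by positivity
    omega
  let a : (Fin 3 × Fin (t + 2)) × Fin (Q + 1) := ((0, 1), 0)
  let p : (Fin 3 × Fin (t + 2)) × Fin (Q + 1) := ((0, 0), 0)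
  let b : (Fin 3 × Fin (t + 2)) × Fin (Q + 1) := ((1, 0), 0)
  let c : (Fin 3 × Fin (t + 2)) × Fin (Q + 1) := ((2, 0), 0)
  have h01 : (0 : Fin (t + 2)) ≠ 1 := by
    intro h
    have := congrArg Fin.val h
    simp at this
  have hap : a ≠ p := fun h => h01 (congrArg (fun x => x.1.2) h).symm
  have hab : a ≠ b := fun h => absurd (congrArg (fun x => x.1.1) h) (show (0 : Fin 3) ≠ 1 by decide)
  have hac : a ≠ c := fun h => absurd (congrArg (fun x => x.1.1) h) (show (0 : Fin 3) ≠ 2 by decide)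
  have hpb : p ≠ b := fun h => absurd (congrArg (fun x => x.1.1) h) (show (0 : Fin 3) ≠ 1 by decide)
  have hpc : p ≠ c := fun h => absurd (congrArg (fun x => x.1.1) h) (show (0 : Fin 3) ≠ 2 by decide)
  have hbc : b ≠ c := fun h => absurd (congrArg (fun x => x.1.1) h) (show (1 : Fin 3) ≠ 2 by decide)
  have g1 : (blow (base (t + 2)) (Q + 1)).Adj a p :=
    Or.inl ⟨rfl, show (0 : Fin 3) ≠ 2 by decide, h01.symm⟩
  have g2 : (blow (base (t + 2)) (Q + 1)).Adj b c :=
    Or.inr (Or.inr ⟨rfl, show (1 : Fin 3) ≠ 2 by decide,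
      fun h => absurd h.1 (show (1 : Fin 3) ≠ 0 by decide)⟩)
  have g3 : ¬ (blow (base (t + 2)) (Q + 1)).Adj a b := by
    rintro (⟨h, _⟩ | ⟨h, _⟩ | ⟨h, _⟩)
    · exact absurd h (show (0 : Fin 3) ≠ 1 by decide)
    · exact absurd h (show (0 : Fin 3) ≠ 2 by decide)
    · exact absurd h (show (1 : Fin 3) ≠ 2 by decide)
  have g4 : ¬ (blow (base (t + 2)) (Q + 1)).Adj p c := by
    rintro (⟨h, _⟩ | ⟨h, _⟩ | ⟨_, _, h⟩)
    · exact absurd h (show (0 : Fin 3) ≠ 2 by decide)
    · exact absurd h (show (0 : Fin 3) ≠ 2 by decide)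
    · exact h ⟨rfl, rfl, rfl⟩
  obtain ⟨G, hdeg, hedg, hadj⟩ := switch (blow (base (t + 2)) (Q + 1)) hap hab hac hpb hpc hbc
    g1 g2 g3 g4
  have hcard : Fintype.card ((Fin 3 × Fin (t + 2)) × Fin (Q + 1)) = 3 * (t + 2) * (Q + 1) := by
    simp
  refine ⟨Fintype.card ((Fin 3 × Fin (t + 2)) × Fin (Q + 1)), ?_, ?_⟩
  · rw [hcard, hQ]
    have h5 : n₀ ≤ 2 * F.edgeFinset.card * (n₀ + 1) := by nlinarith
    nlinarith
  refine transfer (F := F) (G := G) ?_ ?_
    (r := fun x y => if s(x, y) = s(a, b) then (1 : ℝ) else 0) ?_ ?_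
  · refine ⟨?_, fun v => ?_⟩
    · rw [hedg, blow_edges, hQ]
      exact Dvd.dvd.mul_right (Dvd.dvd.mul_right (Dvd.dvd.mul_right (Dvd.intro_left 2 rfl) _) _) _
    · rw [hdeg, blow_degree]
      have hg : (univ.gcd fun x => F.degree x) ∣ Q + 1 := by
        rw [hQ]
        exact Dvd.dvd.mul_right (gcd_dvd_two F) _
      exact hg.mul_right _
  · intro v
    rw [hdeg, blow_degree, hcard]
    have h6 := base_degree t v.1
    have h7 : (2 * ((t : ℝ) + 2) - 2) ≤ ((base (t + 2)).degree v.1 : ℝ) := by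
      have h8 : ((2 * (t + 2) : ℕ) : ℝ) ≤ (((base (t + 2)).degree v.1 + 2 : ℕ) : ℝ) := by
        exact_mod_cast h6
      push_cast at h8
      linarith
    have h9 : (0 : ℝ) ≤ (Q : ℝ) + 1 := by positivity
    push_cast
    calc δ * (3 * ((t : ℝ) + 2) * ((Q : ℝ) + 1)) = ((Q : ℝ) + 1) * (δ * (3 * ((t : ℝ) + 2))) := by ring
      _ ≤ ((Q : ℝ) + 1) * (2 * ((t : ℝ) + 2) - 2) := mul_le_mul_of_nonneg_left ht2 h9
      _ ≤ ((Q : ℝ) + 1) * ((base (t + 2)).degree v.1 : ℝ) := mul_le_mul_of_nonneg_left h7 h9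
  · intro f hf hfG
    refine le_of_eq (Finset.sum_eq_zero fun i _ => Finset.sum_eq_zero fun j _ => ?_)
    by_cases hij : F.Adj i j
    · rw [if_pos hij]
      show (if s(f i, f j) = s(a, b) then (1 : ℝ) else 0) = 0
      rw [if_neg]
      intro hs
      obtain ⟨u, v, huv, hu, hv⟩ : ∃ u v, F.Adj u v ∧ f u = a ∧ f v = b := by
        rcases Sym2.eq_iff.1 hs with ⟨h, h'⟩ | ⟨h, h'⟩
        · exact ⟨i, j, hij, h, h'⟩
        · exact ⟨j, i, hij.symm, h', h⟩
      refine hI {w | (f w).1.1 = 2} ?_ ⟨u, v, ⟨huv, ?_, ?_⟩, ?_⟩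
      · intro w hw w' hw' hww
        have hw2 : (f w).1.1 = 2 := hw
        have hw2' : (f w').1.1 = 2 := hw'
        rcases (hadj _ _).1 (hfG w w' hww) with ⟨hg, _⟩ | hg | hg
        · rcases hg with ⟨_, h, _⟩ | ⟨_, h, _⟩ | ⟨_, h, _⟩
          · exact h hw2
          · exact h hw2'
          · exact h hw2
        · rcases Sym2.eq_iff.1 hg with ⟨h, _⟩ | ⟨h, _⟩
          · rw [h] at hw2
            exact absurd hw2 (show (0 : Fin 3) ≠ 2 by decide)
          · rw [h] at hw2
            exact absurd hw2 (show (1 : Fin 3) ≠ 2 by decide)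
        · rcases Sym2.eq_iff.1 hg with ⟨h, _⟩ | ⟨_, h⟩
          · rw [h] at hw2
            exact absurd hw2 (show (0 : Fin 3) ≠ 2 by decide)
          · rw [h] at hw2'
            exact absurd hw2' (show (0 : Fin 3) ≠ 2 by decide)
      · show ¬ (f u).1.1 = 2
        rw [hu]
        exact show (0 : Fin 3) ≠ 2 by decide
      · show ¬ (f v).1.1 = 2
        rw [hv]
        exact show (1 : Fin 3) ≠ 2 by decide
      · rw [SimpleGraph.isBridge_iff]
        intro hreach
        have key : ∀ w w', ((del F {w | (f w).1.1 = 2}) \ SimpleGraph.fromEdgeSet {s(u, v)}).Adj w w' →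
            (f w).1.1 = (f w').1.1 := by
          intro w w' hww
          rw [SimpleGraph.sdiff_adj] at hww
          obtain ⟨⟨hww1, hw, hw'⟩, hne⟩ := hww
          have hw2 : (f w).1.1 ≠ 2 := hw
          have hw2' : (f w').1.1 ≠ 2 := hw'
          rcases (hadj _ _).1 (hfG w w' hww1) with ⟨hg, _⟩ | hg | hg
          · rcases hg with ⟨h, _, _⟩ | ⟨h, _, _⟩ | ⟨h, _, _⟩
            · exact congrArg Fin.val h |> Fin.ext
            · exact absurd h hw2
            · exact absurd h hw2'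
          · exfalso
            apply hne
            rw [SimpleGraph.fromEdgeSet_adj]
            refine ⟨?_, hww1.ne⟩
            rw [Set.mem_singleton_iff]
            rcases Sym2.eq_iff.1 hg with ⟨h, h'⟩ | ⟨h, h'⟩
            · rw [hf (h.trans hu.symm), hf (h'.trans hv.symm)]
            · rw [hf (h.trans hv.symm), hf (h'.trans hu.symm), Sym2.eq_swap]
          · rcases Sym2.eq_iff.1 hg with ⟨_, h⟩ | ⟨h, _⟩
            · rw [h] at hw2'
              exact absurd rfl hw2'
            · rw [h] at hw2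
              exact absurd rfl hw2
        obtain ⟨W'⟩ := hreach
        have key2 : ∀ x y (_ : ((del F {w | (f w).1.1 = 2}) \
            SimpleGraph.fromEdgeSet {s(u, v)}).Walk x y), (f x).1.1 = (f y).1.1 := by
          intro x y w
          induction w with
          | nil => rfl
          | cons h _ ih => exact (key _ _ h).trans ih
        have := key2 _ _ W'
        rw [hu, hv] at this
        exact absurd this (show (0 : Fin 3) ≠ 1 by decide)
    · rw [if_neg hij]
  · have hnn : ∀ x y, 0 ≤ OCY.ext G (fun x y => if s(x, y) = s(a, b) then (1 : ℝ) else 0) x y := by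
      intro x y
      unfold OCY.ext
      by_cases hxy : G.Adj x y
      · rw [if_pos hxy]
        show (0 : ℝ) ≤ if s(x, y) = s(a, b) then 1 else 0
        by_cases hs : s(x, y) = s(a, b)
        · rw [if_pos hs]; norm_num
        · rw [if_neg hs]
      · rw [if_neg hxy]
    have h1 : (1 : ℝ) ≤ OCY.ext G (fun x y => if s(x, y) = s(a, b) then (1 : ℝ) else 0) a b := by
      unfold OCY.ext
      rw [if_pos ((hadj a b).2 (Or.inr (Or.inl rfl)))]
      show (1 : ℝ) ≤ if s(a, b) = s(a, b) then 1 else 0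
      rw [if_pos rfl]
    have h2 : OCY.ext G (fun x y => if s(x, y) = s(a, b) then (1 : ℝ) else 0) a b ≤
        ∑ y, OCY.ext G (fun x y => if s(x, y) = s(a, b) then (1 : ℝ) else 0) a y :=
      Finset.single_le_sum (fun y _ => hnn a y) (Finset.mem_univ b)
    have h3 : ∑ y, OCY.ext G (fun x y => if s(x, y) = s(a, b) then (1 : ℝ) else 0) a y ≤
        ∑ x, ∑ y, OCY.ext G (fun x y => if s(x, y) = s(a, b) then (1 : ℝ) else 0) x y :=
      Finset.single_le_sum (f := fun x => ∑ y, OCY.ext G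
        (fun x y => if s(x, y) = s(a, b) then (1 : ℝ) else 0) x y)
        (fun x _ => Finset.sum_nonneg fun y _ => hnn x y) (Finset.mem_univ a)
    linarith

end Pool.TCF
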