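import Pool.Agent.TCF.Defs

/-!
MODULE NoBr (difficulty 2).  In a complete tripartite graph with parts of size at least 2, `F - I` has no bridge for every
independent set `I`.

RECIPE.  `(tri a b c).Adj v w ↔ v.1 ≠ w.1`, so an independent `I` lies inside one part (or is empty).  Let `H = del (tri a b c) I`,
`H.Adj x y` (`x.1 ≠ y.1`, `x, y ∉ I`); show that `(H.deleteEdges {s(x, y)}).Reachable x y` (`SimpleGraph.isBridge_iff`).  Let `k` be the third
part.  If some `z` in part `k` is not in `I`: the path `x z y`.  Otherwise part `k` is nonempty and contained in `I`, so `I` does not meet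
the other two parts; take `x' ≠ x` in the part of `x` and `y' ≠ y` in the part of `y` (sizes `≥ 2`): the path `x y' x' y`.
-/

open Finset
open scoped Classical

namespace Pool.TCF
open Pool.OCY Pool.OCG

private theorem NoBr_other {a b c : ℕ} (ha : 2 ≤ a) (hb : 2 ≤ b) (hc : 2 ≤ c)
    (x : Σ i : Fin 3, Fin (![a, b, c] i)) :
    ∃ x' : Σ i : Fin 3, Fin (![a, b, c] i), x'.1 = x.1 ∧ x' ≠ x := by
  obtain ⟨i, j⟩ := x
  have h2 : 2 ≤ ![a, b, c] i := by fin_cases i <;> simpa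
  have : Nontrivial (Fin (![a, b, c] i)) := Fin.nontrivial_iff_two_le.2 h2
  obtain ⟨j', hj⟩ := exists_ne j
  exact ⟨⟨i, j'⟩, rfl, fun h => hj (by simpa using h)⟩

private theorem NoBr_pt {a b c : ℕ} (ha : 2 ≤ a) (hb : 2 ≤ b) (hc : 2 ≤ c) (k : Fin 3) :
    ∃ x : Σ i : Fin 3, Fin (![a, b, c] i), x.1 = k := by
  have h2 : 2 ≤ ![a, b, c] k := by fin_cases k <;> simpa
  exact ⟨⟨k, ⟨0, by omega⟩⟩, rfl⟩

private theorem NoBr_third (i j : Fin 3) : ∃ k : Fin 3, k ≠ i ∧ k ≠ j := by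
  revert i j; decide

theorem tri_nobr {a b c : ℕ} (ha : 2 ≤ a) (hb : 2 ≤ b) (hc : 2 ≤ c)
    (I : Set (Σ i : Fin 3, Fin (![a, b, c] i))) (hI : Indep (tri a b c) I) :
    ¬ HasBridge (del (tri a b c) I) := by
  rintro ⟨x, y, hxy, hbr⟩
  have hadj : ∀ v w : Σ i : Fin 3, Fin (![a, b, c] i), (tri a b c).Adj v w ↔ v.1 ≠ w.1 :=
    fun v w => Iff.rfl
  rw [SimpleGraph.isBridge_iff] at hbr
  apply hbr
  obtain ⟨hne, hxI, hyI⟩ := hxy
  rw [hadj] at hne
  have key : ∀ v w : Σ i : Fin 3, Fin (![a, b, c] i), v.1 ≠ w.1 → v ∉ I → w ∉ I →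
      ¬ (v = x ∧ w = y) → ¬ (v = y ∧ w = x) →
      ((del (tri a b c) I).deleteEdges {s(x, y)}).Adj v w := by
    intro v w h1 h2 h3 h4 h5
    rw [SimpleGraph.deleteEdges_adj]
    refine ⟨⟨(hadj v w).2 h1, h2, h3⟩, ?_⟩
    simp only [Set.mem_singleton_iff, Sym2.eq_iff]
    tauto
  obtain ⟨k, hkx, hky⟩ := NoBr_third x.1 y.1
  by_cases hz : ∃ z : Σ i : Fin 3, Fin (![a, b, c] i), z.1 = k ∧ z ∉ I
  · obtain ⟨z, hzk, hzI⟩ := hz
    have h1 := key x z (by rw [hzk]; exact hkx.symm) hxI hzI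
      (fun h => hky (by rw [← hzk, h.2])) (fun h => hne (by rw [h.1]))
    have h2 := key z y (by rw [hzk]; exact hky) hzI hyI
      (fun h => hkx (by rw [← hzk, h.1])) (fun h => hne (by rw [← h.2]))
    exact h1.reachable.trans h2.reachable
  · push Not at hz
    obtain ⟨z, hzk⟩ := NoBr_pt ha hb hc k
    have hzI := hz z hzk
    have hnI : ∀ v : Σ i : Fin 3, Fin (![a, b, c] i), v.1 ≠ k → v ∉ I := by
      intro v hv hvI
      exact hI v hvI z hzI ((hadj v z).2 (by rw [hzk]; exact hv))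
    obtain ⟨x', hx1, hx2⟩ := NoBr_other ha hb hc x
    obtain ⟨y', hy1, hy2⟩ := NoBr_other ha hb hc y
    have hx'I := hnI x' (by rw [hx1]; exact hkx.symm)
    have hy'I := hnI y' (by rw [hy1]; exact hky.symm)
    have h1 := key x y' (by rw [hy1]; exact hne) hxI hy'I
      (fun h => hy2 h.2) (fun h => hne (by rw [h.1]))
    have h2 := key y' x' (by rw [hy1, hx1]; exact hne.symm) hy'I hx'I
      (fun h => hne (by rw [← hx1, h.2, ]))
      (fun h => hx2 h.2)
    have h3 := key x' y (by rw [hx1]; exact hne) hx'I hyI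
      (fun h => hx2 h.1) (fun h => hne (by rw [← h.2]))
    exact (h1.reachable.trans h2.reachable).trans h3.reachable

end Pool.TCF
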