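import Pool.Agent.TCF.HalfCut

/-!
MODULE RatB (difficulty 3).  Every rational number in `(1/2, 3/4]` is `(e + n) / (2 e + n)` for a bipartite graph with `e` edges and
`n` vertices which has a perfect matching.

RECIPE.  `bip_exists`: for `n ≤ e ≤ n ^ 2` choose a set `A` of `e - n` pairs `(i, j)`, `i ≠ j`, of `Fin n × Fin n` (there are `n ^ 2 - n`)
and let `(i, b)`, `(j, b')` be adjacent iff `b ≠ b'` and, with `(i', j')` = (the index with `false`, the index with `true`), `i' = j'` or
`(i', j') ∈ A`.  The number of ordered adjacent pairs is `2 (n + |A|) = 2 e` (`card_pairs`).  The perfect matching: the subgraph of the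
edges `(i, false), (i, true)`, `M.IsPerfectMatching` (`SimpleGraph.Subgraph.isPerfectMatching_iff`: each vertex has exactly one
neighbour).
`rat_exists`: let `v = p / q` with `q < 2 p`, `4 p ≤ 3 q`, `0 < q`.  `n = N (2 p - q)`, `e = 2 N (q - p)` with `N = 2 q + 1`:
`n ≤ e` as `2 p - q ≤ 2 (q - p)`; `e ≤ n ^ 2` as `2 (q - p) ≤ N ≤ N (2 p - q) ^ 2`; `q (e + 2 n) = p (2 e + 2 n)`:
`e + 2n = 2N(q - p + 2p - q) = 2 N p`, `2e + 2n = 4N(q-p) + 2N(2p - q) = 2 N q`.
-/

open Finset
open scoped Classical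

namespace Pool.TCF
open Pool.OCY Pool.OCG

theorem bip_exists {n e : ℕ} (h1 : n ≤ e) (h2 : e ≤ n ^ 2) :
    ∃ B : SimpleGraph (Fin n × Bool), (∀ u v, B.Adj u v → u.2 ≠ v.2) ∧
      (∃ M : B.Subgraph, M.IsPerfectMatching) ∧ B.edgeFinset.card = e := by
  obtain ⟨E, hE1, -, hE3⟩ := Finset.exists_subsuperset_card_eq (s := (univ : Finset (Fin n)).diag)
    (t := (univ : Finset (Fin n × Fin n))) (Finset.subset_univ _) (n := e)
    (by rw [Finset.diag_card]; simpa using h1)
    (by
      rw [Finset.card_univ, Fintype.card_prod, Fintype.card_fin]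
      calc e ≤ n ^ 2 := h2
        _ = n * n := by ring)
  have hdiag : ∀ i : Fin n, (i, i) ∈ E := fun i => hE1 (by simp)
  let B : SimpleGraph (Fin n × Bool) :=
    { Adj := fun u v => (u.2 = false ∧ v.2 = true ∧ (u.1, v.1) ∈ E) ∨ (u.2 = true ∧ v.2 = false ∧ (v.1, u.1) ∈ E)
      symm := ⟨by
        rintro u v (h | h)
        · exact Or.inr ⟨h.2.1, h.1, h.2.2⟩
        · exact Or.inl ⟨h.2.1, h.1, h.2.2⟩⟩
      loopless := ⟨by
        rintro u (h | h)
        · rw [h.1] at h; simp at h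
        · rw [h.1] at h; simp at h⟩ }
  have hB : ∀ u v, B.Adj u v ↔ (u.2 = false ∧ v.2 = true ∧ (u.1, v.1) ∈ E) ∨
      (u.2 = true ∧ v.2 = false ∧ (v.1, u.1) ∈ E) := fun u v => Iff.rfl
  refine ⟨B, ?_, ?_, ?_⟩
  · intro u v h
    rcases (hB u v).mp h with h | h
    · rw [h.1, h.2.1]; simp
    · rw [h.1, h.2.1]; simp
  · refine ⟨{ verts := Set.univ
              Adj := fun u v => u.1 = v.1 ∧ u.2 ≠ v.2
              adj_sub := ?_
              edge_vert := fun _ => Set.mem_univ _
              symm := ?_ }, ?_⟩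
    · rintro ⟨i, b⟩ ⟨j, b'⟩ ⟨h1, h2⟩
      simp only at h1 h2
      subst h1
      rw [hB]
      rcases b with _ | _ <;> rcases b' with _ | _ <;> simp_all
    · first
      | exact fun u v h => ⟨h.1.symm, h.2.symm⟩
      | exact ⟨fun u v h => ⟨h.1.symm, h.2.symm⟩⟩
    · rw [SimpleGraph.Subgraph.isPerfectMatching_iff]
      rintro ⟨i, b⟩
      refine ⟨(i, !b), ⟨rfl, by simp⟩, ?_⟩
      rintro ⟨j, b'⟩ ⟨h1, h2⟩
      simp only at h1 h2
      subst h1
      rcases b with _ | _ <;> rcases b' with _ | _ <;> simp_all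
  · have he : ∀ inst : Fintype B.edgeSet, @SimpleGraph.edgeFinset _ B inst =
        E.image (fun p => s((p.1, false), (p.2, true))) := by
      intro inst
      ext x
      induction x using Sym2.ind with
      | h u v =>
        rw [SimpleGraph.mem_edgeFinset, SimpleGraph.mem_edgeSet, hB, Finset.mem_image]
        constructor
        · rintro (h | h)
          · refine ⟨_, h.2.2, ?_⟩
            have e1 : (u.1, false) = u := by rw [← h.1]
            have e2 : (v.1, true) = v := by rw [← h.2.1]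
            simp only [e1, e2]
          · refine ⟨_, h.2.2, ?_⟩
            have e1 : (v.1, false) = v := by rw [← h.2.1]
            have e2 : (u.1, true) = u := by rw [← h.1]
            simp only [e1, e2]
            exact Sym2.eq_swap
        · rintro ⟨⟨i, j⟩, hp, h⟩
          simp only [Sym2.eq_iff] at h
          rcases h with ⟨rfl, rfl⟩ | ⟨rfl, rfl⟩
          · left; exact ⟨rfl, rfl, hp⟩
          · right; exact ⟨rfl, rfl, hp⟩
    rw [he, Finset.card_image_of_injective, hE3]
    rintro ⟨i, j⟩ ⟨i', j'⟩ h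
    simp only [Sym2.eq_iff, Prod.mk.injEq] at h
    rcases h with h | h
    · simp [h.1.1, h.2.1]
    · simp at h

theorem rat_exists {p q : ℕ} (h1 : q < 2 * p) (h2 : 4 * p ≤ 3 * q) :
    ∃ (n : ℕ) (B : SimpleGraph (Fin n × Bool)), 0 < n ∧ (∀ u v, B.Adj u v → u.2 ≠ v.2) ∧
      (∃ M : B.Subgraph, M.IsPerfectMatching) ∧
      q * (B.edgeFinset.card + 2 * n) = p * (2 * B.edgeFinset.card + 2 * n) := by
  have hpq : p ≤ q := by omega
  obtain ⟨d, rfl⟩ : ∃ d, q = p + d := ⟨q - p, by omega⟩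
  have hd : d < p := by omega
  obtain ⟨f, rfl⟩ : ∃ f, p = d + f := ⟨p - d, by omega⟩
  have hf : 0 < f := by omega
  have hfd : f ≤ 2 * d := by omega
  set N := 2 * (d + f + d) + 1 with hN
  obtain ⟨B, hB1, hB2, hB3⟩ := bip_exists (n := N * f) (e := 2 * N * d)
    (by nlinarith [Nat.mul_le_mul_left N hfd])
    (by
      have h1 : 2 * d ≤ N := by omega
      have h3 : 1 ≤ f * f := Nat.mul_pos hf hf
      calc 2 * N * d = N * (2 * d) := by ring
        _ ≤ N * N := Nat.mul_le_mul_left _ h1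
        _ ≤ N * N * (f * f) := Nat.le_mul_of_pos_right _ h3
        _ = (N * f) ^ 2 := by ring)
  refine ⟨N * f, B, Nat.mul_pos (by omega) hf, hB1, hB2, ?_⟩
  rw [hB3]
  ring

end Pool.TCF
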