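import Pool.Agent.TCF.Place3
import Pool.Agent.TCF.HalfCut

/-!
MODULE TriC (difficulty 3).  Complete tripartite graphs: the numbers of edges and the cuts.

RECIPE.  `(tri a b c).Adj v w ↔ v.1 ≠ w.1`.  Colour the parts `0, 1, 2` (of sizes `a, b, c`) by `2, 0, 1`: `ecol 0 1 = b * c`, `ecol 0 2 = b * a`,
`ecol 1 2 = c * a`; number of edges `a b + a c + b c` (`card_pairs` and `sum_ecol` with `R = 1`).
`tri_cut` (`a ≤ b`, parts of sizes `a, b, b`): for `side` let `α, β, γ` be the numbers of vertices with `side = true` in the three parts.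
The number of ordered adjacent pairs on the same side is
`2 (α β + α γ + β γ + (a-α)(b-β) + (a-α)(b-γ) + (b-β)(b-γ))`, and this is `≥ 2 a b`: put `S = β + γ`; then
`β γ + (b-β)(b-γ) = b (b - S) + 2 β γ ≥ b (b - S)`; if `S ≤ b` the sum is
`≥ α S + (a-α)(2b - S) + b (b - S) = a (2b - S) - 2 α (b - S) + b (b - S) ≥ a (2b - S) - 2 a (b - S) + b (b - S)
= a S + b (b - S) ≥ a b`; the case `S ≥ b` is the same after exchanging the two sides (or directly with real numbers and `nlinarith`).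
So the number of ordered cut pairs is `≤ 2 (2 a b + b ^ 2) - 2 a b = 2 b (a + b)`.
`tri_bow`: `u = ⟨0, 0⟩`, `v = ⟨1, 0⟩`, `b w = 2` for `w = u`; `4` for `w = v`; `1` for the others in part `1`; `0` in part `2`.
-/

open Finset
open scoped Classical

namespace Pool.TCF
open Pool.OCY Pool.OCG

private theorem TriC_adj {a b c : ℕ} (v w : Σ i : Fin 3, Fin (![a, b, c] i)) :
    (tri a b c).Adj v w ↔ v.1 ≠ w.1 := by
  unfold tri
  rw [SimpleGraph.completeMultipartiteGraph]
  simp

/-- the number of vertices of part `i` satisfying `P` -/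
private noncomputable def TriC_n {a b c : ℕ} (P : (Σ i : Fin 3, Fin (![a, b, c] i)) → Prop)
    (i : Fin 3) : ℕ :=
  (univ.filter fun w : (Σ i : Fin 3, Fin (![a, b, c] i)) => w.1 = i ∧ P w).card

private theorem TriC_n_true {a b c : ℕ} (i : Fin 3) :
    TriC_n (a := a) (b := b) (c := c) (fun _ => True) i = ![a, b, c] i := by
  unfold TriC_n
  rw [Finset.card_filter, Fintype.sum_sigma, Fin.sum_univ_three]
  fin_cases i
  · simp only [and_true]
    simp
    exact Fintype.card_fin a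
  · simp only [and_true]
    simp
    exact Fintype.card_fin b
  · simp only [and_true]
    simp
    exact Fintype.card_fin c

private theorem TriC_split {a b c : ℕ} (P : (Σ i : Fin 3, Fin (![a, b, c] i)) → Prop)
    (i : Fin 3) : TriC_n P i + TriC_n (fun w => ¬ P w) i = ![a, b, c] i := by
  rw [← TriC_n_true (a := a) (b := b) (c := c) i]
  unfold TriC_n
  rw [Finset.card_filter, Finset.card_filter, Finset.card_filter, ← Finset.sum_add_distrib]
  apply Finset.sum_congr rfl
  intro w _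
  by_cases h1 : w.1 = i <;> by_cases h2 : P w <;> simp [h1, h2]

private theorem TriC_pair {a b c : ℕ} (P Q : (Σ i : Fin 3, Fin (![a, b, c] i)) → Prop)
    (i j : Fin 3) (hij : i ≠ j) :
    (univ.filter fun x : (Σ i : Fin 3, Fin (![a, b, c] i)) × (Σ i : Fin 3, Fin (![a, b, c] i)) =>
      (tri a b c).Adj x.1 x.2 ∧ (x.1.1 = i ∧ P x.1) ∧ (x.2.1 = j ∧ Q x.2)).card
      = TriC_n P i * TriC_n Q j := by
  unfold TriC_n
  rw [← Finset.card_product]
  congr 1
  ext x
  simp only [mem_product, mem_filter, mem_univ, true_and, TriC_adj]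
  constructor
  · rintro ⟨-, h⟩; exact h
  · intro h
    refine ⟨?_, h⟩
    rw [h.1.1, h.2.1]; exact hij

private theorem TriC_total {a b c : ℕ} (P Q : (Σ i : Fin 3, Fin (![a, b, c] i)) → Prop) :
    (univ.filter fun x : (Σ i : Fin 3, Fin (![a, b, c] i)) × (Σ i : Fin 3, Fin (![a, b, c] i)) =>
      (tri a b c).Adj x.1 x.2 ∧ P x.1 ∧ Q x.2).card
      = TriC_n P 0 * TriC_n Q 1 + TriC_n P 1 * TriC_n Q 0 + (TriC_n P 0 * TriC_n Q 2 +
        TriC_n P 2 * TriC_n Q 0) + (TriC_n P 1 * TriC_n Q 2 + TriC_n P 2 * TriC_n Q 1) := by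
  have key : ∀ x : (Σ i : Fin 3, Fin (![a, b, c] i)) × (Σ i : Fin 3, Fin (![a, b, c] i)),
      (if (tri a b c).Adj x.1 x.2 ∧ P x.1 ∧ Q x.2 then 1 else 0) =
      ∑ i : Fin 3, ∑ j : Fin 3, if i = j then 0 else
        (if (tri a b c).Adj x.1 x.2 ∧ (x.1.1 = i ∧ P x.1) ∧ (x.2.1 = j ∧ Q x.2) then 1 else 0) := by
    intro x
    by_cases h : (tri a b c).Adj x.1 x.2 ∧ P x.1 ∧ Q x.2
    · rw [if_pos h]
      have hne : x.1.1 ≠ x.2.1 := (TriC_adj _ _).1 h.1
      rw [Finset.sum_eq_single x.1.1, Finset.sum_eq_single x.2.1]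
      · rw [if_neg hne, if_pos ⟨h.1, ⟨rfl, h.2.1⟩, ⟨rfl, h.2.2⟩⟩]
      · intro j _ hj
        by_cases hij : x.1.1 = j
        · rw [if_pos hij]
        · rw [if_neg hij, if_neg (fun h' => hj h'.2.2.1.symm)]
      · intro h'; exact absurd (mem_univ _) h'
      · intro i _ hi
        apply Finset.sum_eq_zero
        intro j _
        by_cases hij : i = j
        · rw [if_pos hij]
        · rw [if_neg hij, if_neg (fun h' => hi h'.2.1.1.symm)]
      · intro h'; exact absurd (mem_univ _) h'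
    · rw [if_neg h]
      symm
      apply Finset.sum_eq_zero
      intro i _
      apply Finset.sum_eq_zero
      intro j _
      by_cases hij : i = j
      · rw [if_pos hij]
      · rw [if_neg hij, if_neg (fun h' => h ⟨h'.1, h'.2.1.2, h'.2.2.2⟩)]
  rw [Finset.card_filter, Finset.sum_congr rfl (fun x _ => key x), Finset.sum_comm]
  have inner : ∀ i j : Fin 3, i ≠ j → ∑ x : (Σ i : Fin 3, Fin (![a, b, c] i)) ×
      (Σ i : Fin 3, Fin (![a, b, c] i)), (if i = j then 0 else
        (if (tri a b c).Adj x.1 x.2 ∧ (x.1.1 = i ∧ P x.1) ∧ (x.2.1 = j ∧ Q x.2) then 1 else 0))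
        = TriC_n P i * TriC_n Q j := by
    intro i j hij
    rw [← TriC_pair P Q i j hij, Finset.card_filter]
    apply Finset.sum_congr rfl
    intro x _
    rw [if_neg hij]
  have inner0 : ∀ i : Fin 3, ∑ x : (Σ i : Fin 3, Fin (![a, b, c] i)) ×
      (Σ i : Fin 3, Fin (![a, b, c] i)), (if i = i then 0 else
        (if (tri a b c).Adj x.1 x.2 ∧ (x.1.1 = i ∧ P x.1) ∧ (x.2.1 = i ∧ Q x.2) then 1 else 0))
        = 0 := by
    intro i
    apply Finset.sum_eq_zero
    intro x _
    rw [if_pos rfl]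
  have sw : ∀ i : Fin 3, ∑ x : (Σ i : Fin 3, Fin (![a, b, c] i)) ×
      (Σ i : Fin 3, Fin (![a, b, c] i)), ∑ j : Fin 3, (if i = j then 0 else
        (if (tri a b c).Adj x.1 x.2 ∧ (x.1.1 = i ∧ P x.1) ∧ (x.2.1 = j ∧ Q x.2) then 1 else 0))
      = ∑ j : Fin 3, ∑ x : (Σ i : Fin 3, Fin (![a, b, c] i)) ×
      (Σ i : Fin 3, Fin (![a, b, c] i)), (if i = j then 0 else
        (if (tri a b c).Adj x.1 x.2 ∧ (x.1.1 = i ∧ P x.1) ∧ (x.2.1 = j ∧ Q x.2) then 1 else 0)) :=
    fun i => Finset.sum_comm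
  rw [Finset.sum_congr rfl (fun i _ => sw i)]
  rw [Fin.sum_univ_three, Fin.sum_univ_three, Fin.sum_univ_three, Fin.sum_univ_three,
    inner0 0, inner0 1, inner0 2, inner 0 1 (by decide), inner 0 2 (by decide),
    inner 1 0 (by decide), inner 1 2 (by decide), inner 2 0 (by decide), inner 2 1 (by decide)]
  ring

theorem tri_col (a b c : ℕ) :
    ∃ f : (Σ i : Fin 3, Fin (![a, b, c] i)) → Fin 3, Prop3 (tri a b c) f ∧
      ecol (tri a b c) f 0 1 = b * c ∧ ecol (tri a b c) f 0 2 = a * b ∧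
      ecol (tri a b c) f 1 2 = a * c := by
  have hinj : ∀ x y : Fin 3, (![2, 0, 1] : Fin 3 → Fin 3) x = ![2, 0, 1] y → x = y := by decide
  have h0 : ∀ x : Fin 3, (![2, 0, 1] : Fin 3 → Fin 3) x = 0 ↔ x = 1 := by decide
  have h1 : ∀ x : Fin 3, (![2, 0, 1] : Fin 3 → Fin 3) x = 1 ↔ x = 2 := by decide
  have h2 : ∀ x : Fin 3, (![2, 0, 1] : Fin 3 → Fin 3) x = 2 ↔ x = 0 := by decide
  have cnt : ∀ i j : Fin 3, i ≠ j →
      (univ.filter fun x : (Σ i : Fin 3, Fin (![a, b, c] i)) × (Σ i : Fin 3, Fin (![a, b, c] i)) =>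
      (tri a b c).Adj x.1 x.2 ∧ x.1.1 = i ∧ x.2.1 = j).card = ![a, b, c] i * ![a, b, c] j := by
    intro i j hij
    have := TriC_pair (a := a) (b := b) (c := c) (fun _ => True) (fun _ => True) i j hij
    rw [TriC_n_true, TriC_n_true] at this
    rw [← this]
    congr 1
    ext x
    simp only [mem_filter, mem_univ, true_and, and_true]
  refine ⟨fun w => ![2, 0, 1] w.1, ?_, ?_, ?_, ?_⟩
  · intro i j hij h
    exact (TriC_adj _ _).1 hij (hinj _ _ h)
  · unfold ecol
    simp only [h0, h1]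
    rw [cnt 1 2 (by decide)]
    rfl
  · unfold ecol
    simp only [h0, h2]
    rw [cnt 1 0 (by decide)]
    exact mul_comm b a
  · unfold ecol
    simp only [h1, h2]
    rw [cnt 2 0 (by decide)]
    exact mul_comm c a

theorem tri_edges (a b c : ℕ) : (tri a b c).edgeFinset.card = a * b + a * c + b * c := by
  have h := card_pairs (tri a b c)
  have h2 := TriC_total (a := a) (b := b) (c := c) (fun _ => True) (fun _ => True)
  simp only [and_true] at h2
  rw [h2] at h
  simp only [TriC_n_true] at h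
  have e0 : (![a, b, c] : Fin 3 → ℕ) 0 = a := rfl
  have e1 : (![a, b, c] : Fin 3 → ℕ) 1 = b := rfl
  have e2 : (![a, b, c] : Fin 3 → ℕ) 2 = c := rfl
  rw [e0, e1, e2] at h
  nlinarith

theorem tri_cut {a b : ℕ} (h : a ≤ b) : CutLe (tri a b b) (b * (a + b)) := by
  intro side
  have t1 := TriC_total (a := a) (b := b) (c := b) (fun w => side w = true)
    (fun w => ¬ side w = true)
  have t2 := TriC_total (a := a) (b := b) (c := b) (fun w => ¬ side w = true)
    (fun w => side w = true)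
  rw [Finset.card_filter] at t1 t2
  rw [Finset.card_filter]
  have hc : (∑ x : (Σ i : Fin 3, Fin (![a, b, b] i)) × (Σ i : Fin 3, Fin (![a, b, b] i)),
      if (tri a b b).Adj x.1 x.2 ∧ side x.1 ≠ side x.2 then 1 else 0) = _ + _ :=
    (Eq.trans (by
      rw [← Finset.sum_add_distrib]
      apply Finset.sum_congr rfl
      intro x _
      by_cases h1 : (tri a b b).Adj x.1 x.2 <;> cases h2 : side x.1 <;> cases h3 : side x.2 <;>
        simp [h1, h2, h3]) (congrArg₂ (· + ·) t1 t2))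
  rw [hc]
  have s0 := TriC_split (a := a) (b := b) (c := b) (fun w => side w = true) 0
  have s1 := TriC_split (a := a) (b := b) (c := b) (fun w => side w = true) 1
  have s2 := TriC_split (a := a) (b := b) (c := b) (fun w => side w = true) 2
  have e0 : (![a, b, b] : Fin 3 → ℕ) 0 = a := rfl
  have e1 : (![a, b, b] : Fin 3 → ℕ) 1 = b := rfl
  have e2 : (![a, b, b] : Fin 3 → ℕ) 2 = b := rfl
  rw [e0] at s0
  rw [e1] at s1
  rw [e2] at s2
  generalize TriC_n (a := a) (b := b) (c := b) (fun w => side w = true) 0 = α at *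
  generalize TriC_n (a := a) (b := b) (c := b) (fun w => side w = true) 1 = β at *
  generalize TriC_n (a := a) (b := b) (c := b) (fun w => side w = true) 2 = γ at *
  generalize TriC_n (a := a) (b := b) (c := b) (fun w => ¬ side w = true) 0 = α' at *
  generalize TriC_n (a := a) (b := b) (c := b) (fun w => ¬ side w = true) 1 = β' at *
  generalize TriC_n (a := a) (b := b) (c := b) (fun w => ¬ side w = true) 2 = γ' at *
  zify at h s0 s1 s2 ⊢
  have pα : (0 : ℤ) ≤ α := Int.natCast_nonneg _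
  have pβ : (0 : ℤ) ≤ β := Int.natCast_nonneg _
  have pγ : (0 : ℤ) ≤ γ := Int.natCast_nonneg _
  have pα' : (0 : ℤ) ≤ α' := Int.natCast_nonneg _
  have pβ' : (0 : ℤ) ≤ β' := Int.natCast_nonneg _
  have pγ' : (0 : ℤ) ≤ γ' := Int.natCast_nonneg _
  have hba : (0 : ℤ) ≤ (b : ℤ) - a := by linarith
  have ha' : (a : ℤ) = α + α' := s0.symm
  have hβ' : (β' : ℤ) = b - β := by linarith
  have hγ' : (γ' : ℤ) = b - γ := by linarith
  have hα' : (α' : ℤ) = a - α := by linarith
  rcases le_total ((β : ℤ) + γ) b with hS | hS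
  · have h1 : 0 ≤ ((b : ℤ) - (β + γ)) * (((b : ℤ) - a) + 2 * α') :=
      mul_nonneg (by linarith) (by linarith)
    have h2 : (0 : ℤ) ≤ β * γ := mul_nonneg pβ pγ
    rw [hα'] at h1
    rw [hα', hβ', hγ']
    nlinarith
  · have h1 : 0 ≤ (((β : ℤ) + γ) - b) * (((b : ℤ) - a) + 2 * α) :=
      mul_nonneg (by linarith) (by linarith)
    have h2 : (0 : ℤ) ≤ β' * γ' := mul_nonneg pβ' pγ'
    rw [hβ', hγ'] at h2
    rw [hα', hβ', hγ']
    nlinarith

theorem tri_bow {b : ℕ} (hb : 1 ≤ b) : Bow (tri 1 b b) := by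
  set u : (Σ i : Fin 3, Fin (![1, b, b] i)) := ⟨0, (0 : Fin 1)⟩ with hu
  set v : (Σ i : Fin 3, Fin (![1, b, b] i)) := ⟨1, (⟨0, hb⟩ : Fin b)⟩ with hv
  have hu0 : ∀ w : (Σ i : Fin 3, Fin (![1, b, b] i)), w.1 = 0 → w = u := by
    rintro ⟨i, x⟩ hi
    change i = 0 at hi
    subst hi
    have : x = (0 : Fin 1) := Subsingleton.elim (α := Fin 1) x 0
    rw [this]
  have h3 : ∀ i : Fin 3, i = 0 ∨ i = 1 ∨ i = 2 := by decide
  set f : (Σ i : Fin 3, Fin (![1, b, b] i)) → Fin 5 := fun w =>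
    if w.1 = 0 then 2 else if w.1 = 2 then 0 else if w = v then 4 else 1 with hf
  have f0 : ∀ w, w.1 = 0 → f w = 2 := fun w hw => by simp only [hf]; rw [if_pos hw]
  have f2 : ∀ w, w.1 = 2 → f w = 0 := fun w hw => by
    simp only [hf]; rw [if_neg (by rw [hw]; decide), if_pos hw]
  have fv : f v = 4 := by
    change (if (1 : Fin 3) = 0 then (2 : Fin 5) else if (1 : Fin 3) = 2 then 0 else
      if v = v then 4 else 1) = 4
    rw [if_neg (by decide), if_neg (by decide), if_pos rfl]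
  have f1 : ∀ w, w.1 = 1 → w ≠ v → f w = 1 := fun w hw hwv => by
    simp only [hf]; rw [if_neg (by rw [hw]; decide), if_neg (by rw [hw]; decide), if_neg hwv]
  refine ⟨u, v, f, (TriC_adj _ _).2 (by change (0 : Fin 3) ≠ 1; decide), f0 u rfl, fv, ?_⟩
  intro i j hij h1 h2
  have hne : i.1 ≠ j.1 := (TriC_adj _ _).1 hij
  rcases h3 i.1 with hi | hi | hi <;> rcases h3 j.1 with hj | hj | hj
  · exact absurd (hi.trans hj.symm) hne
  · have hjv : j ≠ v := fun hjv => h1 ⟨hu0 i hi, hjv⟩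
    rw [f0 i hi, f1 j hj hjv]; unfold BowR; decide
  · rw [f0 i hi, f2 j hj]; unfold BowR; decide
  · have hiv : i ≠ v := fun hiv => h2 ⟨hiv, hu0 j hj⟩
    rw [f0 j hj, f1 i hi hiv]; unfold BowR; decide
  · exact absurd (hi.trans hj.symm) hne
  · rw [f2 j hj]
    by_cases hiv : i = v
    · rw [hiv, fv]; unfold BowR; decide
    · rw [f1 i hi hiv]; unfold BowR; decide
  · rw [f2 i hi, f0 j hj]; unfold BowR; decide
  · rw [f2 i hi]
    by_cases hjv : j = v
    · rw [hjv, fv]; unfold BowR; decide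
    · rw [f1 j hj hjv]; unfold BowR; decide
  · exact absurd (hi.trans hj.symm) hne

end Pool.TCF
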