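import Pool.Agent.TCF.Main3
import Pool.Agent.TCF.Low1
import Pool.Agent.TCF.Low2
import Pool.Agent.TCF.BowOf
import Pool.Agent.TCF.HomCyc
import Pool.Agent.TCF.Cone
import Pool.Agent.TCF.RatB
import Pool.Agent.TCF.TriC
import Pool.Agent.TCF.NoBr
import Pool.Agent.OCY.FarkasF

/-!
Assembly: the upper bound in its primal form and the arithmetic of the thresholds.
-/

open Finset
open scoped Classical

namespace Pool.TCF
open Pool.OCY Pool.OCG Pool.H34.Dec

/-- every large graph of minimum degree `≥ (δ + ε) n` has a fractional `F`-decomposition -/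
def Up {W : Type} [Fintype W] (F : SimpleGraph W) (δ : ℝ) : Prop :=
  ∀ ε : ℝ, 0 < ε → ∃ n₀ : ℕ, ∀ (V : Type) [Fintype V] (G : SimpleGraph V), n₀ ≤ Fintype.card V →
    (∀ v, (δ + ε) * Fintype.card V ≤ G.degree v) → ∃ w, IsFracDecomp F G w

theorem Up.mono {W : Type} [Fintype W] {F : SimpleGraph W} {δ δ' : ℝ} (h : Up F δ) (hδ : δ ≤ δ') :
    Up F δ' := by
  intro ε hε
  obtain ⟨n₀, hn⟩ := h ε hε
  refine ⟨n₀, fun V _ G hV hG => hn V G hV fun v => (le_trans ?_ (hG v))⟩
  exact mul_le_mul_of_nonneg_right (by linarith) (Nat.cast_nonneg _)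

/-- closedness from above -/
theorem Up.lim {W : Type} [Fintype W] {F : SimpleGraph W} {δ : ℝ}
    (h : ∀ δ' > δ, Up F δ') : Up F δ := by
  intro ε hε
  obtain ⟨n₀, hn⟩ := h (δ + ε / 2) (by linarith) (ε / 2) (by linarith)
  refine ⟨n₀, fun V _ G hV hG => hn V G hV fun v => (le_trans (le_of_eq ?_) (hG v))⟩
  ring

theorem up_T {W : Type} [Fintype W] {F : SimpleGraph W} (hF : F ≠ ⊥) {c : W → Fin 3}
    (hc : Prop3 F c) {T : ℝ} (hT : TCond F c T) (hB : T ≤ 3 ∨ Bow F) :
    Up F (1 / 2 + 1 / (2 * T)) := by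
  intro ε hε
  obtain ⟨n₀, hn₀⟩ := main3 hF hc hT hB hε
  refine ⟨n₀, fun V _ G hn hG => ?_⟩
  exact farkasF F hF G fun r hs hr => hn₀ V hn G hG r hs hr

theorem ecount {W : Type} [Fintype W] {F : SimpleGraph W} {c : W → Fin 3} (hc : Prop3 F c) :
    F.edgeFinset.card = ecol F c 0 1 + ecol F c 0 2 + ecol F c 1 2 := by
  have h1 := sum_ecol hc (fun _ _ => (1 : ℝ)) (fun _ _ => rfl)
  have h2 := card_pairs F
  have h3 : ∑ i, ∑ j, (if F.Adj i j then (1 : ℝ) else 0) =
      ((univ.filter fun x : W × W => F.Adj x.1 x.2).card : ℝ) := by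
    rw [← Fintype.sum_prod_type' (f := fun i j => (if F.Adj i j then (1 : ℝ) else 0)),
      Finset.sum_boole]
  rw [h3, h2] at h1
  have h4 : ((2 * F.edgeFinset.card : ℕ) : ℝ) =
      ((2 * (ecol F c 0 1 + ecol F c 0 2 + ecol F c 1 2) : ℕ) : ℝ) := by
    rw [h1]; push_cast; ring
  have h5 : 2 * F.edgeFinset.card = 2 * (ecol F c 0 1 + ecol F c 0 2 + ecol F c 1 2) := by
    exact_mod_cast h4
  omega

theorem edge_pos {W : Type} [Fintype W] {F : SimpleGraph W} (hF : F ≠ ⊥) :
    0 < F.edgeFinset.card := by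
  rw [Finset.card_pos]
  obtain ⟨i, j, hij⟩ : ∃ i j, F.Adj i j := by
    by_contra hcon
    push Not at hcon
    apply hF
    ext a b
    simp [hcon a b]
  exact ⟨s(i, j), by rw [SimpleGraph.mem_edgeFinset]; exact hij⟩

theorem ecol_perm {W : Type} [Fintype W] (F : SimpleGraph W) (c : W → Fin 3)
    (σ : Equiv.Perm (Fin 3)) (s s' : Fin 3) :
    ecol F (fun w => σ (c w)) (σ s) (σ s') = ecol F c s s' := by
  unfold ecol
  congr 1
  ext x
  simp only [mem_filter, mem_univ, true_and, EmbeddingLike.apply_eq_iff_eq]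

/-- permuting the colours so that the colours `0` and `1` have the most edges -/
theorem exists_max {W : Type} [Fintype W] {F : SimpleGraph W} {c : W → Fin 3} (hc : Prop3 F c) :
    ∃ c' : W → Fin 3, Prop3 F c' ∧ ecol F c 0 1 ≤ ecol F c' 0 1 ∧
      ecol F c' 0 2 + ecol F c' 1 2 ≤ 2 * ecol F c' 0 1 := by
  have hp : ∀ σ : Equiv.Perm (Fin 3), Prop3 F (fun w => σ (c w)) := fun σ i j hij h =>
    hc i j hij (σ.injective h)
  set x := ecol F c 0 1 with hx
  set y := ecol F c 0 2 with hy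
  set z := ecol F c 1 2 with hz
  by_cases h1 : y ≤ x ∧ z ≤ x
  · exact ⟨c, hc, le_rfl, by omega⟩
  · by_cases h2 : z ≤ y
    · -- the colours 0 and 2
      refine ⟨fun w => (Equiv.swap (1 : Fin 3) 2) (c w), hp _, ?_, ?_⟩
      · have e := ecol_perm F c (Equiv.swap (1 : Fin 3) 2) 0 2
        rw [show (Equiv.swap (1 : Fin 3) 2) 0 = 0 by decide,
          show (Equiv.swap (1 : Fin 3) 2) 2 = 1 by decide] at e
        rw [e]
        omega
      · have e := ecol_perm F c (Equiv.swap (1 : Fin 3) 2) 0 2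
        rw [show (Equiv.swap (1 : Fin 3) 2) 0 = 0 by decide,
          show (Equiv.swap (1 : Fin 3) 2) 2 = 1 by decide] at e
        have e2 := ecol_perm F c (Equiv.swap (1 : Fin 3) 2) 0 1
        rw [show (Equiv.swap (1 : Fin 3) 2) 0 = 0 by decide,
          show (Equiv.swap (1 : Fin 3) 2) 1 = 2 by decide] at e2
        have e3 := ecol_perm F c (Equiv.swap (1 : Fin 3) 2) 2 1
        rw [show (Equiv.swap (1 : Fin 3) 2) 2 = 1 by decide,
          show (Equiv.swap (1 : Fin 3) 2) 1 = 2 by decide, ecol_comm F c 2 1] at e3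
        rw [e, e2, e3]
        omega
    · -- the colours 1 and 2
      refine ⟨fun w => (Equiv.swap (0 : Fin 3) 2) (c w), hp _, ?_, ?_⟩
      · have e := ecol_perm F c (Equiv.swap (0 : Fin 3) 2) 2 1
        rw [show (Equiv.swap (0 : Fin 3) 2) 2 = 0 by decide,
          show (Equiv.swap (0 : Fin 3) 2) 1 = 1 by decide, ecol_comm F c 2 1] at e
        rw [e]
        omega
      · have e := ecol_perm F c (Equiv.swap (0 : Fin 3) 2) 2 1
        rw [show (Equiv.swap (0 : Fin 3) 2) 2 = 0 by decide,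
          show (Equiv.swap (0 : Fin 3) 2) 1 = 1 by decide, ecol_comm F c 2 1] at e
        have e2 := ecol_perm F c (Equiv.swap (0 : Fin 3) 2) 2 0
        rw [show (Equiv.swap (0 : Fin 3) 2) 2 = 0 by decide,
          show (Equiv.swap (0 : Fin 3) 2) 0 = 2 by decide, ecol_comm F c 2 0] at e2
        have e3 := ecol_perm F c (Equiv.swap (0 : Fin 3) 2) 1 0
        rw [show (Equiv.swap (0 : Fin 3) 2) 1 = 1 by decide,
          show (Equiv.swap (0 : Fin 3) 2) 0 = 2 by decide, ecol_comm F c 1 0] at e3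
        rw [e, e2, e3]
        omega

/-- the value `e / (e + x)` -/
noncomputable def eRatio {W : Type} [Fintype W] (F : SimpleGraph W) (c : W → Fin 3) : ℝ :=
  (F.edgeFinset.card : ℝ) / (F.edgeFinset.card + ecol F c 0 1)

theorem eRatio_anti {W : Type} [Fintype W] {F : SimpleGraph W} (hF : F ≠ ⊥) {c c' : W → Fin 3}
    (h : ecol F c 0 1 ≤ ecol F c' 0 1) : eRatio F c' ≤ eRatio F c := by
  unfold eRatio
  have h1 : (0 : ℝ) < F.edgeFinset.card := by exact_mod_cast edge_pos hF
  have h2 : (ecol F c 0 1 : ℝ) ≤ ecol F c' 0 1 := by exact_mod_cast h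
  apply div_le_div_of_nonneg_left h1.le (by positivity) (by linarith)

/-- upper bound with `T = (e + x) / (e - x)`, or any `T` if `e = x` -/
theorem up_val {W : Type} [Fintype W] {F : SimpleGraph W} (hF : F ≠ ⊥) {c : W → Fin 3}
    (hc : Prop3 F c) (hB : Bow F) : Up F (eRatio F c) := by
  obtain ⟨c', hc', h1, h2⟩ := exists_max hc
  refine Up.mono ?_ (eRatio_anti hF h1)
  have he := ecount hc'
  have hep := edge_pos hF
  set x := ecol F c' 0 1 with hx
  set y := ecol F c' 0 2 with hy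
  set z := ecol F c' 1 2 with hz
  have hval : eRatio F c' = ((x : ℝ) + y + z) / (2 * x + (y + z)) := by
    unfold eRatio
    rw [he, ← hx]
    push_cast
    congr 1
    ring
  have hpos : (0 : ℝ) < (x : ℝ) + y + z := by
    have : 0 < x + y + z := by rw [← he]; exact hep
    exact_mod_cast this
  have hx0 : (0 : ℝ) ≤ x := Nat.cast_nonneg _
  have hy0 : (0 : ℝ) ≤ y := Nat.cast_nonneg _
  have hz0 : (0 : ℝ) ≤ z := Nat.cast_nonneg _
  have h2' : (y : ℝ) + z ≤ 2 * x := by exact_mod_cast h2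
  rcases Nat.eq_zero_or_pos (y + z) with h0 | h0
  · -- e = x
    have hyz : (y : ℝ) + z = 0 := by exact_mod_cast h0
    have hv : eRatio F c' = 1 / 2 := by
      rw [hval, hyz, show (x : ℝ) + y + z = x by linarith]
      have : (0 : ℝ) < x := by linarith
      field_simp
      ring
    rw [hv]
    apply Up.lim
    intro δ' hδ'
    obtain ⟨T, hT2, hTδ⟩ : ∃ T : ℝ, 2 ≤ T ∧ 1 / (2 * T) ≤ δ' - 1 / 2 := by
      refine ⟨max 2 (1 / (2 * (δ' - 1 / 2))), le_max_left _ _, ?_⟩
      have h3 : 0 < δ' - 1 / 2 := by linarith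
      have h4 := le_max_right 2 (1 / (2 * (δ' - 1 / 2)))
      have h5 : (0 : ℝ) < max 2 (1 / (2 * (δ' - 1 / 2))) := lt_of_lt_of_le (by norm_num) (le_max_left _ _)
      rw [div_le_iff₀ (by positivity)] at h4 ⊢
      linarith
    refine Up.mono (up_T hF hc' (T := T) ⟨hT2, ?_⟩ (Or.inr hB)) (by linarith)
    rw [← hx, ← hy, ← hz, hyz]
    linarith
  · have hyz : (0 : ℝ) < (y : ℝ) + z := by exact_mod_cast h0
    have hT : TCond F c' ((2 * x + (y + z)) / (y + z)) := by
      constructor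
      · rw [le_div_iff₀ hyz]; linarith
      · rw [← hx, ← hy, ← hz]
        have : ((2 * (x : ℝ) + (y + z)) / (y + z) - 1) * ((y : ℝ) + z) = 2 * x := by
          field_simp
          ring
        rw [this]
    refine Up.mono (up_T hF hc' hT (Or.inr hB)) (le_of_eq ?_)
    rw [hval]
    have h3 : (0 : ℝ) < 2 * x + (y + z) := by linarith
    field_simp
    ring

theorem up_max {W : Type} [Fintype W] {F : SimpleGraph W} (hF : F ≠ ⊥) {c : W → Fin 3}
    (hc : Prop3 F c) : Up F (max (2 / 3) (eRatio F c)) := by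
  obtain ⟨c', hc', h1, h2⟩ := exists_max hc
  refine Up.mono ?_ (max_le_max le_rfl (eRatio_anti hF h1))
  have he := ecount hc'
  have hep := edge_pos hF
  set x := ecol F c' 0 1 with hx
  set y := ecol F c' 0 2 with hy
  set z := ecol F c' 1 2 with hz
  have hval : eRatio F c' = ((x : ℝ) + y + z) / (2 * x + (y + z)) := by
    unfold eRatio
    rw [he, ← hx]
    push_cast
    congr 1
    ring
  have hpos : (0 : ℝ) < (x : ℝ) + y + z := by
    have : 0 < x + y + z := by rw [← he]; exact hep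
    exact_mod_cast this
  have hx0 : (0 : ℝ) ≤ x := Nat.cast_nonneg _
  have hy0 : (0 : ℝ) ≤ y := Nat.cast_nonneg _
  have hz0 : (0 : ℝ) ≤ z := Nat.cast_nonneg _
  have h2' : (y : ℝ) + z ≤ 2 * x := by exact_mod_cast h2
  have h3 : (0 : ℝ) < 2 * x + (y + z) := by linarith
  by_cases h4 : (y : ℝ) + z ≤ x
  · -- `T = 3`
    have hT : TCond F c' 3 := ⟨by norm_num, by rw [← hx, ← hy, ← hz]; linarith⟩
    refine Up.mono (up_T hF hc' hT (Or.inl le_rfl)) ?_
    refine le_trans (le_of_eq ?_) (le_max_left _ _)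
    norm_num
  · push Not at h4
    have hyz : (0 : ℝ) < (y : ℝ) + z := by linarith
    have hT : TCond F c' ((2 * x + (y + z)) / (y + z)) := by
      constructor
      · rw [le_div_iff₀ hyz]; linarith
      · rw [← hx, ← hy, ← hz]
        have : ((2 * (x : ℝ) + (y + z)) / (y + z) - 1) * ((y : ℝ) + z) = 2 * x := by
          field_simp
          ring
        rw [this]
    have hT3 : (2 * (x : ℝ) + (y + z)) / (y + z) ≤ 3 := by
      rw [div_le_iff₀ hyz]; linarith
    refine Up.mono (up_T hF hc' hT (Or.inl hT3)) (le_trans (le_of_eq ?_) (le_max_right _ _))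
    rw [hval]
    field_simp
    ring

theorem up_cyc {W : Type} [Fintype W] {F : SimpleGraph W} (hF : F ≠ ⊥) {k : ℕ} (hk : 1 ≤ k)
    {c : W → Fin (2 * k + 1)} (hc : Col F (2 * k) c) : Up F (1 / 2 + 1 / (4 * k)) := by
  obtain ⟨c', hc', h⟩ := homcyc_col hk hc
  have hkr : (1 : ℝ) ≤ k := by exact_mod_cast hk
  have hT : TCond F c' (2 * k) := by
    refine ⟨by linarith, ?_⟩
    have h1 : (((2 * k - 1) * (ecol F c' 0 2 + ecol F c' 1 2) : ℕ) : ℝ) ≤
        ((2 * ecol F c' 0 1 : ℕ) : ℝ) := by exact_mod_cast h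
    rw [Nat.cast_mul, Nat.cast_sub (by omega)] at h1
    push_cast at h1
    exact h1
  refine Up.mono (up_T hF hc' hT ?_) (le_of_eq ?_)
  · rcases Nat.lt_or_ge k 2 with h2 | h2
    · left
      have : k = 1 := by omega
      rw [this]; norm_num
    · right
      exact homcyc_bow hF h2 hc
  · congr 2
    ring

end Pool.TCF
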