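import Pool.Agent.TCF.Defs

/-!
MODULE Blow (difficulty 2).  Blow-ups.

RECIPE.  `blow R q`: every vertex of `R` is replaced by `q` independent vertices.  The neighbours of `(i, p)` are the `(j, p')`
with `R.Adj i j`: `q * R.degree i` of them.  Twice the number of edges is the sum of the degrees
(`SimpleGraph.sum_degrees_eq_twice_card_edges`): `q * q * 2 * R.edgeFinset.card`.  The last sum: exchange, every pair `(i, j)` is
counted `q * q` times.
-/

open Finset
open scoped Classical

namespace Pool.TCF
open Pool.OCY Pool.OCG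

/-- the blow-up of `R` -/
def blow {ι : Type*} (R : SimpleGraph ι) (q : ℕ) : SimpleGraph (ι × Fin q) := R.comap Prod.fst

theorem blow_degree {ι : Type*} [Fintype ι] (R : SimpleGraph ι) (q : ℕ) (x : ι × Fin q) :
    (blow R q).degree x = q * R.degree x.1 := by
  have h : (blow R q).neighborFinset x = (R.neighborFinset x.1) ×ˢ (univ : Finset (Fin q)) := by
    ext y
    simp [blow, SimpleGraph.mem_neighborFinset]
  rw [← SimpleGraph.card_neighborFinset_eq_degree, h, card_product, card_univ, Fintype.card_fin,
    SimpleGraph.card_neighborFinset_eq_degree, mul_comm]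

theorem blow_edges {ι : Type*} [Fintype ι] (R : SimpleGraph ι) (q : ℕ) :
    (blow R q).edgeFinset.card = q * q * R.edgeFinset.card := by
  have h1 := (blow R q).sum_degrees_eq_twice_card_edges
  have h2 := R.sum_degrees_eq_twice_card_edges
  have h0 : ∑ x : ι × Fin q, (blow R q).degree x = ∑ i : ι, ∑ _j : Fin q, q * R.degree i := by
    rw [Fintype.sum_prod_type]
    exact sum_congr rfl fun i _ => sum_congr rfl fun j _ => blow_degree R q (i, j)
  rw [h0] at h1
  simp only [sum_const, card_univ, Fintype.card_fin, smul_eq_mul] at h1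
  rw [← mul_sum, ← mul_sum, h2] at h1
  have h3 : 2 * (blow R q).edgeFinset.card = 2 * (q * q * R.edgeFinset.card) := by
    rw [← h1]
    ring
  exact Nat.eq_of_mul_eq_mul_left (by norm_num) h3

theorem blow_sum {ι : Type*} [Fintype ι] (R : SimpleGraph ι) (q : ℕ) (ρ : ι → ι → ℝ) :
    ∑ x, ∑ y, OCY.ext (blow R q) (fun x y => ρ x.1 y.1) x y =
      (q : ℝ) ^ 2 * ∑ i, ∑ j, OCY.ext R ρ i j := by
  have h : ∀ x y : ι × Fin q,
      OCY.ext (blow R q) (fun x y => ρ x.1 y.1) x y = OCY.ext R ρ x.1 y.1 := by
    intro x y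
    simp [OCY.ext, blow]
  simp only [h]
  rw [Fintype.sum_prod_type]
  simp only [Fintype.sum_prod_type, sum_const, card_univ, Fintype.card_fin, nsmul_eq_mul]
  simp only [← mul_sum]
  ring

end Pool.TCF
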