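import Pool.Agent.OCG.Defs
import Pool.Agent.H34.Dec.Copies

/-!
# Fractional thresholds of 3-colourable graphs: definitions

`T ≥ 2` is real.
-/

open Finset
open scoped Classical

namespace Pool.TCF

open Pool.OCY Pool.OCG

/-- the triangle condition -/
def Hom3 {V : Type*} (G : SimpleGraph V) (T : ℝ) (r : V → V → ℝ) : Prop :=
  ∀ a b c, G.Adj a b → G.Adj a c → G.Adj b c → (T - 1) * r a b + r a c + r b c ≤ 0

/-- the number of edges of `F` between the colours `s` and `s'` (for `s ≠ s'`) -/
noncomputable def ecol {W : Type*} [Fintype W] (F : SimpleGraph W) (c : W → Fin 3) (s s' : Fin 3) :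
    ℕ :=
  (univ.filter fun x : W × W => F.Adj x.1 x.2 ∧ c x.1 = s ∧ c x.2 = s').card

/-- `F` without the edges at the vertices of `I` -/
def del {W : Type*} (F : SimpleGraph W) (I : Set W) : SimpleGraph W where
  Adj a b := F.Adj a b ∧ a ∉ I ∧ b ∉ I
  symm := ⟨fun _ _ h => ⟨h.1.symm, h.2.2, h.2.1⟩⟩
  loopless := ⟨fun a h => F.loopless.irrefl a h.1⟩

/-- `I` is an independent set of `F` -/
def Indep {W : Type*} (F : SimpleGraph W) (I : Set W) : Prop := ∀ a ∈ I, ∀ b ∈ I, ¬ F.Adj a b

/-- some edge of `H` is a bridge -/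
def HasBridge {W : Type*} (H : SimpleGraph W) : Prop := ∃ a b, H.Adj a b ∧ H.IsBridge s(a, b)

/-- the adjacency of the bowtie: two triangles `0 1 2` and `0 3 4` with a common vertex -/
def BowR (i j : Fin 5) : Prop :=
  (i, j) ∈ ([(0, 1), (1, 0), (0, 2), (2, 0), (0, 3), (3, 0), (0, 4), (4, 0), (1, 2), (2, 1), (3, 4),
    (4, 3)] : List (Fin 5 × Fin 5))

/-- `F` without some edge `u v` has a homomorphism to the bowtie with `u ↦ 2` and `v ↦ 4` -/
def Bow {W : Type*} (F : SimpleGraph W) : Prop :=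
  ∃ (u v : W) (b : W → Fin 5), F.Adj u v ∧ b u = 2 ∧ b v = 4 ∧
    ∀ i j, F.Adj i j → ¬ (i = u ∧ j = v) → ¬ (i = v ∧ j = u) → BowR (b i) (b j)

/-- `c` is a proper colouring with three colours -/
def Prop3 {W : Type*} (F : SimpleGraph W) (c : W → Fin 3) : Prop := ∀ i j, F.Adj i j → c i ≠ c j

/-- the condition on `T`: with `x` edges between the colours `0`, `1` and `e` edges,
`T ≤ (e + x) / (e - x)` -/
def TCond {W : Type*} [Fintype W] (F : SimpleGraph W) (c : W → Fin 3) (T : ℝ) : Prop :=
  2 ≤ T ∧ (T - 1) * ((ecol F c 0 2 : ℝ) + ecol F c 1 2) ≤ 2 * ecol F c 0 1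

/-- the pair `(a, b)` is in few violating triples, in this order -/
def Good3a {V : Type*} [Fintype V] (G : SimpleGraph V) (T : ℝ) (r : V → V → ℝ) (ζ : ℝ) (a b : V) :
    Prop :=
  ((univ.filter fun x : V => P3 G T r a b x).card : ℝ) ≤ ζ * (Fintype.card V : ℝ) ∧
  ((univ.filter fun x : V => P3 G T r a x b).card : ℝ) ≤ ζ * (Fintype.card V : ℝ) ∧
  ((univ.filter fun x : V => P3 G T r x a b).card : ℝ) ≤ ζ * (Fintype.card V : ℝ)

/-- few violating triples, in both orders -/
def Good3 {V : Type*} [Fintype V] (G : SimpleGraph V) (T : ℝ) (r : V → V → ℝ) (ζ : ℝ) (a b : V) :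
    Prop := Good3a G T r ζ a b ∧ Good3a G T r ζ b a

/-- `G` is `F`-divisible: `e(F)` divides `e(G)` and the gcd of the degrees of `F` divides every
degree of `G`. -/
def Divisible {W V : Type} [Fintype W] [Fintype V] (F : SimpleGraph W) (G : SimpleGraph V) : Prop :=
  F.edgeFinset.card ∣ G.edgeFinset.card ∧ ∀ v, (univ.gcd (fun x => F.degree x)) ∣ G.degree v

/-- some `F`-divisible graph on `n` vertices of minimum degree at least `δ n` has no fractional
`F`-decomposition -/
def Bad {W : Type} [Fintype W] (F : SimpleGraph W) (δ : ℝ) (n : ℕ) : Prop :=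
  ∃ G : SimpleGraph (Fin n), Divisible F G ∧ (∀ v, δ * n ≤ G.degree v) ∧
    ¬ ∃ w, Pool.H34.Dec.IsFracDecomp F G w

/-- every cut of `F` has at most `m` edges (ordered pairs: each edge is counted twice) -/
def CutLe {W : Type} [Fintype W] (F : SimpleGraph W) (m : ℕ) : Prop :=
  ∀ side : W → Bool,
    (univ.filter fun x : W × W => F.Adj x.1 x.2 ∧ side x.1 ≠ side x.2).card ≤ 2 * m

/-- the cone over `B`: a new vertex `none` adjacent to all vertices of `B` -/
def cone {U : Type*} (B : SimpleGraph U) : SimpleGraph (Option U) where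
  Adj x y := match x, y with
    | none, none => False
    | none, some _ => True
    | some _, none => True
    | some u, some v => B.Adj u v
  symm := ⟨by
    rintro (_ | u) (_ | v) h
    · exact h
    · trivial
    · trivial
    · exact SimpleGraph.Adj.symm (G := B) h⟩
  loopless := ⟨by
    rintro (_ | u) h
    · exact h
    · exact B.loopless.irrefl u h⟩

/-- the complete tripartite graph `K_{a,b,c}` -/
def tri (a b c : ℕ) : SimpleGraph (Σ i : Fin 3, Fin (![a, b, c] i)) :=
  SimpleGraph.completeMultipartiteGraph fun i : Fin 3 => Fin (![a, b, c] i)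

end Pool.TCF
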