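import Pool.Agent.OCY.Box
import Pool.Agent.TCF.Defs
import Pool.Agent.OCG.CfgBox

/-!
MODULE BoxT (difficulty 3).  Many homomorphisms of a small template graph give a blow-up of it with pairwise disjoint
classes inside the sets `Y s` and avoiding a set `Z` with at most two elements.

RECIPE.  Copy of the proved file `Pool/Agent/OCG/CfgBox.lean` (theorem `cfg_box`; the lemmas `cfgbox_count`, `cfgbox_inj`,
`cfgbox_mem` can be cited from it) with the cyclic adjacency `s ~ s + 1` replaced by an arbitrary relation `R` on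
`Fin (n + 1)`.  Apply `Pool.OCY.box (n+1) t (κ/2)` to the predicate `(∀ s, x s ∈ Y s) ∧ (∀ s s', R s s' → K.Adj (x s) (x s'))`
and `x` injective and `∀ s, x s ∉ Z`.  If `t = 0` take `X s = ∅`.  For `R s s'` one has `s ≠ s'` because `K` has no loops
(take any `x` in the box).
-/

open Finset
open scoped Classical

namespace Pool.TCF
open Pool.OCY Pool.OCG

theorem boxT (n t : ℕ) (R : Fin (n + 1) → Fin (n + 1) → Prop) {κ : ℝ} (hκ : 0 < κ) :
    ∃ n₀ : ℕ, ∀ (V : Type) [Fintype V],
    n₀ ≤ Fintype.card V → ∀ (K : SimpleGraph V) (Z : Finset V), Z.card ≤ 2 →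
      ∀ Y : Fin (n + 1) → Finset V,
      κ * (Fintype.card V : ℝ) ^ (n + 1) ≤ ((univ.filter fun x : Fin (n + 1) → V =>
        (∀ s, x s ∈ Y s) ∧ ∀ s s', R s s' → K.Adj (x s) (x s')).card : ℝ) →
      ∃ X : Fin (n + 1) → Finset V, (∀ s, (X s).card = t) ∧ (∀ s, X s ⊆ Y s) ∧
        (∀ s, ∀ z ∈ Z, z ∉ X s) ∧ (∀ s s', s ≠ s' → Disjoint (X s) (X s')) ∧
        ∀ s s', R s s' → ∀ x ∈ X s, ∀ y ∈ X s', K.Adj x y := by
  rcases Nat.eq_zero_or_pos t with ht | ht
  · refine ⟨0, ?_⟩
    intro V _ _ K Z _ Y _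
    refine ⟨fun _ => ∅, fun _ => by rw [card_empty, ht], fun _ => empty_subset _,
      fun _ _ _ => notMem_empty _, fun _ _ _ => disjoint_empty_left _, ?_⟩
    intro s s' _ x hx
    exact absurd hx (notMem_empty _)
  obtain ⟨n₁, hn₁⟩ := Pool.OCY.box (n + 1) t (κ / 2) (by positivity)
  set C : ℝ := ((n : ℝ) + 1) ^ 2 + (n + 1) * 2 with hC
  refine ⟨max n₁ ⌈2 * C / κ⌉₊, ?_⟩
  intro V _ hN K Z hZ Y hcount
  have hN1 : n₁ ≤ Fintype.card V := (le_max_left _ _).trans hN
  have hN2 : 2 * C / κ ≤ (Fintype.card V : ℝ) :=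
    (Nat.le_ceil _).trans (by exact_mod_cast (le_max_right _ _).trans hN)
  have hN3 : C ≤ κ / 2 * (Fintype.card V : ℝ) := by
    rw [div_le_iff₀ hκ] at hN2
    linarith
  have hbad : ((univ.filter fun x : Fin (n + 1) → V => ¬ Function.Injective x).card : ℝ) +
      ((univ.filter fun x : Fin (n + 1) → V => ∃ s, x s ∈ Z).card : ℝ) ≤
      κ / 2 * (Fintype.card V : ℝ) ^ (n + 1) := by
    have h1 : ((univ.filter fun x : Fin (n + 1) → V => ¬ Function.Injective x).card : ℝ) ≤
        ((n : ℝ) + 1) ^ 2 * (Fintype.card V : ℝ) ^ n := by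
      exact_mod_cast cfgbox_inj (V := V) (n := n)
    have h2 : ((univ.filter fun x : Fin (n + 1) → V => ∃ s, x s ∈ Z).card : ℝ) ≤
        ((n : ℝ) + 1) * 2 * (Fintype.card V : ℝ) ^ n := by
      exact_mod_cast cfgbox_mem (n := n) Z hZ
    have h3 : C * (Fintype.card V : ℝ) ^ n ≤
        κ / 2 * (Fintype.card V : ℝ) * (Fintype.card V : ℝ) ^ n :=
      mul_le_mul_of_nonneg_right hN3 (by positivity)
    calc _ ≤ ((n : ℝ) + 1) ^ 2 * (Fintype.card V : ℝ) ^ n +
        ((n : ℝ) + 1) * 2 * (Fintype.card V : ℝ) ^ n := add_le_add h1 h2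
      _ = C * (Fintype.card V : ℝ) ^ n := by rw [hC]; ring
      _ ≤ _ := h3
      _ = _ := by ring
  obtain ⟨Q, hQ⟩ : ∃ Q : (Fin (n + 1) → V) → Prop, ∀ x, Q x ↔
      (((∀ s, x s ∈ Y s) ∧ ∀ s s', R s s' → K.Adj (x s) (x s')) ∧
      Function.Injective x ∧ ∀ s, x s ∉ Z) := ⟨_, fun _ => Iff.rfl⟩
  have hP := hn₁ V hN1 Q (by
    have hsub : (univ.filter fun x : Fin (n + 1) → V =>
        (∀ s, x s ∈ Y s) ∧ ∀ s s', R s s' → K.Adj (x s) (x s')) ⊆
        ((univ.filter Q) ∪
        (univ.filter fun x : Fin (n + 1) → V => ¬ Function.Injective x)) ∪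
        (univ.filter fun x : Fin (n + 1) → V => ∃ s, x s ∈ Z) := by
      intro x hx
      simp only [mem_union, mem_filter, mem_univ, true_and] at hx ⊢
      by_cases h1 : Function.Injective x
      · by_cases h2 : ∃ s, x s ∈ Z
        · exact Or.inr h2
        · refine Or.inl (Or.inl ((hQ x).2 ⟨hx, h1, ?_⟩))
          intro s hs
          exact h2 ⟨s, hs⟩
      · exact Or.inl (Or.inr h1)
    have hc := (card_le_card hsub).trans
      ((card_union_le _ _).trans (Nat.add_le_add_right (card_union_le _ _) _))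
    have hc' := (Nat.cast_le (α := ℝ)).2 hc
    push_cast at hc'
    have h5 : κ / 2 * (Fintype.card V : ℝ) ^ (n + 1) + κ / 2 * (Fintype.card V : ℝ) ^ (n + 1) =
      κ * (Fintype.card V : ℝ) ^ (n + 1) := by ring
    linarith)
  obtain ⟨X, hX1, hX2'⟩ := hP
  have hX2 := fun x hx => (hQ x).1 (hX2' x hx)
  have hne : ∀ s, (X s).Nonempty := by
    intro s
    rw [← card_pos, hX1 s]
    exact ht
  choose b hb using hne
  have hupd : ∀ s, ∀ x ∈ X s, ∀ i, Function.update b s x i ∈ X i := by
    intro s x hx i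
    by_cases hi : i = s
    · subst hi
      rw [Function.update_self]
      exact hx
    · rw [Function.update_of_ne hi]
      exact hb i
  have hupd2 : ∀ s s', ∀ x ∈ X s, ∀ y ∈ X s', ∀ i,
      Function.update (Function.update b s x) s' y i ∈ X i := by
    intro s s' x hx y hy i
    by_cases hi : i = s'
    · subst hi
      rw [Function.update_self]
      exact hy
    · rw [Function.update_of_ne hi]
      exact hupd s x hx i
  refine ⟨X, hX1, ?_, ?_, ?_, ?_⟩
  · intro s x hx
    have h := (hX2 _ (hupd s x hx)).1.1 s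
    rw [Function.update_self] at h
    exact h
  · intro s z hz hzX
    have h := (hX2 _ (hupd s z hzX)).2.2 s
    rw [Function.update_self] at h
    exact h hz
  · intro s s' hss
    rw [disjoint_left]
    intro x hx hx'
    have h := (hX2 _ (hupd2 s s' x hx x hx')).2.1
    apply hss
    apply h
    rw [Function.update_self, Function.update_of_ne hss, Function.update_self]
  · intro s s' hR x hx y hy
    have hs1 : s ≠ s' := by
      intro h
      have h1 := (hX2 b hb).1.2 s s' hR
      rw [← h] at h1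
      exact K.irrefl h1
    have h := (hX2 _ (hupd2 s s' x hx y hy)).1.2 s s' hR
    rw [Function.update_self, Function.update_of_ne hs1, Function.update_self] at h
    exact h

end Pool.TCF
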