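import Pool.Agent.TCF.BoxT
import Pool.Agent.OCG.Seq
import Pool.Agent.OCG.CfgA

/-!
MODULE CfgBow (difficulty 3).  Blow-ups of the bowtie (triangles `0 1 2` and `0 3 4`) with prescribed sets, in a graph of
minimum degree `> n/2` (on `S`).

RECIPE (`N = card V`).  Compare the proved file `Pool/Agent/OCG/CfgA.lean` (`cfg2`), whose lemmas can be cited (`cfga_card`,
`cfga_mem`, `cfga_inter`, `cfga_deg`, `cfga_comm`: two vertices of `S` have `≥ 2 η N` common neighbours; `cfga_nb`: a vertex of `S`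
has `≥ 2 η N` neighbours in a set `U` with `|U| ≥ (1/2 + η) N`).
Choose successively: `x₀ ∈ U ∩ U'` (`≥ 2 η N`), `x₁ ∈ U ∩ N(x₀)` (`≥ 2 η N`), `x₂ ∈ N(x₀) ∩ N(x₁)` (`≥ 2 η N`),
`x₃ ∈ U' ∩ N(x₀)` (`≥ 2 η N`), `x₄ ∈ N(x₀) ∩ N(x₃)` (`≥ 2 η N`); all chosen vertices are in `S`.  So at least `(2 η N) ^ 5`
functions `x : Fin 5 → V` have `x 0 ∈ U ∩ U'`, `x 1 ∈ U`, `x 3 ∈ U'` and `K.Adj (x s) (x s')` for all `BowR s s'`.
For the counting use `seq_step` from `Pool/Agent/OCG/Seq.lean` four times (as in the proof of `seq5` there) or `seq5`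
with a relabelling of the coordinates.  Then `boxT 4 t BowR` with `κ = (2 η) ^ 5` (note `BowR s s'` is a decidable membership in a
list: `fin_cases s <;> fin_cases s'` and `simp [BowR]`), `Y = ![U ∩ U', U, univ, U', univ]`, `Z = {a, b}`.
-/

open Finset
open scoped Classical

namespace Pool.TCF
open Pool.OCY Pool.OCG

private theorem cfgBow_card {V : Type} [Fintype V] {p q : (Fin 5 → V) → Prop} {_ : DecidablePred p}
    {_ : DecidablePred q} (h : ∀ z, p z → q ![z 1, z 0, z 2, z 4, z 3]) :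
    ((univ.filter p).card : ℝ) ≤ ((univ.filter q).card : ℝ) := by
  rw [Nat.cast_le]
  refine Finset.card_le_card_of_injOn (fun z => ![z 1, z 0, z 2, z 4, z 3]) ?_ ?_
  · intro z hz
    exact Finset.mem_coe.2 (Finset.mem_filter.2 ⟨Finset.mem_univ _,
      h z (Finset.mem_filter.1 (Finset.mem_coe.1 hz)).2⟩)
  · intro x _ y _ hxy
    have e0 : x 1 = y 1 := congrFun hxy 0
    have e1 : x 0 = y 0 := congrFun hxy 1
    have e2 : x 2 = y 2 := congrFun hxy 2
    have e3 : x 4 = y 4 := congrFun hxy 3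
    have e4 : x 3 = y 3 := congrFun hxy 4
    funext s
    fin_cases s
    · exact e1
    · exact e0
    · exact e2
    · exact e4
    · exact e3

theorem cfgBow (t : ℕ) {η : ℝ} (hη : 0 < η) : ∃ n₀ : ℕ, ∀ (V : Type) [Fintype V],
    n₀ ≤ Fintype.card V → ∀ (K : SimpleGraph V) (S : Finset V),
      (∀ a b, K.Adj a b → a ∈ S ∧ b ∈ S) →
      (∀ v ∈ S, (1 / 2 + η) * Fintype.card V ≤ K.degree v) →
      ∀ U U' : Finset V, U ⊆ S → U' ⊆ S → (1 / 2 + η) * Fintype.card V ≤ U.card →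
      (1 / 2 + η) * Fintype.card V ≤ U'.card → ∀ a b : V,
      ∃ X : Fin 5 → Finset V, (∀ s, (X s).card = t) ∧
        (∀ s s', s ≠ s' → Disjoint (X s) (X s')) ∧ (∀ s, a ∉ X s) ∧ (∀ s, b ∉ X s) ∧
        X 0 ⊆ U ∩ U' ∧ X 1 ⊆ U ∧ X 3 ⊆ U' ∧
        ∀ s s', BowR s s' → ∀ x ∈ X s, ∀ y ∈ X s', K.Adj x y := by
  obtain ⟨κ, hκ, hκη, hκ2⟩ : ∃ κ : ℝ, 0 < κ ∧ κ ≤ 2 * η ∧ κ ≤ 1 / 2 :=
    ⟨min (2 * η) (1 / 2), by positivity, min_le_left _ _, min_le_right _ _⟩
  obtain ⟨n₀, hn₀⟩ := boxT 4 t BowR (κ := κ ^ 5) (by positivity)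
  refine ⟨n₀, fun V _ hV K S hS hdeg U U' hU hU' hUc hU'c a b => ?_⟩
  have hN : (0 : ℝ) ≤ Fintype.card V := Nat.cast_nonneg _
  have key := seq5 (V := V) (κ := κ * Fintype.card V) (by positivity)
    (fun x1 => x1 ∈ U ∩ U') (fun x1 x0 => x0 ∈ U ∧ K.Adj x1 x0)
    (fun x1 x0 x2 _ _ => K.Adj x1 x2 ∧ K.Adj x0 x2)
    (fun x1 _ _ x4 _ => x4 ∈ U' ∧ K.Adj x1 x4)
    (fun x1 _ _ x4 x3 => K.Adj x1 x3 ∧ K.Adj x4 x3)
    (by
      refine le_trans ?_ (cfga_mem (U ∩ U') fun x hx => hx)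
      have h6 := cfga_inter U U'
      have h7 : κ * Fintype.card V ≤ (2 * η) * Fintype.card V :=
        mul_le_mul_of_nonneg_right hκη hN
      linarith)
    (by
      intro x1 h1
      exact (mul_le_mul_of_nonneg_right hκη hN).trans
        ((cfga_nb K (hdeg x1 (hU (Finset.mem_inter.1 h1).1)) hUc).trans (cfga_card fun x hx => hx)))
    (by
      intro x1 x0 h1 h0
      exact (mul_le_mul_of_nonneg_right hκη hN).trans
        ((cfga_comm K (hdeg x1 (hU (Finset.mem_inter.1 h1).1)) (hdeg x0 (hU h0.1))).trans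
          (cfga_card fun x hx => hx)))
    (by
      intro x1 x0 x2 h1 h0 h2
      exact (mul_le_mul_of_nonneg_right hκη hN).trans
        ((cfga_nb K (hdeg x1 (hU (Finset.mem_inter.1 h1).1)) hU'c).trans (cfga_card fun x hx => hx)))
    (by
      intro x1 x0 x2 x4 h1 h0 h2 h4
      exact (mul_le_mul_of_nonneg_right hκη hN).trans
        ((cfga_comm K (hdeg x1 (hU (Finset.mem_inter.1 h1).1)) (hdeg x4 (hU' h4.1))).trans
          (cfga_card fun x hx => hx)))
  obtain ⟨X, hX1, hX2, hX3, hX4, hX5⟩ := hn₀ V hV K {a, b} (Finset.card_le_two)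
    ![U ∩ U', U, univ, U', univ] (by
      rw [← mul_pow]
      refine key.trans ?_
      refine cfgBow_card ?_
      intro z hz
      obtain ⟨h1, ⟨h0, h10⟩, ⟨h12, h02⟩, ⟨h4, h14⟩, h13, h43⟩ := hz
      refine ⟨?_, ?_⟩
      · intro s
        fin_cases s
        · exact h1
        · exact h0
        · exact Finset.mem_univ _
        · exact h4
        · exact Finset.mem_univ _
      · intro s s' h
        fin_cases s <;> fin_cases s' <;>
          first
          | exact h10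
          | exact h10.symm
          | exact h12
          | exact h12.symm
          | exact h14
          | exact h14.symm
          | exact h13
          | exact h13.symm
          | exact h02
          | exact h02.symm
          | exact h43
          | exact h43.symm
          | (exfalso; revert h; simp [BowR]))
  refine ⟨X, hX1, hX4, fun s => hX3 s a (by simp), fun s => hX3 s b (by simp), hX2 0, hX2 1, hX2 3,
    hX5⟩

end Pool.TCF
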