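import Pool.Agent.OCG.CfgBox
import Pool.Agent.OCG.CfgB
import Pool.Agent.OCG.Seq
import Pool.Agent.TCF.Defs

/-!
MODULE CfgTri (difficulty 2).  Blow-ups of the triangle with prescribed sets.

RECIPE.  Both are copies of the theorems of the proved file `Pool/Agent/OCG/CfgB.lean` (which is imported: `cfgb_deg`,
`cfgb_inter`, `cfgb_mem` ... can be cited) with other constants; `N = card V`, `|A ∩ B| ≥ |A| + |B| - N`.
* `cfg2T` (two roots, degrees `≥ (2/3 + η) N`), copy of `cfg2t`: `x₂ ∈ U ∩ U'` (`≥ (1/3 + 2η) N`), `x₁ ∈ U ∩ N(x₂)` (`≥ (1/3 + 2η) N`),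
  `x₀ ∈ U' ∩ N(x₁) ∩ N(x₂)` (`≥ 3 η N`): `κ = min (1/3) (3 η)`, `cfg_box 2 t (κ ^ 3)`.
* `cfg1T` (one root, degrees `≥ (δ + η) N`, `δ ≥ 1/2`), copy of `cfg1t`: `x₁ ∈ U` (`≥ α N`), `x₂ ∈ U' ∩ N(x₁)`
  (`≥ (1 - δ) N + (δ + η) N - N = η N`), `x₀ ∈ N(x₁) ∩ N(x₂)` (`≥ (2δ + 2η - 1) N ≥ η N`): `κ = min α η`.
-/

open Finset
open scoped Classical

namespace Pool.TCF
open Pool.OCY Pool.OCG

theorem cfg1T (t : ℕ) {δ η α : ℝ} (hδ : 1 / 2 ≤ δ) (hη : 0 < η) (hα : 0 < α) :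
    ∃ n₀ : ℕ, ∀ (V : Type) [Fintype V],
    n₀ ≤ Fintype.card V → ∀ (K : SimpleGraph V) (S : Finset V),
      (∀ a b, K.Adj a b → a ∈ S ∧ b ∈ S) →
      (∀ v ∈ S, (δ + η) * Fintype.card V ≤ K.degree v) →
      ∀ U U' : Finset V, U ⊆ S → U' ⊆ S → α * Fintype.card V ≤ U.card →
      (1 - δ) * Fintype.card V ≤ U'.card → ∀ a : V,
      ∃ X : Fin 3 → Finset V, (∀ s, (X s).card = t) ∧
        (∀ s s', s ≠ s' → Disjoint (X s) (X s')) ∧ (∀ s, a ∉ X s) ∧ X 1 ⊆ U ∧ X 2 ⊆ U' ∧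
        ∀ s, ∀ x ∈ X s, ∀ y ∈ X (s + 1), K.Adj x y := by
  obtain ⟨κ, hκ0, hκα, hκη⟩ : ∃ κ : ℝ, 0 < κ ∧ κ ≤ α ∧ κ ≤ η :=
    ⟨min α η, lt_min hα hη, min_le_left _ _, min_le_right _ _⟩
  obtain ⟨n₀, hn₀⟩ := cfg_box 2 t (κ := κ ^ 3) (by positivity)
  refine ⟨n₀, ?_⟩
  intro V _ hN K S _ hdeg U U' hU hU' hUc hU'c a
  have hN0 : 0 ≤ (Fintype.card V : ℝ) := Nat.cast_nonneg _
  have key := hn₀ V hN K {a} (by simp) ![univ, U, U'] (by
    have h := seq3 (V := V) (κ := κ * Fintype.card V) (by positivity) (fun x => x ∈ U)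
      (fun x1 x => x ∈ U' ∧ K.Adj x1 x) (fun x1 x2 x => K.Adj x1 x ∧ K.Adj x2 x)
      (by
        rw [cfgb_mem]
        exact (mul_le_mul_of_nonneg_right hκα hN0).trans hUc)
      (by
        intro x1 hx1
        refine le_trans ?_ (cfgb_inter (fun x => x ∈ U') (fun x => K.Adj x1 x) _ _ _ _
          (fun x h1 h2 => ⟨h1, h2⟩) (A := (1 - δ) * (Fintype.card V : ℝ))
          (B := (δ + η) * (Fintype.card V : ℝ)) (by rw [cfgb_mem]; exact hU'c)
          (by rw [cfgb_deg]; exact hdeg x1 (hU hx1)))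
        have h2 : κ * (Fintype.card V : ℝ) ≤ η * (Fintype.card V : ℝ) :=
          mul_le_mul_of_nonneg_right hκη hN0
        linarith)
      (by
        intro x1 x2 hx1 hx2
        refine le_trans ?_ (cfgb_inter (fun x => K.Adj x1 x) (fun x => K.Adj x2 x) _ _ _ _
          (fun x h1 h2 => ⟨h1, h2⟩)
          (A := (δ + η) * (Fintype.card V : ℝ)) (B := (δ + η) * (Fintype.card V : ℝ))
          (by rw [cfgb_deg]; exact hdeg x1 (hU hx1))
          (by rw [cfgb_deg]; exact hdeg x2 (hU' hx2.1)))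
        have h2 : κ * (Fintype.card V : ℝ) ≤ η * (Fintype.card V : ℝ) :=
          mul_le_mul_of_nonneg_right hκη hN0
        have h3 : 0 ≤ η * (Fintype.card V : ℝ) := by positivity
        have h4 : 1 / 2 * (Fintype.card V : ℝ) ≤ δ * (Fintype.card V : ℝ) :=
          mul_le_mul_of_nonneg_right hδ hN0
        linarith)
    refine le_trans (le_of_eq ?_) (le_trans h (Nat.cast_le.2 (card_le_card ?_)))
    · ring
    · intro x hx
      simp only [mem_filter, mem_univ, true_and] at hx ⊢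
      obtain ⟨h1, ⟨h2, h3⟩, h4, h5⟩ := hx
      constructor
      · intro s
        fin_cases s
        · exact mem_univ _
        · exact h1
        · exact h2
      · intro s
        fin_cases s
        · exact h4.symm
        · exact h3
        · exact h5)
  obtain ⟨X, hX1, hX2, hX3, hX4, hX5⟩ := key
  exact ⟨X, hX1, hX4, fun s => hX3 s a (mem_singleton_self a), hX2 1, hX2 2, hX5⟩

theorem cfg2T (t : ℕ) {η : ℝ} (hη : 0 < η) : ∃ n₀ : ℕ, ∀ (V : Type) [Fintype V],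
    n₀ ≤ Fintype.card V → ∀ (K : SimpleGraph V) (S : Finset V),
      (∀ a b, K.Adj a b → a ∈ S ∧ b ∈ S) →
      (∀ v ∈ S, (2 / 3 + η) * Fintype.card V ≤ K.degree v) →
      ∀ U U' : Finset V, U ⊆ S → U' ⊆ S → (2 / 3 + η) * Fintype.card V ≤ U.card →
      (2 / 3 + η) * Fintype.card V ≤ U'.card → ∀ a b : V,
      ∃ X : Fin 3 → Finset V, (∀ s, (X s).card = t) ∧
        (∀ s s', s ≠ s' → Disjoint (X s) (X s')) ∧ (∀ s, a ∉ X s) ∧ (∀ s, b ∉ X s) ∧
        X 1 ⊆ U ∧ X 2 ⊆ U ∩ U' ∧ X 0 ⊆ U' ∧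
        ∀ s, ∀ x ∈ X s, ∀ y ∈ X (s + 1), K.Adj x y := by
  obtain ⟨κ, hκ0, hκ3, hκη⟩ : ∃ κ : ℝ, 0 < κ ∧ κ ≤ 1 / 3 ∧ κ ≤ 3 * η :=
    ⟨min (1 / 3) (3 * η), lt_min (by norm_num) (by linarith), min_le_left _ _, min_le_right _ _⟩
  obtain ⟨n₀, hn₀⟩ := cfg_box 2 t (κ := κ ^ 3) (by positivity)
  refine ⟨n₀, ?_⟩
  intro V _ hN K S _ hdeg U U' hU hU' hUc hU'c a b
  have hN0 : 0 ≤ (Fintype.card V : ℝ) := Nat.cast_nonneg _
  have hηN : 0 ≤ η * (Fintype.card V : ℝ) := by positivity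
  have hk3 : κ * (Fintype.card V : ℝ) ≤ 1 / 3 * (Fintype.card V : ℝ) :=
    mul_le_mul_of_nonneg_right hκ3 hN0
  have hkη : κ * (Fintype.card V : ℝ) ≤ 3 * η * (Fintype.card V : ℝ) :=
    mul_le_mul_of_nonneg_right hκη hN0
  have key := hn₀ V hN K {a, b} card_le_two ![U', U, U ∩ U'] (by
    have h := seq3' (V := V) (κ := κ * (Fintype.card V : ℝ)) (by positivity)
      (fun x => x ∈ U ∧ x ∈ U')
      (fun x2 x => x ∈ U ∧ K.Adj x2 x) (fun x2 x1 x => x ∈ U' ∧ (K.Adj x1 x ∧ K.Adj x2 x))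
      (by
        refine le_trans ?_ (cfgb_inter (fun x => x ∈ U) (fun x => x ∈ U') _ _ _ _
          (fun x h1 h2 => ⟨h1, h2⟩) (A := (2 / 3 + η) * (Fintype.card V : ℝ))
          (B := (2 / 3 + η) * (Fintype.card V : ℝ)) (by rw [cfgb_mem]; exact hUc)
          (by rw [cfgb_mem]; exact hU'c))
        linarith)
      (by
        intro x2 hx2
        refine le_trans ?_ (cfgb_inter (fun x => x ∈ U) (fun x => K.Adj x2 x) _ _ _ _
          (fun x h1 h2 => ⟨h1, h2⟩)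
          (A := (2 / 3 + η) * (Fintype.card V : ℝ)) (B := (2 / 3 + η) * (Fintype.card V : ℝ))
          (by rw [cfgb_mem]; exact hUc)
          (by rw [cfgb_deg]; exact hdeg x2 (hU hx2.1)))
        linarith)
      (by
        intro x2 x1 hx2 hx1
        refine le_trans ?_ (cfgb_inter (fun x => x ∈ U')
          (fun x => K.Adj x1 x ∧ K.Adj x2 x) _ _ (fun _ => Classical.propDecidable _) _
          (fun x h1 h2 => ⟨h1, h2⟩)
          (A := (2 / 3 + η) * (Fintype.card V : ℝ)) (by rw [cfgb_mem]; exact hU'c)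
          (cfgb_inter (fun x => K.Adj x1 x) (fun x => K.Adj x2 x) _ _ _ _
          (fun x h1 h2 => ⟨h1, h2⟩)
          (A := (2 / 3 + η) * (Fintype.card V : ℝ)) (B := (2 / 3 + η) * (Fintype.card V : ℝ))
          (by rw [cfgb_deg]; exact hdeg x1 (hU hx1.1))
          (by rw [cfgb_deg]; exact hdeg x2 (hU hx2.1))))
        linarith)
    refine le_trans (le_of_eq ?_) (le_trans h (Nat.cast_le.2 (card_le_card ?_)))
    · ring
    · intro x hx
      simp only [mem_filter, mem_univ, true_and] at hx ⊢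
      obtain ⟨⟨h1, h1'⟩, ⟨h2, h3⟩, h4, h5, h6⟩ := hx
      constructor
      · intro s
        fin_cases s
        · exact h4
        · exact h2
        · exact mem_inter.2 ⟨h1, h1'⟩
      · intro s
        fin_cases s
        · exact h5.symm
        · exact h3.symm
        · exact h6)
  obtain ⟨X, hX1, hX2, hX3, hX4, hX5⟩ := key
  exact ⟨X, hX1, hX4, fun s => hX3 s a (by simp), fun s => hX3 s b (by simp), hX2 1, hX2 2,
    hX2 0, hX5⟩

end Pool.TCF
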