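import Pool.Agent.TCF.Defs
import Pool.Agent.OCG.ExcB

/-!
MODULE ExcB3 (difficulty 3).  Few pairs are in many violating triples; the excess of the cleaned graph is small.

RECIPE: (1) `bad_count3`: copy of the proved file `Pool/Agent/OCY/BadCount.lean` with `P3` only: `¬ Good3 a b` means that one of
the 6 numbers (3 for `(a, b)`, 3 for `(b, a)`) is large; for each Markov: at most `τ n ^ 3 / (ζ n)` pairs.
(2) `exc_bound3`: second half of the proved file `Pool/Agent/OCG/ExcB.lean` (`exc_bound`, part `exc3`), with the components of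
`Good3`.  Both files may be imported and their lemmas cited (`badCount_card` ..., `excB_aux3`, `excB_pt3`, `excB_adj`).
-/

open Finset
open scoped Classical

namespace Pool.TCF
open Pool.OCY Pool.OCG

private theorem ExcB3_one {V : Type*} [Fintype V] (G : SimpleGraph V) (T : ℝ) (r : V → V → ℝ)
    {ζ τ : ℝ} (hζ : 0 < ζ) (hn : 0 < (Fintype.card V : ℝ))
    (h3 : ((univ.filter fun x : V × V × V => P3 G T r x.1 x.2.1 x.2.2).card : ℝ)
        ≤ τ * (Fintype.card V : ℝ) ^ 3) :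
    ((univ.filter fun x : V × V => ¬ Good3a G T r ζ x.1 x.2).card : ℝ)
      ≤ 3 * (τ / ζ * (Fintype.card V : ℝ) ^ 2) := by
  obtain ⟨n, hndef⟩ : ∃ n : ℝ, n = (Fintype.card V : ℝ) := ⟨_, rfl⟩
  have f3 : ((univ.filter fun x : V × V × V => P3 G T r x.1 x.2.1 x.2.2).card : ℝ)
      = ∑ a, ∑ b, ∑ c, (if P3 G T r a b c then (1 : ℝ) else 0) := by
    rw [Finset.card_filter]
    push_cast
    rw [Fintype.sum_prod_type]
    refine Finset.sum_congr rfl fun a _ => ?_
    rw [Fintype.sum_prod_type]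
  rw [f3, ← hndef] at h3
  rw [← hndef] at hn
  have r2 : ∑ a, ∑ b, ∑ c, (if P3 G T r a b c then (1 : ℝ) else 0) =
      ∑ a, ∑ c, ∑ b, (if P3 G T r a b c then (1 : ℝ) else 0) :=
    Finset.sum_congr rfl fun a _ => Finset.sum_comm
  have r3 : ∑ a, ∑ b, ∑ c, (if P3 G T r a b c then (1 : ℝ) else 0) =
      ∑ b, ∑ c, ∑ a, (if P3 G T r a b c then (1 : ℝ) else 0) := by
    rw [Finset.sum_comm]
    exact Finset.sum_congr rfl fun b _ => Finset.sum_comm
  have k5 := badCount_div1 hζ hn (badCount_markov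
    (fun (p : V × V) (x : V) => P3 G T r p.1 p.2 x) (s := ζ * n)
    ((badCount_sum3 (fun a b c => P3 G T r a b c)).le.trans h3))
  have k6 := badCount_div1 hζ hn (badCount_markov
    (fun (p : V × V) (x : V) => P3 G T r p.1 x p.2) (s := ζ * n)
    ((badCount_sum3 (fun a c b => P3 G T r a b c)).le.trans (r2.ge.trans h3)))
  have k7 := badCount_div1 hζ hn (badCount_markov
    (fun (p : V × V) (x : V) => P3 G T r x p.1 p.2) (s := ζ * n)
    ((badCount_sum3 (fun b c a => P3 G T r a b c)).le.trans (r3.ge.trans h3)))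
  rw [← hndef]
  rw [badCount_c_eq] at k5 k6 k7
  have u5 := badCount_and (α := V × V)
    (fun p => ((univ.filter fun x : V => P3 G T r p.1 p.2 x).card : ℝ) ≤ ζ * n)
    (fun p => ((univ.filter fun x : V => P3 G T r p.1 x p.2).card : ℝ) ≤ ζ * n ∧
      ((univ.filter fun x : V => P3 G T r x p.1 p.2).card : ℝ) ≤ ζ * n)
  have u6 := badCount_and (α := V × V)
    (fun p => ((univ.filter fun x : V => P3 G T r p.1 x p.2).card : ℝ) ≤ ζ * n)
    (fun p => ((univ.filter fun x : V => P3 G T r x p.1 p.2).card : ℝ) ≤ ζ * n)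
  have e0 : badCount_c (fun x : V × V => ¬ Good3a G T r ζ x.1 x.2) =
      badCount_c (fun p : V × V =>
      ¬ (((univ.filter fun x : V => P3 G T r p.1 p.2 x).card : ℝ) ≤ ζ * n ∧
      ((univ.filter fun x : V => P3 G T r p.1 x p.2).card : ℝ) ≤ ζ * n ∧
      ((univ.filter fun x : V => P3 G T r x p.1 p.2).card : ℝ) ≤ ζ * n)) := by
    rw [hndef]
    rfl
  rw [badCount_c_eq, e0]
  linarith

theorem bad_count3 {V : Type*} [Fintype V] (G : SimpleGraph V) (T : ℝ) (r : V → V → ℝ) {ζ τ : ℝ}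
    (hζ : 0 < ζ) (hτ : 0 ≤ τ)
    (h3 : ((univ.filter fun x : V × V × V => P3 G T r x.1 x.2.1 x.2.2).card : ℝ)
      ≤ τ * (Fintype.card V : ℝ) ^ 3) :
    ((univ.filter fun x : V × V => ¬ Good3 G T r ζ x.1 x.2).card : ℝ)
      ≤ 6 * τ / ζ * (Fintype.card V : ℝ) ^ 2 := by
  have hn0 : (0 : ℝ) ≤ (Fintype.card V : ℝ) := Nat.cast_nonneg _
  rcases hn0.eq_or_lt with hn | hn
  · have hc : Fintype.card V = 0 := by exact_mod_cast hn.symm
    have hE : IsEmpty V := Fintype.card_eq_zero_iff.1 hc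
    have : (univ.filter fun x : V × V => ¬ Good3 G T r ζ x.1 x.2) = ∅ := by
      ext x
      exact (hE.false x.1).elim
    rw [this, card_empty, Nat.cast_zero]
    positivity
  · have h1 := ExcB3_one G T r hζ hn h3
    have h2 : ((univ.filter fun x : V × V => ¬ Good3a G T r ζ x.2 x.1).card : ℝ)
        ≤ 3 * (τ / ζ * (Fintype.card V : ℝ) ^ 2) := by
      refine le_trans (le_of_eq ?_) h1
      have : (univ.filter fun x : V × V => ¬ Good3a G T r ζ x.2 x.1).card =
          (univ.filter fun x : V × V => ¬ Good3a G T r ζ x.1 x.2).card := by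
        refine Finset.card_bij (fun x _ => (x.2, x.1)) ?_ ?_ ?_
        · intro x hx
          rw [mem_filter] at hx ⊢
          exact ⟨mem_univ _, hx.2⟩
        · rintro ⟨a, b⟩ _ ⟨c, d⟩ _ h
          rw [Prod.mk.injEq] at h ⊢
          exact ⟨h.2, h.1⟩
        · rintro ⟨a, b⟩ hx
          rw [mem_filter] at hx
          refine ⟨(b, a), ?_, rfl⟩
          rw [mem_filter]
          exact ⟨mem_univ _, hx.2⟩
      rw [this]
    have h5 := badCount_and (α := V × V) (fun x => Good3a G T r ζ x.1 x.2)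
      (fun x => Good3a G T r ζ x.2 x.1)
    have e : badCount_c (fun x : V × V => ¬ Good3 G T r ζ x.1 x.2) =
        badCount_c (fun x : V × V => ¬ (Good3a G T r ζ x.1 x.2 ∧ Good3a G T r ζ x.2 x.1)) := rfl
    rw [badCount_c_eq] at h1 h2
    rw [badCount_c_eq, e]
    have e2 : 6 * τ / ζ * (Fintype.card V : ℝ) ^ 2 =
        3 * (τ / ζ * (Fintype.card V : ℝ) ^ 2) + 3 * (τ / ζ * (Fintype.card V : ℝ) ^ 2) := by
      ring
    rw [e2]
    linarith

theorem exc_bound3 {V : Type*} [Fintype V] (G H : SimpleGraph V) (hH : H ≤ G) {T : ℝ} (hT : 2 ≤ T)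
    (r : V → V → ℝ) {ζ : ℝ} (hζ : 0 ≤ ζ) (hg : ∀ a b, H.Adj a b → Good3 G T r ζ a b) :
    ∑ a, ∑ b, ∑ c, exc3 H T r a b c ≤ (T + 1) * ζ * (Fintype.card V : ℝ) * tot H r := by
  have hw : ∀ a b, 0 ≤ |OCY.ext H r a b| := fun a b => abs_nonneg _
  have s1 := excB_aux3 (fun a b => |OCY.ext H r a b|) (fun a b c => P3 G T r a b c)
    (ζ * (Fintype.card V : ℝ)) hw (fun a b h => (hg a b (excB_adj h)).1.1)
  have s2 := excB_aux3 (fun a c => |OCY.ext H r a c|) (fun a c b => P3 G T r a b c)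
    (ζ * (Fintype.card V : ℝ)) hw (fun a b h => (hg a b (excB_adj h)).1.2.1)
  have s3 := excB_aux3 (fun b c => |OCY.ext H r b c|) (fun b c a => P3 G T r a b c)
    (ζ * (Fintype.card V : ℝ)) hw (fun a b h => (hg a b (excB_adj h)).1.2.2)
  have p2 : ∑ a, ∑ b, ∑ c, (if P3 G T r a b c then |OCY.ext H r a c| else 0) =
      ∑ a, ∑ c, ∑ b, (if P3 G T r a b c then |OCY.ext H r a c| else 0) :=
    Finset.sum_congr rfl fun a _ => Finset.sum_comm
  have p3 : ∑ a, ∑ b, ∑ c, (if P3 G T r a b c then |OCY.ext H r b c| else 0) =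
      ∑ b, ∑ c, ∑ a, (if P3 G T r a b c then |OCY.ext H r b c| else 0) := by
    rw [Finset.sum_comm]
    exact Finset.sum_congr rfl fun b _ => Finset.sum_comm
  have hsum : ∑ a, ∑ b, ∑ c, exc3 H T r a b c ≤
      (T - 1) * ∑ a, ∑ b, ∑ c, (if P3 G T r a b c then |OCY.ext H r a b| else 0) +
      ∑ a, ∑ b, ∑ c, (if P3 G T r a b c then |OCY.ext H r a c| else 0) +
      ∑ a, ∑ b, ∑ c, (if P3 G T r a b c then |OCY.ext H r b c| else 0) := by
    simp only [Finset.mul_sum, ← Finset.sum_add_distrib]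
    exact Finset.sum_le_sum fun a _ => Finset.sum_le_sum fun b _ =>
      Finset.sum_le_sum fun c _ => excB_pt3 G H hH hT r a b c
  refine hsum.trans ?_
  rw [p2, p3]
  have s1' := mul_le_mul_of_nonneg_left s1 (by linarith : (0 : ℝ) ≤ T - 1)
  have e : (T + 1) * ζ * (Fintype.card V : ℝ) * tot H r =
      (T - 1) * (ζ * (Fintype.card V : ℝ) * (∑ a, ∑ b, |OCY.ext H r a b|)) +
      ζ * (Fintype.card V : ℝ) * (∑ a, ∑ b, |OCY.ext H r a b|) +
      ζ * (Fintype.card V : ℝ) * (∑ a, ∑ b, |OCY.ext H r a b|) := by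
    unfold tot
    ring
  rw [e]
  exact add_le_add (add_le_add s1' s2) s3

end Pool.TCF
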