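import Pool.Agent.TCF.Star3
import Pool.Agent.TCF.ExcB3
import Pool.Agent.OCY.CleanA
import Pool.Agent.OCG.Clean

/-!
MODULE Clean3 (difficulty 3).  The cleaned graph.

RECIPE: copy of the proved file `Pool/Agent/OCG/Clean.lean` (it may be imported for `clean_sum1`, `clean_sum2`, `clean_sum3`,
`clean_degree`; namespace `Pool.OCG`) with `star3`, `bad_count3`, `exc_bound3`, `Good3` and no `P4`/`exc4` terms.
Constants: `ζ = c₀ / (4 C₀ (T+1))`, `τ = ζ γ' ^ 2 / 6` (so that `6 τ / ζ = γ' ^ 2`); `E3 / n' ≤ 2 E3 / n ≤ 2 (T+1) ζ tot`, so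
`C₀ E3 / n' ≤ (c₀ / 2) tot`.
-/

open Finset
open scoped Classical

namespace Pool.TCF
open Pool.OCY Pool.OCG

private theorem clean3_alg {A t c C E3 n m T : ℝ} (hT : 2 ≤ T) (hc : 0 < c) (hC : 0 < C) (ht : 0 ≤ t)
    (hn : 0 < n) (hm : n / 2 ≤ m)
    (h : A + c * t ≤ C * (E3 / m))
    (h3 : E3 ≤ (T + 1) * (c / (4 * C * (T + 1))) * n * t) :
    A ≤ -(c / 2) * t := by
  have hm0 : 0 < m := by linarith
  have hT1 : 0 < T + 1 := by linarith
  have e : (T + 1) * (c / (4 * C * (T + 1))) = c / (4 * C) := by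
    field_simp
  rw [e] at h3
  have hq : 0 ≤ c / (4 * C) := by positivity
  have g3 : E3 / m ≤ 2 * (c / (4 * C)) * t := by
    rw [div_le_iff₀ hm0]
    have h5 : n ≤ 2 * m := by linarith
    calc E3 ≤ c / (4 * C) * n * t := h3
      _ = (c / (4 * C) * t) * n := by ring
      _ ≤ (c / (4 * C) * t) * (2 * m) :=
          mul_le_mul_of_nonneg_left h5 (mul_nonneg hq ht)
      _ = _ := by ring
  have g : C * (E3 / m) ≤ C * (2 * (c / (4 * C)) * t) := mul_le_mul_of_nonneg_left g3 hC.le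
  have e2 : C * (2 * (c / (4 * C)) * t) = c / 2 * t := by
    field_simp
    ring
  linarith

theorem clean3 {T ε : ℝ} (hT : 2 ≤ T) (hε : 0 < ε) (hε1 : ε ≤ 1 / 12) :
    ∃ c : ℝ, 0 < c ∧ ∀ γ : ℝ, 0 < γ → ∃ τ : ℝ, 0 < τ ∧ ∀ (V : Type) [Fintype V]
      (G : SimpleGraph V), (∀ v, (1 / 2 + 1 / (2 * T) + ε) * Fintype.card V ≤ G.degree v) →
      ∀ r : V → V → ℝ, (∀ a b, r a b = r b a) →
      ((univ.filter fun x : V × V × V => P3 G T r x.1 x.2.1 x.2.2).card : ℝ)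
        ≤ τ * (Fintype.card V : ℝ) ^ 3 →
      ∃ (S : Finset V) (H : SimpleGraph V), H ≤ G ∧ (∀ a b, H.Adj a b → a ∈ S ∧ b ∈ S) ∧
        ((Sᶜ.card : ℝ) ≤ γ * Fintype.card V) ∧
        (∀ v ∈ S, (1 / 2 + 1 / (2 * T) + ε / 2) * Fintype.card V ≤ H.degree v) ∧
        (∀ a ∈ S, ((S.filter fun b => G.Adj a b ∧ ¬ H.Adj a b).card : ℝ)
          ≤ γ * Fintype.card V) ∧
        (∀ a ∉ S, (1 / 2 + 1 / (2 * T) + ε / 2) * Fintype.card V
          ≤ ((S.filter fun x => G.Adj a x).card : ℝ)) ∧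
        ∑ a, ∑ b, OCY.ext H r a b ≤ -c * tot H r := by
  obtain ⟨c₀, C₀, hc₀, hC₀, hstar⟩ := star3 (T := T) (ε := ε / 2) hT (by linarith) (by linarith)
  refine ⟨c₀ / 2, by positivity, ?_⟩
  intro γ hγ
  obtain ⟨γ', hγ', hγγ, hγε, hγ2⟩ : ∃ γ' : ℝ, 0 < γ' ∧ γ' ≤ γ ∧ γ' ≤ ε / 4 ∧ γ' ≤ 1 / 2 :=
    ⟨min γ (min (ε / 4) (1 / 2)), by positivity, min_le_left _ _,
      (min_le_right _ _).trans (min_le_left _ _), (min_le_right _ _).trans (min_le_right _ _)⟩
  have hT2 : 2 ≤ T := hT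
  have hT1 : 0 < T + 1 := by linarith
  obtain ⟨ζ, hζ⟩ : ∃ ζ : ℝ, ζ = c₀ / (4 * C₀ * (T + 1)) := ⟨_, rfl⟩
  have hζ0 : 0 < ζ := by rw [hζ]; positivity
  refine ⟨ζ * γ' ^ 2 / 6, by positivity, ?_⟩
  intro V _ G hdeg r hs h3
  have hbad := bad_count3 G T r (ζ := ζ) (τ := ζ * γ' ^ 2 / 6) hζ0 (by positivity) h3
  have hbe : 6 * (ζ * γ' ^ 2 / 6) / ζ = γ' ^ 2 := by
    field_simp
  rw [hbe] at hbad
  obtain ⟨Bad, hBad⟩ : ∃ Bad : V → V → Prop, ∀ a b, Bad a b ↔ ¬ Good3 G T r ζ a b :=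
    ⟨fun a b => ¬ Good3 G T r ζ a b, fun _ _ => Iff.rfl⟩
  have hsym : ∀ a b, Bad a b → Bad b a := by
    intro a b h
    rw [hBad] at h ⊢
    intro h'
    exact h ⟨h'.2, h'.1⟩
  have hbc : (univ.filter fun x : V × V => Bad x.1 x.2).card
      = (univ.filter fun x : V × V => ¬ Good3 G T r ζ x.1 x.2).card := by
    apply congrArg Finset.card
    ext x
    simp [hBad]
  rw [← hbc] at hbad
  obtain ⟨S, H, hHG, hHS, hHB, hSc, hSd, hSf, hSo⟩ :=
    cleanA G Bad hsym (β := γ' ^ 2) (γ := γ')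
      (δ := 1 / 2 + 1 / (2 * T) + ε) hγ' le_rfl hbad hdeg
  have hn0 : (0 : ℝ) ≤ Fintype.card V := Nat.cast_nonneg _
  have hγn : γ' * (Fintype.card V : ℝ) ≤ γ * Fintype.card V := mul_le_mul_of_nonneg_right hγγ hn0
  have hδ : (1 / 2 + 1 / (2 * T) + ε / 2) * (Fintype.card V : ℝ)
      ≤ (1 / 2 + 1 / (2 * T) + ε - 2 * γ') * Fintype.card V := by
    apply mul_le_mul_of_nonneg_right _ hn0
    linarith
  refine ⟨S, H, hHG, hHS, hSc.trans hγn, fun v hv => hδ.trans (hSd v hv),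
    fun a ha => (hSf a ha).trans hγn, fun a ha => hδ.trans (hSo a ha), ?_⟩
  rcases isEmpty_or_nonempty V with hV | hV
  · simp [tot]
  have hnpos : (0 : ℝ) < Fintype.card V := by
    exact_mod_cast Fintype.card_pos
  have hSn : (Fintype.card V : ℝ) / 2 ≤ (S.card : ℝ) := by
    have h1 : S.card + Sᶜ.card = Fintype.card V := Finset.card_add_card_compl S
    have h2 : (S.card : ℝ) + (Sᶜ.card : ℝ) = Fintype.card V := by exact_mod_cast h1
    have h3 : γ' * (Fintype.card V : ℝ) ≤ 1 / 2 * Fintype.card V :=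
      mul_le_mul_of_nonneg_right hγ2 hn0
    linarith
  have hcard : (Fintype.card ↥S : ℝ) = S.card := by
    rw [Fintype.card_coe]
  have hSle : (S.card : ℝ) ≤ Fintype.card V := by
    exact_mod_cast Finset.card_le_univ S
  have hT0 : 0 < 1 / (2 * T) := by
    have : 0 < T := by linarith
    positivity
  have hst := hstar ↥S (H.comap (Subtype.val : ↥S → V)) (fun v => by
    rw [clean_degree S H hHS v _, hcard]
    have h1 := hδ.trans (hSd v.1 v.2)
    refine le_trans ?_ h1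
    have h2 : 0 ≤ 1 / 2 + 1 / (2 * T) + ε / 2 := by linarith
    exact mul_le_mul_of_nonneg_left hSle h2) (fun a b => r a.1 b.1) (fun a b => hs _ _)
  have e2 : ∑ a : ↥S, ∑ b : ↥S, OCY.ext (H.comap (Subtype.val : ↥S → V)) (fun a b => r a.1 b.1) a b
      = ∑ a, ∑ b, OCY.ext H r a b :=
    clean_sum2 S (fun a b => OCY.ext H r a b) (fun a b h => by
      show OCY.ext H r a b = 0
      unfold Pool.OCY.ext
      rw [if_neg]
      intro h'
      exact h (hHS a b h'))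
  have et : tot (H.comap (Subtype.val : ↥S → V)) (fun a b => r a.1 b.1) = tot H r :=
    clean_sum2 S (fun a b => |OCY.ext H r a b|) (fun a b h => by
      show |OCY.ext H r a b| = 0
      unfold Pool.OCY.ext
      rw [if_neg, abs_zero]
      intro h'
      exact h (hHS a b h'))
  have e3 : ∑ a : ↥S, ∑ b : ↥S, ∑ c' : ↥S,
      exc3 (H.comap (Subtype.val : ↥S → V)) T (fun a b => r a.1 b.1) a b c'
      = ∑ a, ∑ b, ∑ c', exc3 H T r a b c' :=
    clean_sum3 S (fun a b c' => exc3 H T r a b c') (fun a b c' h => by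
      show exc3 H T r a b c' = 0
      unfold exc3
      rw [if_neg]
      intro h'
      exact h ⟨(hHS _ _ h'.1).1, (hHS _ _ h'.1).2, (hHS _ _ h'.2.1).2⟩)
  rw [e2, et, e3, hcard] at hst
  have b3 := exc_bound3 G H hHG hT2 r (ζ := ζ) hζ0.le
    (fun a b h => not_not.1 (fun h' => hHB a b h ((hBad a b).2 h')))
  rw [hζ] at b3
  have htot0 : 0 ≤ tot H r :=
    Finset.sum_nonneg fun a _ => Finset.sum_nonneg fun b _ => abs_nonneg _
  exact clean3_alg hT2 hc₀ hC₀ htot0 hnpos hSn hst b3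

end Pool.TCF
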