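import Pool.Agent.TCF.Place3
import Pool.Agent.OCG.Viol3

/-!
MODULE Viol3T (difficulty 2).  No box of violating triples.

RECIPE.  Begin as in the proved file `Pool/Agent/OCG/Viol3.lean` (`viol3`): `t = card W > 0`, the `A i` are nonempty, pairwise
adjacent, `viol3_enum` gives `u`.  Let `R x y = ∑ p, ∑ q, r (u x p) (u y q)` (symmetric).  `place3` for `u ∘ π` for the six
permutations `π` of `Fin 3` gives, with `x = ecol 0 1`, `y = ecol 0 2`, `z = ecol 1 2` (all `≥ 0`, `x + y + z > 0` since `F` has an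
edge): `x R(π0)(π1) + y R(π0)(π2) + z R(π1)(π2) ≤ 0`.  Sum of the two with `{π0, π1} = {0, 1}`:
`(a) 2 x R01 + (y + z) (R02 + R12) ≤ 0`.  Sum of all six: `(b) R01 + R02 + R12 ≤ 0`.
`TCond`: `(T - 1) (y + z) ≤ 2 x`, `T ≥ 2`, so `y + z ≤ 2 x`, `x > 0`.  If `y + z = 2 x` then `T = 2` and (b) is the claim
`(c) (T - 1) R01 + R02 + R12 ≤ 0`.  Otherwise `(2 x - y - z) * (c) = (T - 2) * (a) + (2 x - (T - 1) (y + z)) * (b)`
(check: coefficient of `R01`: `2x (T-2) + 2x - (T-1)(y+z) = (T-1)(2x - y - z)`; of `R02`: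
`(T-2)(y+z) + 2x - (T-1)(y+z) = 2x - y - z`).
But `t * (c) = ∑_{a ∈ A 0, b ∈ A 1, c ∈ A 2} ((T - 1) r a b + r a c + r b c) > 0` (as at the end of `viol3`).
-/

open Finset
open scoped Classical

namespace Pool.TCF
open Pool.OCY Pool.OCG

private theorem viol3T_arith {T X Y Z a b c : ℝ} (hT : 2 ≤ T) (hC : (T - 1) * (Y + Z) ≤ 2 * X)
    (hX : 0 ≤ X) (hY : 0 ≤ Y) (hZ : 0 ≤ Z) (hpos : 0 < X + Y + Z)
    (ha : 2 * X * a + (Y + Z) * (b + c) ≤ 0) (hb : (X + Y + Z) * (a + b + c) ≤ 0) :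
    (T - 1) * a + b + c ≤ 0 := by
  have hb' : a + b + c ≤ 0 := by
    by_contra hcon
    push Not at hcon
    exact absurd hb (not_le.2 (mul_pos hpos hcon))
  have hYZ : Y + Z ≤ 2 * X := by nlinarith
  rcases hYZ.eq_or_lt with h | h
  · have h2 : 0 < Y + Z := by linarith
    have hT2 : T = 2 := by
      have : (T - 2) * (Y + Z) ≤ 0 := by nlinarith
      have h3 : T - 2 ≤ 0 := by
        by_contra hcon
        push Not at hcon
        exact absurd this (not_le.2 (mul_pos hcon h2))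
      linarith
    rw [hT2]
    linarith
  · have h2 : 0 < 2 * X - Y - Z := by linarith
    have h3 : (2 * X - Y - Z) * ((T - 1) * a + b + c) ≤ 0 := by
      have e : (2 * X - Y - Z) * ((T - 1) * a + b + c)
          = (T - 2) * (2 * X * a + (Y + Z) * (b + c)) + (2 * X - (T - 1) * (Y + Z)) * (a + b + c) := by ring
      rw [e]
      have h4 : (T - 2) * (2 * X * a + (Y + Z) * (b + c)) ≤ 0 :=
        mul_nonpos_of_nonneg_of_nonpos (by linarith) ha
      have h5 : (2 * X - (T - 1) * (Y + Z)) * (a + b + c) ≤ 0 :=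
        mul_nonpos_of_nonneg_of_nonpos (by linarith) hb'
      linarith
    by_contra hcon
    push Not at hcon
    exact absurd h3 (not_le.2 (mul_pos h2 hcon))

theorem viol3T {W V : Type*} [Fintype W] {F : SimpleGraph W} (hF : F ≠ ⊥) {c : W → Fin 3}
    (hc : Prop3 F c) {T : ℝ} (hT : TCond F c T) {G : SimpleGraph V} {r : V → V → ℝ}
    (hs : ∀ a b, r a b = r b a) (hr : CopNonpos F G r) (A : Fin 3 → Finset V)
    (hA : ∀ i, (A i).card = Fintype.card W)
    (hP : ∀ a ∈ A 0, ∀ b ∈ A 1, ∀ c ∈ A 2, P3 G T r a b c) : False := by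
  obtain ⟨i0, j0, hij0⟩ : ∃ i j, F.Adj i j := by
    by_contra hcon
    push Not at hcon
    exact hF (by
      refine SimpleGraph.ext ?_
      funext i j
      simp [hcon i j])
  have hpos : (0 : ℝ) < (ecol F c 0 1 : ℝ) + ecol F c 0 2 + ecol F c 1 2 := by
    have h := sum_ecol hc (fun _ _ => (1 : ℝ)) (fun _ _ => rfl)
    have h8 : (0 : ℝ) < ∑ i, ∑ j, (if F.Adj i j then (1 : ℝ) else 0) := by
      refine Finset.sum_pos' (fun i _ => Finset.sum_nonneg fun j _ => by split_ifs <;> norm_num) ⟨i0, Finset.mem_univ _, ?_⟩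
      refine Finset.sum_pos' (fun j _ => by split_ifs <;> norm_num) ⟨j0, Finset.mem_univ _, ?_⟩
      rw [if_pos hij0]
      norm_num
    have h9 : ∑ i, ∑ j, (if F.Adj i j then (1 : ℝ) else 0)
        = 2 * ((ecol F c 0 1 : ℝ) * 1 + ecol F c 0 2 * 1 + ecol F c 1 2 * 1) := h
    rw [h9] at h8
    linarith
  set t := Fintype.card W with ht
  have htp : 0 < t := by
    have : Nonempty W := ⟨i0⟩
    exact Fintype.card_pos
  have hne : ∀ i, (A i).Nonempty := by
    intro i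
    rw [← Finset.card_pos, hA i]
    exact htp
  obtain ⟨a0, ha0⟩ := hne 0
  obtain ⟨b0, hb0⟩ := hne 1
  obtain ⟨c0, hc0⟩ := hne 2
  have h01 : ∀ a ∈ A 0, ∀ b ∈ A 1, G.Adj a b := fun a ha b hb => (hP a ha b hb c0 hc0).1
  have h02 : ∀ a ∈ A 0, ∀ c ∈ A 2, G.Adj a c := fun a ha c hc => (hP a ha b0 hb0 c hc).2.1
  have h12 : ∀ b ∈ A 1, ∀ c ∈ A 2, G.Adj b c := fun b hb c hc => (hP a0 ha0 b hb c hc).2.2.1
  have hadj : ∀ i j : Fin 3, i ≠ j → ∀ v ∈ A i, ∀ w ∈ A j, G.Adj v w := by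
    intro i j hij v hv w hw
    fin_cases i <;> fin_cases j
    · exact absurd rfl hij
    · exact h01 v hv w hw
    · exact h02 v hv w hw
    · exact (h01 w hw v hv).symm
    · exact absurd rfl hij
    · exact h12 v hv w hw
    · exact (h02 w hw v hv).symm
    · exact (h12 w hw v hv).symm
    · exact absurd rfl hij
  obtain ⟨u, hu1, hu2⟩ := viol3_enum A hA (fun i j hij v hv hw => (hadj i j hij v hv v hw).ne rfl)
  set R : Fin 3 → Fin 3 → ℝ := fun x y => ∑ p, ∑ q, r (u x p) (u y q) with hR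
  have hsym : ∀ x y, R x y = R y x := by
    intro x y
    simp only [hR]
    rw [Finset.sum_comm]
    exact Finset.sum_congr rfl (fun _ _ => Finset.sum_congr rfl (fun _ _ => hs _ _))
  have hpl : ∀ π : Fin 3 → Fin 3, Function.Injective π →
      (ecol F c 0 1 : ℝ) * R (π 0) (π 1) + ecol F c 0 2 * R (π 0) (π 2) + ecol F c 1 2 * R (π 1) (π 2) ≤ 0 := by
    intro π hπ
    refine place3 hF hc hs hr (fun x p => u (π x) p) ?_ ?_
    · intro x y p q h
      obtain ⟨h1, h2⟩ := hu2 _ _ _ _ h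
      exact ⟨hπ h1, h2⟩
    · intro x y hxy p q
      exact hadj _ _ (fun h => hxy (hπ h)) _ (hu1 _ _) _ (hu1 _ _)
  have e1 := hpl ![0, 1, 2] (by decide)
  have e2 := hpl ![1, 0, 2] (by decide)
  have e3 := hpl ![0, 2, 1] (by decide)
  have e4 := hpl ![1, 2, 0] (by decide)
  have e5 := hpl ![2, 0, 1] (by decide)
  have e6 := hpl ![2, 1, 0] (by decide)
  simp only [Matrix.cons_val_zero, Matrix.cons_val_one, Matrix.cons_val_two, Matrix.cons_val, Matrix.head_cons,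
    Matrix.tail_cons] at e1 e2 e3 e4 e5 e6
  rw [hsym 1 0] at e2
  rw [hsym 2 1] at e3
  rw [hsym 1 0, hsym 2 0] at e4
  rw [hsym 2 0, hsym 2 1] at e5
  rw [hsym 2 1, hsym 2 0, hsym 1 0] at e6
  have hcc : (T - 1) * R 0 1 + R 0 2 + R 1 2 ≤ 0 := by
    refine viol3T_arith hT.1 hT.2 (Nat.cast_nonneg _) (Nat.cast_nonneg _) (Nat.cast_nonneg _) hpos ?_ ?_
    · nlinarith [e1, e2]
    · nlinarith [e1, e2, e3, e4, e5, e6]
  have hS : 0 < ∑ p : Fin t, ∑ q : Fin t, ∑ w : Fin t, ((T - 1) * r (u 0 p) (u 1 q) +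
      r (u 0 p) (u 2 w) + r (u 1 q) (u 2 w)) := by
    have hnt : (Finset.univ : Finset (Fin t)).Nonempty := ⟨⟨0, htp⟩, Finset.mem_univ _⟩
    refine Finset.sum_pos (fun p _ => Finset.sum_pos (fun q _ => Finset.sum_pos (fun w _ => ?_)
      hnt) hnt) hnt
    have h := (hP _ (hu1 0 p) _ (hu1 1 q) _ (hu1 2 w)).2.2.2
    nlinarith [h]
  have hS2 : ∑ p : Fin t, ∑ q : Fin t, ∑ w : Fin t, ((T - 1) * r (u 0 p) (u 1 q) +
      r (u 0 p) (u 2 w) + r (u 1 q) (u 2 w)) =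
      t * (R 0 2 + (T - 1) * R 0 1 + R 1 2) := by
    simp only [Finset.sum_add_distrib, Finset.sum_const, Finset.card_univ, Fintype.card_fin,
      nsmul_eq_mul, ← Finset.mul_sum, hR]
    ring
  rw [hS2] at hS
  have : (t : ℝ) * (R 0 2 + (T - 1) * R 0 1 + R 1 2) ≤ 0 :=
    mul_nonpos_of_nonneg_of_nonpos (Nat.cast_nonneg _) (by linarith)
  linarith

end Pool.TCF
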