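import Pool.Agent.OCY.Box
import Pool.Agent.TCF.Viol3T

/-!
There are few violating triples.
-/

open Finset
open scoped Classical

namespace Pool.TCF
open Pool.OCY Pool.OCG

theorem few3 {W : Type} [Fintype W] {F : SimpleGraph W} (hF : F ≠ ⊥) {c : W → Fin 3}
    (hc : Prop3 F c) {T : ℝ} (hT : TCond F c T) {τ : ℝ} (hτ : 0 < τ) :
    ∃ n₀ : ℕ, ∀ (V : Type) [Fintype V],
    n₀ ≤ Fintype.card V → ∀ (G : SimpleGraph V) (r : V → V → ℝ), (∀ a b, r a b = r b a) →
      CopNonpos F G r →
      ((univ.filter fun x : V × V × V => P3 G T r x.1 x.2.1 x.2.2).card : ℝ)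
        ≤ τ * (Fintype.card V : ℝ) ^ 3 := by
  obtain ⟨n2, h2⟩ := box 3 (Fintype.card W) τ hτ
  refine ⟨n2, ?_⟩
  intro V _ hn G r hs hr
  by_contra hlt
  push Not at hlt
  have hcd : (univ.filter fun x : V × V × V =>
      P3 G T r x.1 x.2.1 x.2.2).card =
      (univ.filter fun x : Fin 3 → V => P3 G T r (x 0) (x 1) (x 2)).card := by
    refine Finset.card_bij' (fun q _ => ![q.1, q.2.1, q.2.2])
      (fun x _ => (x 0, x 1, x 2)) ?_ ?_ ?_ ?_
    · intro q hq
      simp only [mem_filter, mem_univ, true_and] at hq ⊢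
      exact hq
    · intro x hx
      simp only [mem_filter, mem_univ, true_and] at hx ⊢
      exact hx
    · intro q hq
      rfl
    · intro x hx
      funext i
      fin_cases i <;> rfl
  rw [hcd] at hlt
  obtain ⟨X, hX1, hX2⟩ := h2 V hn
    (fun x : Fin 3 → V => P3 G T r (x 0) (x 1) (x 2)) hlt.le
  refine viol3T hF hc hT hs hr X hX1 ?_
  intro a ha b hb e he
  have := hX2 ![a, b, e] (by
    intro i
    fin_cases i
    · exact ha
    · exact hb
    · exact he)
  exact this

end Pool.TCF
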