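import Pool.Agent.OCY.Phi

/-! The four point inequality from the triangle inequalities alone, `T ≥ 2`: two or more missing
pairs. -/

open Finset
open scoped Classical

namespace Pool.TCF

open Pool.OCY

lemma half3 {T : ℝ} (hT : 2 ≤ T) (x x' : ℝ) : x ≤ phi T x x' + (T + 1) * phi T x' x := by
  have hT0 : 0 < T := by linarith
  have h1 := phi_4' hT0 x x'
  have h2 := mul_le_mul_of_nonneg_left (phi_3' hT0 x' x) (by linarith : (0 : ℝ) ≤ T + 1)
  have h3 : 2 * T ^ 2 * x ≤ 2 * T ^ 2 * (phi T x x' + (T + 1) * phi T x' x) := by linarith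
  exact le_of_mul_le_mul_left h3 (by positivity)

/-- only the pair `ab` is present -/
lemma pat3 {T : ℝ} (hT : 2 ≤ T) {x x' z z' ab : ℝ} (c1 : ab ≤ x + z) :
    ab ≤ phi T x x' + (T + 1) * phi T x' x + (phi T z z' + (T + 1) * phi T z' z) := by
  have := half3 hT x x'
  have := half3 hT z z'
  linarith

/-- present pairs `ab`, `a'c` -/
lemma pat2o {T : ℝ} {x x' z z' ab a'c : ℝ} (c1 : ab ≤ x + z) (c4 : a'c ≤ x' + z') :
    ab + a'c ≤ phi T x x' + phi T x' x + (phi T z z' + phi T z' z) := by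
  have := phi_1' T x x'
  have := phi_1' T x' x
  have := phi_1' T z z'
  have := phi_1' T z' z
  linarith

/-- the multiplier of the full end of a tight edge, cases 1, 2, 4 -/
lemma starh {T : ℝ} (hT : 2 ≤ T) (x x' : ℝ) :
    (2 * x ≤ (T + 2) * (-(T - 1) * phi T x x' + (T + 1) * phi T x' x)) ∨
    (2 * T ^ 2 * phi T x x' = T * (x' - x) + 2 * x ∧ T ^ 2 * (x + x') ≤ T * (x' - x) + 2 * x ∧
      -(T * (x + x')) ≤ T * (x' - x) + 2 * x ∧
      T * (T - 1) * (x + x') - 2 * x' ≤ T * (x' - x) + 2 * x) := by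
  have hT0 : 0 < T := by linarith
  have hT1 : 0 < T - 1 := by linarith
  have g1 := phi_1' T x' x
  have g2 := phi_2' hT0 x' x
  have g3 := phi_3' hT0 x' x
  set G := phi T x' x with hG
  have w1 : 0 ≤ (T + 1) * (T + 2) * (T - 1) - 2 * T ^ 2 := by
    have := mul_nonneg (by positivity : (0 : ℝ) ≤ T ^ 2) (by linarith : (0 : ℝ) ≤ T - 2)
    nlinarith
  have w2 : 0 ≤ 2 * (T + 2) * (T - 1) - 2 * T ^ 2 := by nlinarith
  have w4 : 0 ≤ T * (T + 2) * (T - 1) - 2 * T ^ 2 := by
    have := mul_nonneg hT0.le w2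
    nlinarith
  have key : ∀ P : ℝ, 2 * T ^ 2 * (T - 1) * (2 * x) ≤
      2 * T ^ 2 * (T - 1) * ((T + 2) * (-(T - 1) * P + (T + 1) * G)) →
      2 * x ≤ (T + 2) * (-(T - 1) * P + (T + 1) * G) := by
    intro P hP
    exact le_of_mul_le_mul_left hP (by positivity)
  rcases phi_cases hT0 x x' with ⟨e, q1, q2, q3⟩ | ⟨e, q1, q2, q3⟩ | ⟨e, q1, q2, q3⟩ | ⟨e, q1, q2, q3⟩
  · left
    set P := phi T x x' with hP
    apply key
    have h1 := mul_le_mul_of_nonneg_left g1
      (mul_nonneg (by positivity : (0 : ℝ) ≤ T ^ 2) w1)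
    have h3 := mul_le_mul_of_nonneg_left g3 (by positivity : (0 : ℝ) ≤ 2 * T ^ 2)
    have h5 : 2 * T ^ 2 * (T - 1) * ((T + 2) * (-(T - 1) * P))
        = T ^ 2 * (T - 1) * ((T + 2) * (-(T - 1) * (x + x'))) := by
      rw [← e]; ring
    linarith
  · left
    set P := phi T x x' with hP
    apply key
    have h1 := mul_le_mul_of_nonneg_left g1
      (mul_nonneg (by positivity : (0 : ℝ) ≤ T ^ 2) w2)
    have h2 := mul_le_mul_of_nonneg_left g2
      (by positivity : (0 : ℝ) ≤ T * (T - 1) ^ 2 * (T + 2))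
    have h3 := mul_le_mul_of_nonneg_left g3 (by positivity : (0 : ℝ) ≤ 2 * T ^ 2)
    have h5 : 2 * T ^ 2 * (T - 1) * ((T + 2) * (-(T - 1) * P))
        = T * (T - 1) * ((T + 2) * (-(T - 1) * (-(x + x')))) := by
      rw [← e]; ring
    linarith
  · right
    exact ⟨e, q1, q2, q3⟩
  · left
    set P := phi T x x' with hP
    apply key
    have h1 := mul_le_mul_of_nonneg_left g1
      (mul_nonneg (by positivity : (0 : ℝ) ≤ T ^ 2) w4)
    have h3 := mul_le_mul_of_nonneg_left g3
      (by nlinarith : (0 : ℝ) ≤ 2 * T ^ 2 + (T + 2) * (T - 1))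
    have h5 : 2 * T ^ 2 * (T - 1) * ((T + 2) * (-(T - 1) * P))
        = (T - 1) * ((T + 2) * (-(T - 1) * (T * (T - 1) * (x + x') - 2 * x'))) := by
      rw [← e]; ring
    linarith

/-- present pairs `ab`, `ac`: triangle `a b c` -/
lemma pat2c {T : ℝ} (hT : 2 ≤ T) {x x' z z' ab ac : ℝ}
    (c1 : ab ≤ x + z) (c2 : ac ≤ x + z')
    (t2 : z + z' + (T - 1) * ab + ac ≤ 0) (t3 : z + z' + ab + (T - 1) * ac ≤ 0) :
    ab + ac ≤ -(T - 1) * phi T x x' + (T + 1) * phi T x' x + (phi T z z' + phi T z' z) := by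
  have hT0 : 0 < T := by linarith
  have hs : 0 ≤ T - 2 := by linarith
  -- bounds for the left hand side
  have k1 : ab + ac ≤ 2 * x + (z + z') := by linarith
  have k2 : T * (ab + ac) ≤ -(2 * (z + z')) := by linarith
  set Λ := ab + ac with hΛ
  -- lower bounds for the multipliers
  have f1 := phi_1' T z z'
  have f2 := phi_1' T z' z
  have f3 := phi_2' hT0 z z'
  have f4 := phi_2' hT0 z' z
  set F := phi T z z' + phi T z' z with hF
  have F1 : z + z' ≤ F := by linarith
  have F2 : -(z + z') ≤ T * F := by linarith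
  rcases starh hT x x' with hc | ⟨e, q1, q2, q3⟩
  · have h1 := mul_le_mul_of_nonneg_left k1 hT0.le
    have h2 := mul_le_mul_of_nonneg_left k2 (by linarith : (0 : ℝ) ≤ T + 1)
    have h4 := mul_le_mul_of_nonneg_left F2 (by linarith : (0 : ℝ) ≤ T + 2)
    have h5 := mul_le_mul_of_nonneg_left hc hT0.le
    have : (T * (T + 2)) * Λ ≤
        (T * (T + 2)) * (-(T - 1) * phi T x x' + (T + 1) * phi T x' x + F) := by
      linarith
    exact le_of_mul_le_mul_left this (by positivity)
  · -- phi = A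
    have g2 := phi_2' hT0 x' x
    set G := phi T x' x with hG
    set P := phi T x x' with hP
    have h1 : (T - 1) * (2 * T ^ 2 * P) = (T - 1) * (T * (x' - x) + 2 * x) := by rw [e]
    have h2 := mul_le_mul_of_nonneg_left g2 (by positivity : (0 : ℝ) ≤ T * (T + 1))
    have h4 := mul_le_mul_of_nonneg_left k1 (by positivity : (0 : ℝ) ≤ 2 * T ^ 2)
    have h6 := mul_le_mul_of_nonneg_left F1 (by positivity : (0 : ℝ) ≤ 2 * T ^ 2)
    have r1 : (T + 2) * x ≤ -(T * x') := by
      have : (T - 1) * ((T + 2) * x) ≤ (T - 1) * (-(T * x')) := by linarith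
      exact le_of_mul_le_mul_left this (by linarith)
    have r2 : -x ≤ T * x' := by linarith
    have r3 : 0 ≤ x' := by
      have h8 := mul_le_mul_of_nonneg_left r2 (by linarith : (0 : ℝ) ≤ T + 2)
      have h9 : 0 ≤ (T * (T + 1)) * x' := by linarith
      exact nonneg_of_mul_nonneg_right h9 (by positivity)
    have r4 : x ≤ 0 := by
      have h8 : (T + 2) * x ≤ 0 := by
        have : 0 ≤ T * x' := by positivity
        linarith
      by_contra hc
      push Not at hc
      have : 0 < (T + 2) * x := by positivity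
      linarith
    have r5 : x * (2 * T ^ 2 + 2 * T - 1) ≤ -(T ^ 2 * x') := by
      have h8 := mul_le_mul_of_nonneg_left r1 hT0.le
      have h9 : 0 ≤ (-x) * (T ^ 2 - 1) := mul_nonneg (by linarith) (by nlinarith)
      linarith
    have : 2 * T ^ 2 * Λ ≤ 2 * T ^ 2 * (-(T - 1) * P + (T + 1) * G + F) := by
      linarith
    exact le_of_mul_le_mul_left this (by positivity)

/-- lower bound for the sum over an edge -/
lemma phi_add_ge {T : ℝ} (hT : 2 ≤ T) (x y : ℝ) :
    (|x| + |y|) / (2 * T ^ 2) ≤ phi T x y + phi T y x := by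
  have hT0 : 0 < T := by linarith
  have a1 := phi_1' T x y
  have a2 := phi_2' hT0 x y
  have a3 := phi_3' hT0 x y
  have b3 := phi_3' hT0 y x
  have b2 := phi_2' hT0 y x
  have b1 := phi_1' T y x
  have n1 := phi_nonneg hT0 x y
  have n2 := phi_nonneg hT0 y x
  rw [div_le_iff₀ (by positivity)]
  set u := phi T x y
  set v := phi T y x
  have hu : 0 ≤ T ^ 2 * u := by positivity
  have hv : 0 ≤ T ^ 2 * v := by positivity
  rcases le_total 0 x with hx | hx <;> rcases le_total 0 y with hy | hy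
  · rw [abs_of_nonneg hx, abs_of_nonneg hy]
    nlinarith
  · rw [abs_of_nonneg hx, abs_of_nonpos hy]
    nlinarith
  · rw [abs_of_nonpos hx, abs_of_nonneg hy]
    nlinarith
  · rw [abs_of_nonpos hx, abs_of_nonpos hy]
    nlinarith

end Pool.TCF
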