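import Pool.Agent.TCF.Defs
import Pool.Agent.TCF.Pat0
import Pool.Agent.TCF.Pat1
import Pool.Agent.TCF.Pat2

/-! The four point inequality on the graph, from the triangle condition. -/

open Finset
open scoped Classical

namespace Pool.TCF

open Pool.OCY

variable {V : Type*} {G : SimpleGraph V} {T : ℝ} {r : V → V → ℝ} {h : V → ℝ}

/-- the three inequalities of a triangle -/
lemma tri_ineq (hr : Hom3 G T r) (hs : ∀ a b, r a b = r b a) {a b c : V} (h1 : G.Adj a b)
    (h2 : G.Adj a c) (h3 : G.Adj b c) :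
    (T - 1) * r a b + r a c + r b c ≤ 0 ∧ r a b + (T - 1) * r a c + r b c ≤ 0 ∧
      r a b + r a c + (T - 1) * r b c ≤ 0 := by
  have e1 := hr a b c h1 h2 h3
  have e2 := hr a c b h2 h1 h3.symm
  have e3 := hr b c a h3 h1.symm h2.symm
  rw [hs c b] at e2
  rw [hs b a, hs c a] at e3
  exact ⟨e1, by linarith, by linarith⟩

lemma fp0 (hT : 2 ≤ T) (hs : ∀ a b, r a b = r b a) (hr : Hom3 G T r) (hh : IsPot G r h)
    {a a' b c : V} (he : G.Adj a a') (hf : G.Adj b c) (te : r a a' = h a + h a')
    (tf : r b c = h b + h c) (p1 : G.Adj a b) (p2 : G.Adj a c) (p3 : G.Adj a' b)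
    (p4 : G.Adj a' c) :
    r a b + r a c + r a' b + r a' c ≤
      -((T - 1) * (phi T (h a) (h a') + phi T (h a') (h a) +
        (phi T (h b) (h c) + phi T (h c) (h b)))) := by
  obtain ⟨a1, a2, a3⟩ := tri_ineq hr hs he p1 p3
  obtain ⟨b1, b2, b3⟩ := tri_ineq hr hs he p2 p4
  obtain ⟨d3, d2, d1⟩ := tri_ineq hr hs p1 p2 hf
  obtain ⟨e3, e2, e1⟩ := tri_ineq hr hs p3 p4 hf
  rw [te] at a1 a2 a3 b1 b2 b3
  rw [tf] at d1 d2 d3 e1 e2 e3
  exact pat0 (p := r a b) (q := r a c) (q' := r a' b) (p' := r a' c)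
    ⟨hT, hh _ _ p1, hh _ _ p2, hh _ _ p3, hh _ _ p4, by linarith, by linarith, by linarith,
      by linarith, by linarith, by linarith, by linarith, by linarith, by linarith, by linarith,
      by linarith, by linarith⟩

lemma fp1 (hT : 2 ≤ T) (hs : ∀ a b, r a b = r b a) (hr : Hom3 G T r) (hh : IsPot G r h)
    {a a' b c : V} (he : G.Adj a a') (hf : G.Adj b c) (te : r a a' = h a + h a')
    (tf : r b c = h b + h c) (p1 : G.Adj a b) (p2 : G.Adj a c) (p3 : G.Adj a' b) :
    r a b + r a c + r a' b ≤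
      -(T - 1) * phi T (h a) (h a') + phi T (h a') (h a) +
        (-(T - 1) * phi T (h b) (h c) + phi T (h c) (h b)) := by
  obtain ⟨a1, a2, a3⟩ := tri_ineq hr hs he p1 p3
  obtain ⟨d3, d2, d1⟩ := tri_ineq hr hs p1 p2 hf
  rw [te] at a1 a2 a3
  rw [tf] at d1 d2 d3
  exact pat1 (p := r a b) (q := r a c) (q' := r a' b)
    ⟨hT, hh _ _ p1, hh _ _ p2, hh _ _ p3, by linarith, by linarith, by linarith, by linarith,
      by linarith, by linarith⟩

lemma fp2 (hT : 2 ≤ T) (hs : ∀ a b, r a b = r b a) (hr : Hom3 G T r) (hh : IsPot G r h)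
    {a a' b c : V} (_he : G.Adj a a') (hf : G.Adj b c) (_te : r a a' = h a + h a')
    (tf : r b c = h b + h c) (p1 : G.Adj a b) (p2 : G.Adj a c) :
    r a b + r a c ≤
      -(T - 1) * phi T (h a) (h a') + (T + 1) * phi T (h a') (h a) +
        (phi T (h b) (h c) + phi T (h c) (h b)) := by
  obtain ⟨d3, d2, d1⟩ := tri_ineq hr hs p1 p2 hf
  rw [tf] at d1 d2 d3
  exact pat2c hT (hh _ _ p1) (hh _ _ p2) (by linarith) (by linarith)

/-- the four point inequality -/
lemma four_point (hT : 2 ≤ T) (hs : ∀ a b, r a b = r b a) (hr : Hom3 G T r) (hh : IsPot G r h)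
    {a a' b c : V} (he : G.Adj a a') (te : r a a' = h a + h a') (hf : G.Adj b c)
    (tf : r b c = h b + h c) :
    ext G r a b + ext G r a c + ext G r a' b + ext G r a' c ≤
      (T * (non G a b + non G a c) - (T - 1)) * phi T (h a) (h a')
      + (T * (non G a' b + non G a' c) - (T - 1)) * phi T (h a') (h a)
      + (T * (non G a b + non G a' b) - (T - 1)) * phi T (h b) (h c)
      + (T * (non G a c + non G a' c) - (T - 1)) * phi T (h c) (h b) := by
  have hT0 : 0 < T := by linarith
  have te' : r a' a = h a' + h a := by rw [hs, te, add_comm]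
  have tf' : r c b = h c + h b := by rw [hs, tf, add_comm]
  have sb : r b a = r a b := hs _ _
  have sc : r c a = r a c := hs _ _
  have sb' : r b a' = r a' b := hs _ _
  have sc' : r c a' = r a' c := hs _ _
  unfold Pool.OCY.ext Pool.OCY.non
  by_cases p1 : G.Adj a b <;> by_cases p2 : G.Adj a c <;> by_cases p3 : G.Adj a' b <;>
    by_cases p4 : G.Adj a' c <;> simp only [p1, p2, p3, p4, if_true, if_false]
  · -- all present
    have := fp0 hT hs hr hh he hf te tf p1 p2 p3 p4
    linarith
  · -- a'c missing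
    have := fp1 hT hs hr hh he hf te tf p1 p2 p3
    linarith
  · -- a'b missing
    have := fp1 hT hs hr hh he hf.symm te tf' p2 p1 p4
    linarith
  · -- a'b, a'c missing
    have := fp2 hT hs hr hh he hf te tf p1 p2
    linarith
  · -- ac missing
    have := fp1 hT hs hr hh he.symm hf te' tf p3 p4 p1
    linarith
  · -- ac, a'c missing : present ab, a'b
    have := fp2 hT hs hr hh hf he tf te p1.symm p3.symm
    linarith
  · -- ac, a'b missing
    have := pat2o (T := T) (hh _ _ p1) (hh _ _ p4)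
    linarith
  · -- only ab
    have := pat3 hT (x' := h a') (z' := h c) (hh _ _ p1)
    linarith
  · -- ab missing
    have := fp1 hT hs hr hh he.symm hf.symm te' tf' p4 p3 p2
    linarith
  · -- ab, a'c missing
    have := pat2o (T := T) (hh _ _ p2) (hh _ _ p3)
    linarith
  · -- ab, a'b missing : present ac, a'c
    have := fp2 hT hs hr hh hf.symm he tf' te p2.symm p4.symm
    linarith
  · -- only ac
    have := pat3 hT (x' := h a') (z' := h b) (hh _ _ p2)
    linarith
  · -- ab, ac missing : present a'b, a'c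
    have := fp2 hT hs hr hh he.symm hf te' tf p3 p4
    linarith
  · -- only a'b
    have := pat3 hT (x' := h a) (z' := h c) (hh _ _ p3)
    linarith
  · -- only a'c
    have := pat3 hT (x' := h a) (z' := h b) (hh _ _ p4)
    linarith
  · -- none
    have n1 := phi_nonneg hT0 (h a) (h a')
    have n2 := phi_nonneg hT0 (h a') (h a)
    have n3 := phi_nonneg hT0 (h b) (h c)
    have n4 := phi_nonneg hT0 (h c) (h b)
    have := mul_nonneg (by linarith : (0 : ℝ) ≤ T + 1) n1
    have := mul_nonneg (by linarith : (0 : ℝ) ≤ T + 1) n2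
    have := mul_nonneg (by linarith : (0 : ℝ) ≤ T + 1) n3
    have := mul_nonneg (by linarith : (0 : ℝ) ≤ T + 1) n4
    linarith

end Pool.TCF
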