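import Pool.Agent.TCF.Four
import Pool.Agent.OCY.Pot
import Pool.Agent.FNW.Pot

/-! The hom version with slack, from the triangle condition, for all real `T ≥ 2`. -/

open Finset
open scoped Classical

namespace Pool.TCF

open Pool.OCY

variable {V : Type*} [Fintype V] {G : SimpleGraph V}

/-- the double counting -/
theorem count {T κ : ℝ} (hT : 2 ≤ T)
    (hG : ∀ v, κ * Fintype.card V ≤ G.degree v)
    {r : V → V → ℝ} (hs : ∀ a b, r a b = r b a) (hr : Hom3 G T r)
    {h : V → ℝ} (hc : IsPot G r h)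
    {y : V → V → ℝ} (y0 : ∀ a b, 0 ≤ y a b) (ys : ∀ a b, y a b = y b a)
    (yt : ∀ a b, y a b ≠ 0 → G.Adj a b ∧ r a b = h a + h b)
    (y1 : ∀ a, ∑ b, y a b = 1) :
    ∑ a, ∑ b, ext G r a b ≤
      (T * (2 * (1 - κ)) - (T - 1)) * Fintype.card V * ∑ a, ∑ b, y a b * phi T (h a) (h b) := by
  have hT0 : 0 < T := by linarith
  -- pointwise inequality, multiplied by the weights
  have hp : ∀ a a' b c, y a a' * y b c * (ext G r a b + ext G r a c + ext G r a' b + ext G r a' c)
      ≤ y a a' * y b c * ((T * (non G a b + non G a c) - (T - 1)) * phi T (h a) (h a')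
      + (T * (non G a' b + non G a' c) - (T - 1)) * phi T (h a') (h a)
      + (T * (non G a b + non G a' b) - (T - 1)) * phi T (h b) (h c)
      + (T * (non G a c + non G a' c) - (T - 1)) * phi T (h c) (h b)) := by
    intro a a' b c
    by_cases h1 : y a a' = 0
    · rw [h1]; simp
    by_cases h2 : y b c = 0
    · rw [h2]; simp
    exact mul_le_mul_of_nonneg_left
      (four_point hT hs hr hc (yt _ _ h1).1 (yt _ _ h1).2 (yt _ _ h2).1 (yt _ _ h2).2)
      (mul_nonneg (y0 _ _) (y0 _ _))
  have y1' : ∀ b, ∑ a, y a b = 1 := by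
    intro b
    rw [← y1 b]
    exact Finset.sum_congr rfl fun a _ => ys a b
  -- collapsing sums
  have col : ∀ F : V → V → ℝ, ∑ a, ∑ a', ∑ b, ∑ c, y a a' * y b c * F a b = ∑ a, ∑ b, F a b := by
    intro F
    refine Finset.sum_congr rfl fun a _ => ?_
    have : ∀ a', ∑ b, ∑ c, y a a' * y b c * F a b = y a a' * ∑ b, F a b := by
      intro a'
      rw [Finset.mul_sum]
      refine Finset.sum_congr rfl fun b _ => ?_
      rw [← Finset.sum_mul, ← Finset.mul_sum, y1 b, mul_one]
    simp only [this]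
    rw [← Finset.sum_mul, y1 a, one_mul]
  have sw1 : ∀ F : V → V → V → V → ℝ, ∑ a, ∑ a', ∑ b, ∑ c, F a a' b c
      = ∑ a, ∑ a', ∑ b, ∑ c, F a' a b c := by
    intro F; rw [Finset.sum_comm]
  have sw2 : ∀ F : V → V → V → V → ℝ, ∑ a, ∑ a', ∑ b, ∑ c, F a a' b c
      = ∑ a, ∑ a', ∑ b, ∑ c, F a a' c b := by
    intro F
    refine Finset.sum_congr rfl fun a _ => Finset.sum_congr rfl fun a' _ => ?_
    rw [Finset.sum_comm]
  have sw3 : ∀ F : V → V → V → V → ℝ, ∑ a, ∑ a', ∑ b, ∑ c, F a a' b c
      = ∑ b, ∑ c, ∑ a, ∑ a', F a a' b c := by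
    intro F
    calc ∑ a, ∑ a', ∑ b, ∑ c, F a a' b c
        = ∑ a, ∑ b, ∑ a', ∑ c, F a a' b c :=
            Finset.sum_congr rfl fun a _ => Finset.sum_comm
      _ = ∑ b, ∑ a, ∑ a', ∑ c, F a a' b c :=
            Finset.sum_comm
      _ = ∑ b, ∑ a, ∑ c, ∑ a', F a a' b c :=
            Finset.sum_congr rfl fun b _ => Finset.sum_congr rfl fun a _ => Finset.sum_comm
      _ = ∑ b, ∑ c, ∑ a, ∑ a', F a a' b c :=
            Finset.sum_congr rfl fun b _ => Finset.sum_comm
  have col2 : ∀ F : V → V → ℝ, ∑ a, ∑ a', ∑ b, ∑ c, y a a' * y b c * F a c = ∑ a, ∑ b, F a b := by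
    intro F
    rw [sw2, ← col F]
    refine Finset.sum_congr rfl fun a _ => Finset.sum_congr rfl fun a' _ =>
      Finset.sum_congr rfl fun b _ => Finset.sum_congr rfl fun c _ => ?_
    rw [ys c b]
  have col3 : ∀ F : V → V → ℝ, ∑ a, ∑ a', ∑ b, ∑ c, y a a' * y b c * F a' b = ∑ a, ∑ b, F a b := by
    intro F
    rw [sw1, ← col F]
    refine Finset.sum_congr rfl fun a _ => Finset.sum_congr rfl fun a' _ =>
      Finset.sum_congr rfl fun b _ => Finset.sum_congr rfl fun c _ => ?_
    rw [ys a' a]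
  have col4 : ∀ F : V → V → ℝ, ∑ a, ∑ a', ∑ b, ∑ c, y a a' * y b c * F a' c = ∑ a, ∑ b, F a b := by
    intro F
    rw [sw1, ← col2 F]
    refine Finset.sum_congr rfl fun a _ => Finset.sum_congr rfl fun a' _ =>
      Finset.sum_congr rfl fun b _ => Finset.sum_congr rfl fun c _ => ?_
    rw [ys a' a]
  have hL : ∑ a, ∑ a', ∑ b, ∑ c, y a a' * y b c *
      (ext G r a b + ext G r a c + ext G r a' b + ext G r a' c) = 4 * ∑ a, ∑ b, ext G r a b := by
    simp only [mul_add, Finset.sum_add_distrib]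
    rw [col, col2, col3, col4]; ring
  -- number of non-neighbours
  have hnon : ∀ a, ∑ b, non G a b = Fintype.card V - G.degree a := by
    intro a
    have h1 : (G.degree a : ℝ) = ∑ b, if G.Adj a b then (1 : ℝ) else 0 := by
      rw [Finset.sum_boole, SimpleGraph.degree, SimpleGraph.neighborFinset_eq_filter]
    have h2 : (Fintype.card V : ℝ) = ∑ _b : V, (1 : ℝ) := by simp
    rw [h1, h2, ← Finset.sum_sub_distrib]
    refine Finset.sum_congr rfl fun b _ => ?_
    unfold Pool.OCY.non
    split_ifs <;> ring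
  have nons : ∀ a b, non G a b = non G b a := by
    intro a b; unfold Pool.OCY.non; simp only [G.adj_comm a b]
  set n : ℝ := (Fintype.card V : ℝ) with hn
  set M : ℝ := T * (2 * (1 - κ)) - (T - 1) with hM
  have inner : ∀ a, ∑ b, ∑ c, y b c * (T * (non G a b + non G a c) - (T - 1)) ≤ M * n := by
    intro a
    have k1 : ∀ f : V → ℝ, ∑ b, ∑ c, y b c * f b = ∑ b, f b := by
      intro f
      refine Finset.sum_congr rfl fun b _ => ?_
      rw [← Finset.sum_mul, y1 b, one_mul]
    have k2 : ∀ f : V → ℝ, ∑ b, ∑ c, y b c * f c = ∑ b, f b := by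
      intro f
      rw [Finset.sum_comm]
      refine Finset.sum_congr rfl fun b _ => ?_
      rw [← Finset.sum_mul, y1' b, one_mul]
    have e : ∀ b c, y b c * (T * (non G a b + non G a c) - (T - 1))
        = y b c * (T * non G a b) + y b c * (T * non G a c) - y b c * (T - 1) := by
      intro b c; ring
    simp only [e, Finset.sum_add_distrib, Finset.sum_sub_distrib]
    rw [k1 fun b => T * non G a b, k2 fun b => T * non G a b, k1 fun _ => (T - 1),
      ← Finset.mul_sum, hnon, Finset.sum_const, Finset.card_univ, nsmul_eq_mul, ← hn]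
    have h1 := mul_le_mul_of_nonneg_left (hG a) (by linarith : (0 : ℝ) ≤ 2 * T)
    rw [hM]
    linarith
  set S : ℝ := ∑ a, ∑ b, y a b * phi T (h a) (h b) with hS
  have hR1 : ∑ a, ∑ a', ∑ b, ∑ c, y a a' * y b c *
      ((T * (non G a b + non G a c) - (T - 1)) * phi T (h a) (h a')) ≤ M * n * S := by
    have e : ∀ a a', ∑ b, ∑ c, y a a' * y b c *
      ((T * (non G a b + non G a c) - (T - 1)) * phi T (h a) (h a'))
      = (y a a' * phi T (h a) (h a')) * ∑ b, ∑ c, y b c *
        (T * (non G a b + non G a c) - (T - 1)) := by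
      intro a a'
      rw [Finset.mul_sum]
      refine Finset.sum_congr rfl fun b _ => ?_
      rw [Finset.mul_sum]
      refine Finset.sum_congr rfl fun c _ => ?_
      ring
    simp only [e]
    rw [hS, Finset.mul_sum]
    refine Finset.sum_le_sum fun a _ => ?_
    rw [Finset.mul_sum]
    refine Finset.sum_le_sum fun a' _ => ?_
    have := mul_le_mul_of_nonneg_left (inner a)
      (mul_nonneg (y0 a a') (phi_nonneg hT0 (h a) (h a')))
    linarith
  have hR2 : ∑ a, ∑ a', ∑ b, ∑ c, y a a' * y b c *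
      ((T * (non G a' b + non G a' c) - (T - 1)) * phi T (h a') (h a)) ≤ M * n * S := by
    refine le_trans (le_of_eq ?_) hR1
    rw [sw1]
    refine Finset.sum_congr rfl fun a _ => Finset.sum_congr rfl fun a' _ =>
      Finset.sum_congr rfl fun b _ => Finset.sum_congr rfl fun c _ => ?_
    rw [ys a' a]
  have hR3 : ∑ a, ∑ a', ∑ b, ∑ c, y a a' * y b c *
      ((T * (non G a b + non G a' b) - (T - 1)) * phi T (h b) (h c)) ≤ M * n * S := by
    refine le_trans (le_of_eq ?_) hR1
    rw [sw3]
    refine Finset.sum_congr rfl fun a _ => Finset.sum_congr rfl fun a' _ =>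
      Finset.sum_congr rfl fun b _ => Finset.sum_congr rfl fun c _ => ?_
    rw [nons b a, nons c a]; ring
  have hR4 : ∑ a, ∑ a', ∑ b, ∑ c, y a a' * y b c *
      ((T * (non G a c + non G a' c) - (T - 1)) * phi T (h c) (h b)) ≤ M * n * S := by
    refine le_trans (le_of_eq ?_) hR3
    rw [sw2]
    refine Finset.sum_congr rfl fun a _ => Finset.sum_congr rfl fun a' _ =>
      Finset.sum_congr rfl fun b _ => Finset.sum_congr rfl fun c _ => ?_
    rw [ys c b]
  have htot := Finset.sum_le_sum (s := Finset.univ) fun a _ =>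
    Finset.sum_le_sum (s := Finset.univ) fun a' _ => Finset.sum_le_sum (s := Finset.univ)
      fun b _ => Finset.sum_le_sum (s := Finset.univ) fun c _ => hp a a' b c
  have hsplit : ∑ a, ∑ a', ∑ b, ∑ c, y a a' * y b c *
      ((T * (non G a b + non G a c) - (T - 1)) * phi T (h a) (h a')
      + (T * (non G a' b + non G a' c) - (T - 1)) * phi T (h a') (h a)
      + (T * (non G a b + non G a' b) - (T - 1)) * phi T (h b) (h c)
      + (T * (non G a c + non G a' c) - (T - 1)) * phi T (h c) (h b))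
      = ∑ a, ∑ a', ∑ b, ∑ c, y a a' * y b c *
      ((T * (non G a b + non G a c) - (T - 1)) * phi T (h a) (h a'))
      + ∑ a, ∑ a', ∑ b, ∑ c, y a a' * y b c *
      ((T * (non G a' b + non G a' c) - (T - 1)) * phi T (h a') (h a))
      + ∑ a, ∑ a', ∑ b, ∑ c, y a a' * y b c *
      ((T * (non G a b + non G a' b) - (T - 1)) * phi T (h b) (h c))
      + ∑ a, ∑ a', ∑ b, ∑ c, y a a' * y b c *
      ((T * (non G a c + non G a' c) - (T - 1)) * phi T (h c) (h b)) := by
    simp only [← Finset.sum_add_distrib]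
    refine Finset.sum_congr rfl fun a _ => Finset.sum_congr rfl fun a' _ =>
      Finset.sum_congr rfl fun b _ => Finset.sum_congr rfl fun c _ => ?_
    ring
  rw [hL, hsplit] at htot
  linarith

theorem hom_thm {T ε : ℝ} (hT : 2 ≤ T) (hε : 0 < ε) (hε1 : ε ≤ 1) {V : Type*} [Fintype V]
    {G : SimpleGraph V} (hG : ∀ v, (1 / 2 + 1 / (2 * T) + ε) * Fintype.card V ≤ G.degree v)
    {r : V → V → ℝ} (hs : ∀ a b, r a b = r b a) (hr : Hom3 G T r) :
    ∑ a, ∑ b, ext G r a b ≤ -(ε / (8 * T)) * tot G r := by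
  have hT0 : 0 < T := by linarith
  rcases isEmpty_or_nonempty V with hV | hV
  · simp [tot]
  have hη : 0 < 1 / (2 * T) := by positivity
  have hG' : ∀ v, (1 / 2 + 1 / (2 * T)) * Fintype.card V ≤ G.degree v := by
    intro v
    refine le_trans ?_ (hG v)
    have : (0 : ℝ) ≤ ε * Fintype.card V := by positivity
    linarith
  obtain ⟨h, hp, hmin⟩ := exists_pot hη hG' r
  obtain ⟨y, y0, ys, yt, y1⟩ := Pool.FNW.exists_mat hs hp hmin
  have hc := count hT hG hs hr hp y0 ys yt y1
  have y1' : ∀ b, ∑ a, y a b = 1 := by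
    intro b
    rw [← y1 b]
    exact Finset.sum_congr rfl fun a _ => ys a b
  set n : ℝ := (Fintype.card V : ℝ) with hn
  have hn0 : 0 ≤ n := by rw [hn]; positivity
  set S : ℝ := ∑ a, ∑ b, y a b * phi T (h a) (h b) with hS
  set H : ℝ := ∑ a, |h a| with hH
  have hH0 : 0 ≤ H := Finset.sum_nonneg fun a _ => abs_nonneg _
  -- lower bound of `S`
  have hS2 : H / (2 * T ^ 2) ≤ S := by
    have e1 : 2 * S = ∑ a, ∑ b, y a b * (phi T (h a) (h b) + phi T (h b) (h a)) := by
      have e : ∑ a, ∑ b, y a b * phi T (h b) (h a) = S := by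
        rw [hS, Finset.sum_comm]
        refine Finset.sum_congr rfl fun a _ => Finset.sum_congr rfl fun b _ => ?_
        rw [ys b a]
      simp only [mul_add, Finset.sum_add_distrib]
      rw [e, ← hS]; ring
    have e2 : ∑ a, ∑ b, y a b * ((|h a| + |h b|) / (2 * T ^ 2)) = 2 * (H / (2 * T ^ 2)) := by
      have k1 : ∀ f : V → ℝ, ∑ b, ∑ c, y b c * f b = ∑ b, f b := by
        intro f
        refine Finset.sum_congr rfl fun b _ => ?_
        rw [← Finset.sum_mul, y1 b, one_mul]
      have k2 : ∀ f : V → ℝ, ∑ b, ∑ c, y b c * f c = ∑ b, f b := by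
        intro f
        rw [Finset.sum_comm]
        refine Finset.sum_congr rfl fun b _ => ?_
        rw [← Finset.sum_mul, y1' b, one_mul]
      have e : ∀ a b, y a b * ((|h a| + |h b|) / (2 * T ^ 2))
          = y a b * (|h a| / (2 * T ^ 2)) + y a b * (|h b| / (2 * T ^ 2)) := by
        intro a b; ring
      simp only [e, Finset.sum_add_distrib]
      rw [k1 fun a => |h a| / (2 * T ^ 2), k2 fun a => |h a| / (2 * T ^ 2), ← Finset.sum_div,
        ← hH]
      ring
    have e3 : ∑ a, ∑ b, y a b * ((|h a| + |h b|) / (2 * T ^ 2))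
        ≤ ∑ a, ∑ b, y a b * (phi T (h a) (h b) + phi T (h b) (h a)) :=
      Finset.sum_le_sum fun a _ => Finset.sum_le_sum fun b _ =>
        mul_le_mul_of_nonneg_left (phi_add_ge hT _ _) (y0 _ _)
    rw [e2, ← e1] at e3
    linarith
  -- upper bound of the sum
  set E : ℝ := ∑ a, ∑ b, ext G r a b with hE
  have hEH : T * E ≤ -(ε * n * H) := by
    have e1 : T * (2 * (1 - (1 / 2 + 1 / (2 * T) + ε))) - (T - 1) = -(2 * T * ε) := by
      field_simp; ring
    rw [e1] at hc
    have e2 := mul_le_mul_of_nonneg_left hS2 (by positivity : (0 : ℝ) ≤ 2 * T * ε * n)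
    have e3 : T * (2 * T * ε * n * (H / (2 * T ^ 2))) = ε * n * H := by
      field_simp
    have e4 := mul_le_mul_of_nonneg_left e2 hT0.le
    rw [e3] at e4
    have e5 := mul_le_mul_of_nonneg_left hc hT0.le
    linarith
  -- the total
  have htot : tot G r ≤ 4 * n * H - E := by
    have k : ∀ a b, |ext G r a b| ≤ 2 * (|h a| + |h b|) - ext G r a b := by
      intro a b
      have h1 : 0 ≤ |h a| := abs_nonneg _
      have h2 : 0 ≤ |h b| := abs_nonneg _
      have h3 : h a ≤ |h a| := le_abs_self _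
      have h4 : h b ≤ |h b| := le_abs_self _
      unfold Pool.OCY.ext
      split_ifs with hab
      · have h5 := hp a b hab
        rcases abs_cases (r a b) with ⟨e, _⟩ | ⟨e, _⟩ <;> rw [e] <;> linarith
      · simp; positivity
    have k1 : ∑ a, ∑ b, (2 * (|h a| + |h b|) - ext G r a b) = 4 * n * H - E := by
      have e : ∀ a b : V, 2 * (|h a| + |h b|) - ext G r a b = 2 * |h a| + 2 * |h b| - ext G r a b := by
        intro a b; ring
      simp only [e, Finset.sum_sub_distrib, Finset.sum_add_distrib, Finset.sum_const,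
        Finset.card_univ, nsmul_eq_mul, ← Finset.mul_sum]
      rw [← hn, ← hH, ← hE]
      ring
    unfold tot
    rw [← k1]
    exact Finset.sum_le_sum fun a _ => Finset.sum_le_sum fun b _ => k a b
  have hE0 : E ≤ 0 := by
    have : 0 ≤ ε * n * H := by positivity
    by_contra hcon
    push Not at hcon
    have := mul_pos hT0 hcon
    linarith
  have hfin : 8 * T * E ≤ -(ε * tot G r) := by
    have h1 := mul_le_mul_of_nonneg_left htot hε.le
    have h2 : 0 ≤ (4 * T - ε) * (-E) := mul_nonneg (by linarith) (by linarith)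
    linarith
  have hfin2 : (8 * T) * E ≤ (8 * T) * (-(ε / (8 * T)) * tot G r) := by
    have : (8 * T) * (-(ε / (8 * T)) * tot G r) = -(ε * tot G r) := by field_simp
    rw [this]; exact hfin
  exact le_of_mul_le_mul_left hfin2 (by positivity)

end Pool.TCF
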