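import Pool.Agent.OCG.HubL

/-!
MODULE HubL3 (difficulty 3).  A rearrangement inequality on one vertex (generalises `Pool.OCG.hub_lemma`).

RECIPE.  Follow the proof of `hub_lemma` in the proved file `Pool/Agent/OCG/HubL.lean` (`Pool.OCG.top_subset` can be cited).
`n > 0` real, `q = ⌈σ n⌉₊ ≤ σ n + 1`, `q₀ = ⌈α n⌉₊ ≤ q` (`α ≤ σ`), `y = ⌊β n⌋₊` (`β n - 1 ≤ y ≤ β n`, `y ≥ 1`),
`|N| ≥ (σ + κ + η) n ≥ q + y` (`β ≤ η/2`, `8 ≤ η n`).  `Z` = top `q` elements of `N`, `Z₀` = top `q₀` of `Z`, `Y` = bottom `y` of `N \ Z`.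
`μ = min_Z f`, `m₀ = min_{Z₀} f`, `ν = max_Y f`: `f ≤ μ` on `N \ Z`, `f ≤ m₀` on `Z \ Z₀`, `f ≥ ν` on `N \ Y`, `f ≤ ν` on `Y`,
`ν ≤ μ ≤ m₀`.  `M := max 0 (-ν)`.
(A) with `U = Z₀`, `U' = Z`: `ρ m₀ + μ ≤ D`; with `U = U' = Z` (`|Z| ≥ σ n ≥ α n`): `(ρ + 1) μ ≤ D`.
Sum over `N \ Z₀` `≤ (q - q₀) m₀ + (|N| - q - y) μ + y ν`; all three numbers are `≥ 0` and `≤ n`.
* `μ ≥ 0`: `m₀ ≤ D` (`ρ ≥ 1`, `m₀ ≥ 0`), `μ ≤ D/2`.  If `ν ≥ 0`: `M = 0`, `ν ≤ D/2`, sum `≤ n D + n D/2 + n D/2`.  If `ν < 0`: `M = -ν`,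
  `y ν ≤ -(β n - 1) M`, sum `≤ n D + n D/2 - (β n - 1) M`.
* `μ < 0` (so `ν < 0`, `M = -ν`, `y ν ≤ -(β n - 1) M`): if `m₀ ≤ 0` the first two terms are `≤ 0`.  If `m₀ > 0`:
  `ρ m₀ ≤ D - μ`, and `ρ (|N| - q - y) ≥ q - q₀` because `|N| - q - y ≥ κ n + η n - β n - 1 ≥ κ n + 3` and
  `ρ (κ n + 3) ≥ σ n + 3 ≥ q`.  So `ρ ((q - q₀) m₀ + (|N| - q - y) μ) ≤ (q - q₀) (D - μ) + (q - q₀) μ = (q - q₀) D`, hence
  `(q - q₀) m₀ + (|N| - q - y) μ ≤ n D` (`ρ ≥ 1`, `D ≥ 0`).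
-/

open Finset
open scoped Classical

namespace Pool.TCF

theorem hub_lemma3 {V : Type*} (N : Finset V) (f : V → ℝ) {n α β η D σ κ ρ : ℝ} (hα : 0 < α)
    (hασ : α ≤ σ) (hσ1 : σ ≤ 1 / 2) (hκ : 0 ≤ κ) (hρ : 1 ≤ ρ) (hσκ : σ ≤ ρ * κ)
    (hβ : 0 < β) (hβ1 : β ≤ η / 2) (hη : η ≤ 1 / 2) (hn : 8 ≤ η * n)
    (hn1 : 1 ≤ β * n) (hN1 : (N.card : ℝ) ≤ n) (hN : (σ + κ + η) * n ≤ N.card) (hD : 0 ≤ D)
    (hA : ∀ U ⊆ N, ∀ U' ⊆ N, α * n ≤ U.card → σ * n ≤ U'.card → ∀ m m' : ℝ,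
      (∀ x ∈ U, m ≤ f x) → (∀ x ∈ U', m' ≤ f x) → ρ * m + m' ≤ D) :
    ∃ M : ℝ, 0 ≤ M ∧ ∃ Y ⊆ N, (Y.card : ℝ) ≤ β * n ∧ (∀ x ∈ N \ Y, -M ≤ f x) ∧
      ∃ Z ⊆ N, (Z.card : ℝ) ≤ α * n + 1 ∧
        ∑ x ∈ N \ Z, f x ≤ 2 * n * D - (β * n - 1) * M := by
  have hη0 : 0 < η := by linarith
  have hn0 : 0 < n := by
    by_contra h
    push Not at h
    nlinarith
  have hn16 : 16 ≤ n := by nlinarith
  have hσ0 : 0 < σ := lt_of_lt_of_le hα hασ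
  obtain ⟨q, hq⟩ : ∃ q : ℕ, q = ⌈σ * n⌉₊ := ⟨_, rfl⟩
  obtain ⟨q₀, hq₀⟩ : ∃ q₀ : ℕ, q₀ = ⌈α * n⌉₊ := ⟨_, rfl⟩
  obtain ⟨y, hy⟩ : ∃ y : ℕ, y = ⌊β * n⌋₊ := ⟨_, rfl⟩
  have hq1 : σ * n ≤ (q : ℝ) := by rw [hq]; exact Nat.le_ceil _
  have hq2 : (q : ℝ) ≤ σ * n + 1 := by
    rw [hq]
    exact (Nat.ceil_lt_add_one (by positivity)).le
  have hq3 : α * n ≤ (q₀ : ℝ) := by rw [hq₀]; exact Nat.le_ceil _
  have hq4 : (q₀ : ℝ) ≤ α * n + 1 := by
    rw [hq₀]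
    exact (Nat.ceil_lt_add_one (by positivity)).le
  have hqq : q₀ ≤ q := by
    rw [hq, hq₀]
    apply Nat.ceil_mono
    exact mul_le_mul_of_nonneg_right hασ hn0.le
  have hy1 : (y : ℝ) ≤ β * n := by
    rw [hy]
    exact Nat.floor_le (by positivity)
  have hy2 : β * n - 1 ≤ (y : ℝ) := by
    rw [hy]
    have := Nat.lt_floor_add_one (β * n)
    linarith
  have hy3 : 1 ≤ y := by
    rw [hy]
    exact Nat.le_floor (by exact_mod_cast hn1)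
  have hq₀0 : 0 < q₀ := by
    have h1 : (0 : ℝ) < q₀ := lt_of_lt_of_le (by positivity) hq3
    exact_mod_cast h1
  have hq0 : 0 < q := lt_of_lt_of_le hq₀0 hqq
  have hβn : β * n ≤ η / 2 * n := mul_le_mul_of_nonneg_right hβ1 hn0.le
  have hκn : 0 ≤ κ * n := mul_nonneg hκ hn0.le
  have hNexp : (σ + κ + η) * n = σ * n + κ * n + η * n := by ring
  have hηexp : η / 2 * n = η * n / 2 := by ring
  have hNc0 : (q : ℝ) + y + (κ * n + 3) ≤ N.card := by linarith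
  have hNc : q + y ≤ N.card := by
    have h1 : ((q + y : ℕ) : ℝ) ≤ N.card := by
      push_cast
      linarith
    exact_mod_cast h1
  obtain ⟨Z, hZN, hZc, hZm⟩ := Pool.OCG.top_subset N f (q := q) (by omega)
  obtain ⟨Z₀, hZ₀Z, hZ₀c, hZ₀m⟩ := Pool.OCG.top_subset Z f (q := q₀) (by omega)
  have hNZc : (N \ Z).card = N.card - q := by
    rw [Finset.card_sdiff_of_subset hZN, hZc]
  obtain ⟨Y, hYN, hYc, hYm⟩ := Pool.OCG.top_subset (N \ Z) (fun x => -f x) (q := y) (by omega)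
  have hZne : Z.Nonempty := by
    rw [← Finset.card_pos, hZc]
    exact hq0
  have hZ₀ne : Z₀.Nonempty := by
    rw [← Finset.card_pos, hZ₀c]
    exact hq₀0
  have hYne : Y.Nonempty := by
    rw [← Finset.card_pos, hYc]
    omega
  obtain ⟨z1, hz1, hz1m⟩ := Finset.exists_min_image Z f hZne
  obtain ⟨z2, hz2, hz2m⟩ := Finset.exists_min_image Z₀ f hZ₀ne
  obtain ⟨y1, hy1', hy1m⟩ := Finset.exists_max_image Y f hYne
  have hY1N : y1 ∈ N \ Z := hYN hy1'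
  have hνμ : f y1 ≤ f z1 := hZm z1 hz1 y1 hY1N
  have hμm : f z1 ≤ f z2 := hz1m z2 (hZ₀Z hz2)
  have hA1 : ρ * f z1 + f z1 ≤ D := by
    refine hA Z hZN Z hZN ?_ ?_ (f z1) (f z1) hz1m hz1m
    · rw [hZc]
      exact hq3.trans (by exact_mod_cast hqq)
    · rw [hZc]
      exact hq1
  have hA2 : ρ * f z2 + f z1 ≤ D := by
    refine hA Z₀ (hZ₀Z.trans hZN) Z hZN ?_ ?_ (f z2) (f z1) hz2m hz1m
    · rw [hZ₀c]
      exact hq3
    · rw [hZc]
      exact hq1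
  have hs1 : ∑ x ∈ Z \ Z₀, f x ≤ ((q : ℝ) - q₀) * f z2 := by
    have h1 := Finset.sum_le_card_nsmul (Z \ Z₀) f (f z2) (fun x hx => hZ₀m z2 hz2 x hx)
    rw [Finset.card_sdiff_of_subset hZ₀Z, hZc, hZ₀c, nsmul_eq_mul, Nat.cast_sub hqq] at h1
    exact h1
  have hs2 : ∑ x ∈ (N \ Z) \ Y, f x ≤ ((N.card : ℝ) - q - y) * f z1 := by
    have h1 := Finset.sum_le_card_nsmul ((N \ Z) \ Y) f (f z1) (fun x hx => by
      rw [Finset.mem_sdiff] at hx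
      exact hZm z1 hz1 x hx.1)
    rw [Finset.card_sdiff_of_subset hYN, hNZc, hYc, nsmul_eq_mul, Nat.cast_sub (by omega),
      Nat.cast_sub (by omega)] at h1
    exact h1
  have hs3 : ∑ x ∈ Y, f x ≤ (y : ℝ) * f y1 := by
    have h1 := Finset.sum_le_card_nsmul Y f (f y1) hy1m
    rw [hYc, nsmul_eq_mul] at h1
    exact h1
  have hsum : ∑ x ∈ N \ Z₀, f x = ∑ x ∈ Z \ Z₀, f x + ∑ x ∈ (N \ Z) \ Y, f x + ∑ x ∈ Y, f x := by
    have h1 := Finset.sum_sdiff (f := f) (hZ₀Z.trans hZN)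
    have h2 := Finset.sum_sdiff (f := f) hZN
    have h3 := Finset.sum_sdiff (f := f) hZ₀Z
    have h4 := Finset.sum_sdiff (f := f) hYN
    linarith
  refine ⟨max 0 (-f y1), le_max_left _ _, Y, hYN.trans Finset.sdiff_subset, ?_, ?_, Z₀,
    hZ₀Z.trans hZN, ?_, ?_⟩
  · rw [hYc]
    exact hy1
  · intro x hx
    rw [Finset.mem_sdiff] at hx
    have h1 : f y1 ≤ f x := by
      by_cases hxZ : x ∈ Z
      · exact hνμ.trans (hz1m x hxZ)
      · have h2 := hYm y1 hy1' x (Finset.mem_sdiff.mpr ⟨Finset.mem_sdiff.mpr ⟨hx.1, hxZ⟩, hx.2⟩)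
        simp only [neg_le_neg_iff] at h2
        exact h2
    have h2 := le_max_right 0 (-f y1)
    linarith
  · rw [hZ₀c]
    exact hq4
  · rw [hsum]
    obtain ⟨μ, hμ⟩ : ∃ μ, μ = f z1 := ⟨_, rfl⟩
    obtain ⟨m₀, hm₀⟩ : ∃ m₀, m₀ = f z2 := ⟨_, rfl⟩
    obtain ⟨ν, hν⟩ : ∃ ν, ν = f y1 := ⟨_, rfl⟩
    obtain ⟨p, hp⟩ : ∃ p : ℝ, p = q := ⟨_, rfl⟩
    obtain ⟨p₀, hp₀⟩ : ∃ p₀ : ℝ, p₀ = q₀ := ⟨_, rfl⟩
    obtain ⟨w, hw⟩ : ∃ w : ℝ, w = y := ⟨_, rfl⟩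
    obtain ⟨b, hb⟩ : ∃ b : ℝ, b = N.card := ⟨_, rfl⟩
    have hqq' : (q₀ : ℝ) ≤ q := by exact_mod_cast hqq
    have hq₀0' : (0 : ℝ) ≤ q₀ := Nat.cast_nonneg _
    have hy0' : (0 : ℝ) ≤ y := Nat.cast_nonneg _
    have hβ1n : 0 ≤ β * n - 1 := by linarith
    rw [← hμ] at hs2 hνμ hμm hA1 hA2
    rw [← hm₀] at hs1 hμm hA2
    rw [← hν] at hs3 hνμ ⊢
    rw [← hp] at hs1 hs2 hq1 hq2 hNc0 hqq'
    rw [← hp₀] at hs1 hqq' hq₀0'
    rw [← hw] at hs2 hs3 hy1 hy2 hNc0 hy0'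
    rw [← hb] at hs2 hNc0 hN1
    have hM : (β * n - 1) * max 0 (-ν) + w * ν ≤ 0 ∨ (0 ≤ ν ∧ max 0 (-ν) = 0) := by
      by_cases h : 0 ≤ ν
      · right
        exact ⟨h, max_eq_left (by linarith)⟩
      · left
        push Not at h
        rw [max_eq_right (by linarith)]
        nlinarith
    have hnD : 0 ≤ n * D := by positivity
    have hσn : σ * n ≤ 1 / 2 * n := mul_le_mul_of_nonneg_right hσ1 hn0.le
    have hpn : p ≤ n := by linarith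
    have hwn : w ≤ n := by
      have : η * n ≤ 1 / 2 * n := mul_le_mul_of_nonneg_right hη hn0.le
      linarith
    have h0 : (p - p₀) * m₀ + (b - p - w) * μ + w * ν ≤ 2 * n * D - (β * n - 1) * max 0 (-ν) := by
      by_cases hμ0 : μ < 0
      · have hkey : (p - p₀) * m₀ + (b - p - w) * μ ≤ n * D := by
          by_cases hm : m₀ ≤ 0
          · have h1 : (p - p₀) * m₀ ≤ 0 := mul_nonpos_of_nonneg_of_nonpos (by linarith) hm
            have h2 : (b - p - w) * μ ≤ 0 := mul_nonpos_of_nonneg_of_nonpos (by linarith) hμ0.le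
            linarith
          · push Not at hm
            have h1 : p - p₀ ≤ ρ * (b - p - w) := by
              have h2 : ρ * (κ * n + 3) ≤ ρ * (b - p - w) :=
                mul_le_mul_of_nonneg_left (by linarith) (by linarith)
              have h3 : σ * n ≤ ρ * κ * n := mul_le_mul_of_nonneg_right hσκ hn0.le
              have h4 : ρ * (κ * n + 3) = ρ * κ * n + 3 * ρ := by ring
              linarith
            have h2 : ρ * (b - p - w) * μ ≤ (p - p₀) * μ :=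
              mul_le_mul_of_nonpos_right h1 hμ0.le
            have h3 : (p - p₀) * (ρ * m₀) ≤ (p - p₀) * (D - μ) :=
              mul_le_mul_of_nonneg_left (by linarith) (by linarith)
            have h4 : (p - p₀) * D ≤ n * D := mul_le_mul_of_nonneg_right (by linarith) hD
            have h5 : n * D ≤ ρ * (n * D) := le_mul_of_one_le_left hnD hρ
            have h6 : ρ * ((p - p₀) * m₀ + (b - p - w) * μ) ≤ ρ * (n * D) := by
              have h7 : ρ * ((p - p₀) * m₀ + (b - p - w) * μ)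
                  = (p - p₀) * (ρ * m₀) + ρ * (b - p - w) * μ := by ring
              rw [h7]
              have h8 : (p - p₀) * (D - μ) + (p - p₀) * μ = (p - p₀) * D := by ring
              linarith
            exact le_of_mul_le_mul_left h6 (by linarith)
        rcases hM with hM | ⟨hM1, hM2⟩
        · linarith
        · linarith
      · push Not at hμ0
        have hm0 : 0 ≤ m₀ := by linarith
        have h1a : m₀ ≤ ρ * m₀ := le_mul_of_one_le_left hm0 hρ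
        have h2a : μ ≤ ρ * μ := le_mul_of_one_le_left hμ0 hρ
        have h1 : m₀ ≤ D := by linarith
        have h2 : μ ≤ D / 2 := by linarith
        have h3 : (p - p₀) * m₀ ≤ n * D := by
          apply mul_le_mul (by linarith) h1 hm0 (by linarith)
        have h4 : (b - p - w) * μ ≤ n * (D / 2) := by
          apply mul_le_mul (by linarith) h2 hμ0 (by linarith)
        rcases hM with hM | ⟨hM1, hM2⟩
        · linarith
        · have h5 : w * ν ≤ n * (D / 2) := by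
            apply mul_le_mul hwn (by linarith) hM1 (by linarith)
          rw [hM2]
          linarith
    linarith

end Pool.TCF
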