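import Pool.Agent.TCF.Place3
import Pool.Agent.TCF.CfgTri
import Pool.Agent.OCG.Root1

/-!
MODULE VertT (difficulty 3).  Copies of `F` with one vertex at a given vertex `a`.

RECIPE.  `t = card W ≥ 1`, `N = card V`, `δ = 1/2 + 1/(2T)`, `1 - δ = 1/2 - 1/(2T)`.
`cfg1T t` (with this `δ`) gives `X 0, X 1 ⊆ U, X 2 ⊆ U'`.  `Λ ≥ 0` (there is a `K`-edge).
For every `w : W` and every proper colouring `c'` of `F` with `c' w = 0`, `Pool.OCG.root1_one` (`n = 2`, `-1 = 2` in `Fin 3`;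
`Col F 2 c'` as in `Fin 3`: `x ≠ y → y = x + 1 ∨ x = y + 1`) gives
`(*) 2 * ∑ j, (if F.Adj w j then (if c' j = 1 then m else m') else 0) ≤ t ^ 2 Λ`.
Let `e01, e02, e12` be the `ecol`s (`ecol_comm`), `Σ_{w : c w = s} #{j | F.Adj w j, c j = s'} = ecol F c s s'`.
(A) `(*)` for `w` with `c w = 0`, `c' = c`; for `w` with `c w = 1`, `c' = ` the swap of `0` and `1`; summed:
`2 (2 e01 m + (e02 + e12) m') ≤ t ^ 3 Λ`.
(B) `(*)` for all `w`, with two colourings `c'` exchanging the two other colours: the sum of both is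
`2 d(w) (m + m') ≤ 2 t ^ 2 Λ`; an edge `w0 w1`: `m + m' ≤ t ^ 2 Λ` (if `m + m' > 0` use `d(w0) ≥ 1`; this is `Pool.OCG.root1`).
Combine as in module `Viol3T` (`x = e01`, `y = e02`, `z = e12`): if `2x = y + z` then `T = 2` and (B) is the claim
(`t ^ 2 ≤ T t ^ 3`); otherwise `(2x - y - z) ((T-1) m + m') = (T-2) (2 x m + (y+z) m') + (2x - (T-1)(y+z)) (m + m')`,
with `0 ≤ 2x - (T-1)(y+z) ≤ 2x - y - z` and `1 ≤ 2x - y - z` (integers), so
`(T-1) m + m' ≤ (T - 2) t^3 Λ / 2 + t ^ 2 Λ ≤ T t ^ 3 Λ`.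
-/

open Finset
open scoped Classical

namespace Pool.TCF
open Pool.OCY Pool.OCG

private theorem vertT_cast {W : Type} [Fintype W] (F : SimpleGraph W) (c : W → Fin 3) (s s' : Fin 3) :
    (ecol F c s s' : ℝ) = ∑ i, ∑ j, (if F.Adj i j ∧ c i = s ∧ c j = s' then (1 : ℝ) else 0) := by
  unfold ecol
  rw [Finset.card_filter]
  push_cast
  rw [Fintype.sum_prod_type]

private theorem vertT_sum {W : Type} [Fintype W] {F : SimpleGraph W} {c : W → Fin 3}
    (hc : Prop3 F c) {s s1 s2 : Fin 3} (h : ∀ x : Fin 3, x ≠ s → x = s1 ∨ x = s2) (h12 : s1 ≠ s2)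
    (m m' : ℝ) :
    ∑ i ∈ univ.filter (fun i => c i = s), ∑ j, (if F.Adj i j then (if c j = s1 then m else m') else 0)
      = (ecol F c s s1 : ℝ) * m + (ecol F c s s2 : ℝ) * m' := by
  rw [Finset.sum_filter, vertT_cast, vertT_cast, Finset.sum_mul, Finset.sum_mul,
    ← Finset.sum_add_distrib]
  refine Finset.sum_congr rfl fun i _ => ?_
  rw [Finset.sum_mul, Finset.sum_mul, ← Finset.sum_add_distrib]
  by_cases hi : c i = s
  · rw [if_pos hi]
    refine Finset.sum_congr rfl fun j _ => ?_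
    by_cases ha : F.Adj i j
    · have hj : c j ≠ s := fun hh => hc i j ha (by rw [hi, hh])
      rcases h (c j) hj with h1 | h1
      · have h2 : c j ≠ s2 := by rw [h1]; exact h12
        simp [ha, hi, h1, h12]
      · have h2 : c j ≠ s1 := by rw [h1]; exact h12.symm
        simp [ha, hi, h1, h12.symm]
    · simp [ha]
  · rw [if_neg hi]
    simp [hi]

private theorem vertT_col {W : Type} {F : SimpleGraph W} {c : W → Fin 3}
    (hc : Prop3 F c) {π : Fin 3 → Fin 3} (hπ : Function.Injective π) : Col F 2 (fun w => π (c w)) := by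
  intro i j hij
  have h1 : π (c i) ≠ π (c j) := fun h => hc i j hij (hπ h)
  have h2 : ∀ x y : Fin 3, x ≠ y → y = x + 1 ∨ x = y + 1 := by decide
  exact h2 _ _ h1

theorem vert_boundT {W : Type} [Fintype W] {F : SimpleGraph W} (hF : F ≠ ⊥) {c : W → Fin 3}
    (hc : Prop3 F c) {T : ℝ} (hT : TCond F c T) {η α : ℝ} (hη : 0 < η) (hα : 0 < α) :
    ∃ n₀ : ℕ, ∀ (V : Type) [Fintype V], n₀ ≤ Fintype.card V →
      ∀ (G K : SimpleGraph V) (S : Finset V), K ≤ G → (∀ a b, K.Adj a b → a ∈ S ∧ b ∈ S) →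
      (∀ v ∈ S, (1 / 2 + 1 / (2 * T) + η) * Fintype.card V ≤ K.degree v) →
      ∀ r : V → V → ℝ, (∀ a b, r a b = r b a) → CopNonpos F G r →
      ∀ Λ : ℝ, (∀ a b, K.Adj a b → |r a b| ≤ Λ) → ∀ a, ∀ U U' : Finset V, U ⊆ S → U' ⊆ S →
      α * Fintype.card V ≤ U.card → (1 / 2 - 1 / (2 * T)) * Fintype.card V ≤ U'.card →
      ∀ m m' : ℝ, (∀ x ∈ U, G.Adj a x ∧ m ≤ r a x) → (∀ x ∈ U', G.Adj a x ∧ m' ≤ r a x) →
      (T - 1) * m + m' ≤ T * (Fintype.card W : ℝ) ^ 3 * Λ := by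
  have hδ : (1 : ℝ) / 2 ≤ 1 / 2 + 1 / (2 * T) := by
    have hT2 : (0 : ℝ) < T := by linarith [hT.1]
    have : (0 : ℝ) ≤ 1 / (2 * T) := by positivity
    linarith
  obtain ⟨n₀, hn₀⟩ := cfg1T (Fintype.card W) hδ hη hα
  refine ⟨n₀, ?_⟩
  intro V _ hV G K S hKG hKS hdeg r hs hr Λ hΛ a U U' hU hU' hUc hU'c m m' hm hm'
  obtain ⟨X, hXc, hXd, haX, hX1, hX2, hXK⟩ := hn₀ V hV K S hKS hdeg U U' hU hU' hUc
    (by have e : (1 : ℝ) - (1 / 2 + 1 / (2 * T)) = 1 / 2 - 1 / (2 * T) := by ring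
        rw [e]; exact hU'c) a
  -- an edge of `F`
  obtain ⟨w0, w1, h01⟩ : ∃ w0 w1, F.Adj w0 w1 := by
    by_contra hne
    push Not at hne
    apply hF
    ext x y
    simp [hne x y]
  have htpos : 0 < Fintype.card W := Fintype.card_pos_iff.mpr ⟨w0⟩
  have ht1 : (1 : ℝ) ≤ (Fintype.card W : ℝ) := by exact_mod_cast htpos
  have hΛ0 : 0 ≤ Λ := by
    obtain ⟨x, hx⟩ := Finset.card_pos.mp (lt_of_lt_of_le htpos (hXc 0).ge)
    obtain ⟨y, hy⟩ := Finset.card_pos.mp (lt_of_lt_of_le htpos (hXc (0 + 1)).ge)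
    exact (abs_nonneg _).trans (hΛ x y (hXK 0 x hx y hy))
  have hneg : (-1 : Fin 3) = 2 := by decide
  have hx1 : ∀ x ∈ X 1, G.Adj a x ∧ m ≤ r a x := fun x hx => hm x (hX1 hx)
  have hx2 : ∀ x ∈ X (-1), G.Adj a x ∧ m' ≤ r a x := fun x hx => hm' x (hX2 (by rw [hneg] at hx; exact hx))
  set t : ℝ := (Fintype.card W : ℝ) with ht
  -- the inequality for a vertex
  have key : ∀ (π : Fin 3 → Fin 3), Function.Injective π → ∀ w, π (c w) = 0 →
      2 * (∑ j, if F.Adj w j then (if π (c j) = 1 then m else m') else 0) ≤ t ^ 2 * Λ := by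
    intro π hπ w hw
    exact root1_one (n := 2) (c := fun w => π (c w)) (vertT_col hc hπ) (w0 := w) hw hKG hs hr hΛ hΛ0 a X
      (fun s => (hXc s).ge) hXd haX hXK hx1 hx2
  -- (B)
  have hB : m + m' ≤ t ^ 2 * Λ := by
    obtain ⟨π, hπ, h0⟩ : ∃ π : Fin 3 → Fin 3, Function.Injective π ∧ π (c w0) = 0 :=
      ⟨fun x => x - c w0, fun x y h => sub_left_injective h, sub_self _⟩
    exact root1 (n := 2) le_rfl (c := fun w => π (c w)) (vertT_col hc hπ) h01 h0 hKG hs hr hΛ a X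
      (fun s => (hXc s).ge) hXd haX hXK hx1 hx2
  -- (A)
  have hswap : Function.Injective (Equiv.swap (0 : Fin 3) 1) := Equiv.injective _
  have hA0 : 2 * ((ecol F c 0 1 : ℝ) * m + (ecol F c 0 2 : ℝ) * m') ≤
      ((univ.filter fun i => c i = 0).card : ℝ) * (t ^ 2 * Λ) := by
    rw [← vertT_sum hc (s := 0) (s1 := 1) (s2 := 2) (by decide) (by decide), Finset.mul_sum]
    have h1 : ∑ i ∈ univ.filter (fun i => c i = 0),
        2 * (∑ j, if F.Adj i j then (if c j = 1 then m else m') else 0) ≤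
        ∑ i ∈ univ.filter (fun i => c i = 0), t ^ 2 * Λ := by
      refine Finset.sum_le_sum fun i hi => ?_
      exact key id Function.injective_id i (Finset.mem_filter.mp hi).2
    rwa [Finset.sum_const, nsmul_eq_mul] at h1
  have hA1 : 2 * ((ecol F c 1 0 : ℝ) * m + (ecol F c 1 2 : ℝ) * m') ≤
      ((univ.filter fun i => c i = 1).card : ℝ) * (t ^ 2 * Λ) := by
    rw [← vertT_sum hc (s := 1) (s1 := 0) (s2 := 2) (by decide) (by decide), Finset.mul_sum]
    have h1 : ∑ i ∈ univ.filter (fun i => c i = 1),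
        2 * (∑ j, if F.Adj i j then (if c j = 0 then m else m') else 0) ≤
        ∑ i ∈ univ.filter (fun i => c i = 1), t ^ 2 * Λ := by
      refine Finset.sum_le_sum fun i hi => ?_
      have h2 := key _ hswap i (by rw [(Finset.mem_filter.mp hi).2]; decide)
      refine le_trans (le_of_eq ?_) h2
      congr 1
      refine Finset.sum_congr rfl fun j _ => ?_
      have h3 : (Equiv.swap (0 : Fin 3) 1 (c j) = 1) ↔ c j = 0 := by
        have : ∀ x : Fin 3, (Equiv.swap (0 : Fin 3) 1 x = 1) ↔ x = 0 := by decide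
        exact this _
      simp only [h3]
    rwa [Finset.sum_const, nsmul_eq_mul] at h1
  have hcard : ((univ.filter fun i => c i = 0).card : ℝ) + ((univ.filter fun i => c i = 1).card : ℝ) ≤ t := by
    have h1 : Disjoint (univ.filter fun i => c i = 0) (univ.filter fun i => c i = 1) := by
      rw [Finset.disjoint_filter]
      intro x _ h h'
      rw [h] at h'
      exact absurd h' (by decide)
    rw [ht, ← Nat.cast_add, ← Finset.card_union_of_disjoint h1]
    exact_mod_cast Finset.card_le_univ _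
  rw [ecol_comm F c 1 0] at hA1
  set x : ℝ := (ecol F c 0 1 : ℝ) with hx
  set y : ℝ := (ecol F c 0 2 : ℝ) with hy
  set z : ℝ := (ecol F c 1 2 : ℝ) with hz
  have hA : 2 * (2 * x * m + (y + z) * m') ≤ t ^ 3 * Λ := by
    have h1 : (((univ.filter fun i => c i = 0).card : ℝ) + ((univ.filter fun i => c i = 1).card : ℝ))
        * (t ^ 2 * Λ) ≤ t * (t ^ 2 * Λ) := mul_le_mul_of_nonneg_right hcard (by positivity)
    nlinarith [h1, hA0, hA1]
  obtain ⟨hT2, hT3⟩ := hT
  have hx0 : 0 ≤ x := by positivity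
  have hy0 : 0 ≤ y := by positivity
  have hz0 : 0 ≤ z := by positivity
  have ht3 : t ^ 2 * Λ ≤ t ^ 3 * Λ := by
    have : t ^ 2 ≤ t ^ 3 := by nlinarith [sq_nonneg t]
    exact mul_le_mul_of_nonneg_right this hΛ0
  have ht3' : 0 ≤ t ^ 3 * Λ := by positivity
  have hle : y + z ≤ 2 * x := by nlinarith
  rcases eq_or_lt_of_le hle with heq | hlt
  · -- `T = 2`
    have hpos : 0 < y + z := by
      rcases (add_nonneg hy0 hz0).lt_or_eq with h | h
      · exact h
      · exfalso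
        have hxx : x = 0 := by linarith
        have hyy : y = 0 := by linarith
        have hzz : z = 0 := by linarith
        have hmem : ∀ s s' : Fin 3, (ecol F c s s' : ℝ) = 0 → ¬ (c w0 = s ∧ c w1 = s') := by
          intro s s' h0 hcc
          have h00 : ecol F c s s' = 0 := by exact_mod_cast h0
          unfold ecol at h00
          rw [Finset.card_eq_zero] at h00
          have : (w0, w1) ∈ (univ.filter fun x : W × W => F.Adj x.1 x.2 ∧ c x.1 = s ∧ c x.2 = s') :=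
            Finset.mem_filter.mpr ⟨Finset.mem_univ _, h01, hcc.1, hcc.2⟩
          rw [h00] at this
          exact absurd this (Finset.notMem_empty _)
        have hall : ∀ p q : Fin 3, p ≠ q → (p = 0 ∧ q = 1) ∨ (p = 1 ∧ q = 0) ∨ (p = 0 ∧ q = 2) ∨
          (p = 2 ∧ q = 0) ∨ (p = 1 ∧ q = 2) ∨ (p = 2 ∧ q = 1) := by decide
        rcases hall _ _ (hc w0 w1 h01) with h | h | h | h | h | h
        · exact hmem 0 1 hxx h
        · exact hmem 1 0 (by rw [ecol_comm]; exact hxx) h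
        · exact hmem 0 2 hyy h
        · exact hmem 2 0 (by rw [ecol_comm]; exact hyy) h
        · exact hmem 1 2 hzz h
        · exact hmem 2 1 (by rw [ecol_comm]; exact hzz) h
    have hT' : T = 2 := by
      by_contra hne
      have hgt : 2 < T := lt_of_le_of_ne hT2 (Ne.symm hne)
      nlinarith
    rw [hT']
    nlinarith
  · have hD : 1 ≤ 2 * x - (y + z) := by
      have h1 : ecol F c 0 2 + ecol F c 1 2 < 2 * ecol F c 0 1 := by
        have : (y + z : ℝ) < 2 * x := hlt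
        rw [hx, hy, hz] at this
        exact_mod_cast this
      have h2 : ecol F c 0 2 + ecol F c 1 2 + 1 ≤ 2 * ecol F c 0 1 := h1
      have h3 : ((ecol F c 0 2 : ℝ) + ecol F c 1 2 + 1) ≤ 2 * ecol F c 0 1 := by exact_mod_cast h2
      linarith
    have hcoef : 0 ≤ 2 * x - (T - 1) * (y + z) := by linarith
    have hcoef2 : 2 * x - (T - 1) * (y + z) ≤ 2 * x - (y + z) := by nlinarith
    have e1 : (2 * x - (y + z)) * ((T - 1) * m + m') = (T - 2) * (2 * x * m + (y + z) * m') +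
        (2 * x - (T - 1) * (y + z)) * (m + m') := by ring
    have i1 : (T - 2) * (2 * x * m + (y + z) * m') ≤ (T - 2) * (t ^ 3 * Λ / 2) :=
      mul_le_mul_of_nonneg_left (by linarith) (by linarith)
    have i2 : (2 * x - (T - 1) * (y + z)) * (m + m') ≤ (2 * x - (y + z)) * (t ^ 2 * Λ) :=
      (mul_le_mul_of_nonneg_left hB hcoef).trans (mul_le_mul_of_nonneg_right hcoef2 (by positivity))
    have i3 : (T - 2) * (t ^ 3 * Λ / 2) ≤ (2 * x - (y + z)) * ((T - 2) * (t ^ 3 * Λ / 2)) := by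
      have h0 : 0 ≤ (T - 2) * (t ^ 3 * Λ / 2) := mul_nonneg (by linarith) (by linarith)
      nlinarith
    have i4 : (2 * x - (y + z)) * ((T - 1) * m + m') ≤
        (2 * x - (y + z)) * ((T - 2) * (t ^ 3 * Λ / 2) + t ^ 2 * Λ) := by
      rw [e1, mul_add]
      linarith
    have i5 : (T - 1) * m + m' ≤ (T - 2) * (t ^ 3 * Λ / 2) + t ^ 2 * Λ :=
      le_of_mul_le_mul_left i4 (by linarith)
    have i6 : (T - 2) * (t ^ 3 * Λ / 2) + t ^ 2 * Λ ≤ T * (t ^ 3 * Λ) := by nlinarith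
    calc (T - 1) * m + m' ≤ T * (t ^ 3 * Λ) := i5.trans i6
      _ = T * t ^ 3 * Λ := by ring

end Pool.TCF
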