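import Pool.Agent.TCF.PairT
import Pool.Agent.TCF.VertT
import Pool.Agent.OCG.Core
import Pool.Agent.TCF.HubL3

/-!
MODULE HubOne3 (difficulty 3).  The edges from one hub `a ∉ S` to `S`, for a given core `K, S'`.

RECIPE.  Copy of the proved file `Pool/Agent/OCG/HubOne.lean` (`hub_one`), with `δ = 1/2 + 1/(2T)`, `pair_boundT`, `vert_boundT`
(`α := β`), and `hub_lemma3` with `σ = 1/2 - 1/(2T)`, `κ = 1/T`, `ρ = T - 1` (`σ + κ = δ`; `σ = (T-1)/(2T) ≤ (T-1)/T = ρ κ`;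
`1/4 ≤ σ ≤ 1/2`), `α := β`, `β := η/8`, `η := η/2`, and `D = T * t ^ 3 * L` instead of `t ^ 2 * L` (`pair_boundT` gives `t ^ 2 * L ≤ D`,
since `T ≥ 1`, `t ≥ 1`).  The constant is `C = 5 T t ^ 3 / β ^ 2 + t / β`.
-/

open Finset
open scoped Classical

namespace Pool.TCF
open Pool.OCY Pool.OCG

theorem hub_one3 {W : Type} [Fintype W] {F : SimpleGraph W} (hF : F ≠ ⊥) {c : W → Fin 3}
    (hc : Prop3 F c) {T : ℝ} (hT : TCond F c T) (hB : T ≤ 3 ∨ Bow F)
    {η β : ℝ} (hη : 0 < η) (hη1 : η ≤ 1 / 8)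
    (hβ : 0 < β) (hβ1 : β ≤ η / (64 * Fintype.card W)) :
    ∃ C : ℝ, 0 < C ∧ ∃ n₀ : ℕ, ∀ (V : Type) [Fintype V], n₀ ≤ Fintype.card V →
      ∀ (G H K : SimpleGraph V) (S S' : Finset V), H ≤ G → K ≤ H → S' ⊆ S →
      (∀ a b, H.Adj a b → a ∈ S ∧ b ∈ S) → (∀ a b, K.Adj a b → a ∈ S' ∧ b ∈ S') →
      (((S \ S').card : ℝ) ≤ β * Fintype.card V) →
      (∀ v ∈ S, (1 / 2 + 1 / (2 * T) + η) * Fintype.card V ≤ H.degree v) →
      (∀ v ∈ S', (1 / 2 + 1 / (2 * T) + η - 2 * β) * Fintype.card V ≤ K.degree v) →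
      ∀ r : V → V → ℝ, (∀ a b, r a b = r b a) → CopNonpos F G r →
      (∀ a b, K.Adj a b → |r a b| ≤ tot H r / (β ^ 2 * (Fintype.card V : ℝ) ^ 2)) →
      ∀ a ∉ S, (1 / 2 + 1 / (2 * T) + η) * Fintype.card V ≤
        ((S.filter fun x => G.Adj a x).card : ℝ) →
      ∃ M : ℝ, 0 ≤ M ∧ ∃ U ⊆ S', (1 / 2 + 1 / (2 * T) + η / 2) * Fintype.card V ≤ (U.card : ℝ) ∧
        (∀ x ∈ U, G.Adj a x ∧ -M ≤ r a x) ∧
        ∑ x ∈ S, OCY.ext G r a x ≤ C * tot H r / Fintype.card V - η / 16 * Fintype.card V * M := by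
  obtain ⟨t, ht⟩ : ∃ t : ℝ, t = Fintype.card W := ⟨_, rfl⟩
  rw [← ht] at hβ1
  have hW : Nonempty W := by
    by_contra h
    rw [not_nonempty_iff] at h
    apply hF
    ext i
    exact h.elim i
  have ht1 : 1 ≤ t := by
    rw [ht]
    have : 1 ≤ Fintype.card W := Fintype.card_pos
    exact_mod_cast this
  have ht0 : 0 < t := by linarith
  have htβ : t * β ≤ η / 64 := by
    rw [le_div_iff₀ (by positivity)] at hβ1
    linarith
  have hββ : β ≤ η / 64 := by nlinarith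
  have hT2 : (2 : ℝ) ≤ T := hT.1
  have hT0 : (0 : ℝ) < T := by linarith
  have hTinv : 1 / T ≤ 1 / 2 := one_div_le_one_div_of_le (by norm_num) hT2
  have hTinv0 : 0 < 1 / T := by positivity
  have hTh : 1 / (2 * T) = 1 / T / 2 := by field_simp
  obtain ⟨δ, hδ⟩ : ∃ δ : ℝ, δ = 1 / 2 + 1 / (2 * T) := ⟨_, rfl⟩
  obtain ⟨n1, hn1⟩ := pair_boundT hF hc hT2 hB (η := η / 2) (by positivity)
  obtain ⟨n2, hn2⟩ := vert_boundT hF hc hT (η := η / 2) (α := β) (by positivity) hβ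
  refine ⟨5 * T * t ^ 3 / β ^ 2 + t / β, by positivity, max (max n1 n2) ⌈32 * (1 + t) / η⌉₊, ?_⟩
  intro V _ hV G H K S S' hHG hKH hSS hHS hKS hcS hdH hdK r hr hcop hL a ha hda
  obtain ⟨N, hN⟩ : ∃ N : ℝ, N = Fintype.card V := ⟨_, rfl⟩
  have hV1 : n1 ≤ Fintype.card V := le_trans (le_trans (le_max_left _ _) (le_max_left _ _)) hV
  have hV2 : n2 ≤ Fintype.card V := le_trans (le_trans (le_max_right _ _) (le_max_left _ _)) hV
  have hV3 : 32 * (1 + t) ≤ η * N := by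
    have h1 : ⌈32 * (1 + t) / η⌉₊ ≤ Fintype.card V := le_trans (le_max_right _ _) hV
    have h2 : 32 * (1 + t) / η ≤ N := by
      rw [hN]
      exact (Nat.le_ceil _).trans (by exact_mod_cast h1)
    rw [div_le_iff₀ hη] at h2
    linarith
  have hN0 : 0 < N := by
    by_contra h
    push Not at h
    nlinarith
  have hN64 : 64 ≤ N := by nlinarith
  obtain ⟨L, hLd⟩ : ∃ L : ℝ, L = tot H r / (β ^ 2 * (Fintype.card V : ℝ) ^ 2) := ⟨_, rfl⟩
  have htot : 0 ≤ tot H r := Finset.sum_nonneg fun _ _ => Finset.sum_nonneg fun _ _ => abs_nonneg _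
  have hL0 : 0 ≤ L := by rw [hLd]; positivity
  rw [← hLd] at hL
  have hKG : K ≤ G := hKH.trans hHG
  have hdK' : ∀ v ∈ S', (1 / 2 + 1 / (2 * T) + η / 2) * Fintype.card V ≤ K.degree v := by
    intro v hv
    refine le_trans ?_ (hdK v hv)
    rw [← hN]
    apply mul_le_mul_of_nonneg_right _ hN0.le
    linarith
  obtain ⟨Na, hNa⟩ : ∃ Na : Finset V, Na = S.filter fun x => G.Adj a x := ⟨_, rfl⟩
  obtain ⟨N', hN'⟩ : ∃ N' : Finset V, N' = S'.filter fun x => G.Adj a x := ⟨_, rfl⟩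
  rw [← hNa, ← hN, ← hδ] at hda
  have hNN : N' ⊆ Na := by
    rw [hNa, hN']
    exact Finset.filter_subset_filter _ hSS
  have hN'S : N' ⊆ S' := by
    rw [hN']
    exact Finset.filter_subset _ _
  have hN'adj : ∀ x ∈ N', G.Adj a x := by
    intro x hx
    rw [hN', Finset.mem_filter] at hx
    exact hx.2
  have hNdiff : ((Na \ N').card : ℝ) ≤ β * N := by
    rw [← hN] at hcS
    refine le_trans ?_ hcS
    have h1 : Na \ N' ⊆ S \ S' := by
      intro x hx
      rw [Finset.mem_sdiff, hNa, hN', Finset.mem_filter, Finset.mem_filter] at hx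
      rw [Finset.mem_sdiff]
      exact ⟨hx.1.1, fun h => hx.2 ⟨h, hx.1.2⟩⟩
    exact_mod_cast Finset.card_le_card h1
  have hN'c : (δ + η - β) * N ≤ (N'.card : ℝ) := by
    have h1 : ((Na \ N').card : ℝ) = Na.card - N'.card := by
      rw [Finset.card_sdiff_of_subset hNN, Nat.cast_sub (Finset.card_le_card hNN)]
    linarith
  obtain ⟨D, hD⟩ : ∃ D : ℝ, D = T * t ^ 3 * L := ⟨_, rfl⟩
  have hD0 : 0 ≤ D := by rw [hD]; positivity
  have htD : t ^ 2 * L ≤ D := by
    have h1 : (1 : ℝ) ≤ T * t := by nlinarith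
    have h2 : T * t ^ 3 * L = T * t * (t ^ 2 * L) := by ring
    rw [hD, h2]
    exact le_mul_of_one_le_left (by positivity) h1
  have hηN : η * N ≤ 1 / 8 * N := mul_le_mul_of_nonneg_right hη1 hN0.le
  have hδh : 1 / 2 ≤ δ := by rw [hδ, hTh]; linarith
  have hσκ : 1 / 2 - 1 / (2 * T) ≤ (T - 1) * (1 / T) := by
    have h1 : (T - 1) * (1 / T) = 1 - 1 / T := by field_simp
    rw [h1, hTh]
    linarith
  obtain ⟨M, hM0, Y, hYN, hYc, hYM, Z, hZN, hZc, hsumZ⟩ := hub_lemma3 N' (r a) (n := N) (α := β)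
    (β := η / 8) (η := η / 2) (D := D) (σ := 1 / 2 - 1 / (2 * T)) (κ := 1 / T) (ρ := T - 1) hβ
    (by rw [hTh]; linarith) (by rw [hTh]; linarith) hTinv0.le (by linarith) hσκ (by positivity)
    (by linarith) (by linarith) (by linarith) (by linarith)
    (by rw [hN]; exact_mod_cast Finset.card_le_univ _)
    (by
      refine le_trans ?_ hN'c
      apply mul_le_mul_of_nonneg_right _ hN0.le
      rw [hδ, hTh]
      linarith) hD0
    (by
      intro U hU U' hU' hUc hUc' m m' hm hm'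
      have h1 := hn2 V hV2 G K S' hKG hKS hdK' r hr hcop L hL a U U' (hU.trans hN'S)
        (hU'.trans hN'S) (by rw [← hN]; exact hUc) (by rw [← hN]; exact hUc') m m'
        (fun x hx => ⟨hN'adj x (hU hx), hm x hx⟩) (fun x hx => ⟨hN'adj x (hU' hx), hm' x hx⟩)
      rw [← ht] at h1
      rw [hD]
      exact h1)
  have hUc : (1 / 2 + 1 / (2 * T) + η / 2) * Fintype.card V ≤ ((N' \ Y).card : ℝ) := by
    rw [Finset.card_sdiff_of_subset hYN, Nat.cast_sub (Finset.card_le_card hYN), ← hN, ← hδ]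
    have h1 : (δ + η / 2) * N ≤ (δ + η - β) * N - η / 8 * N := by
      have h2 : (δ + η - β) * N - η / 8 * N = (δ + η - β - η / 8) * N := by ring
      rw [h2]
      apply mul_le_mul_of_nonneg_right _ hN0.le
      linarith
    linarith
  have hUa : ∀ x ∈ N' \ Y, G.Adj a x ∧ -M ≤ r a x := by
    intro x hx
    exact ⟨hN'adj x (Finset.mem_sdiff.mp hx).1, hYM x hx⟩
  refine ⟨M, hM0, N' \ Y, Finset.sdiff_subset.trans hN'S, hUc, hUa, ?_⟩
  -- the pointwise bound
  have hpt : ∀ x ∈ Na, r a x ≤ t * M + D + t / (β * N) * rho H r x := by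
    intro x hx
    rw [hNa, Finset.mem_filter] at hx
    obtain ⟨Ux, hUx, hUxc, hUxm⟩ := uset hβ H S S' hHS hSS hcS r x (hdH x hx.1)
    have h0 : 0 ≤ rho H r x := Finset.sum_nonneg fun _ _ => abs_nonneg _
    have h1 := hn1 V hV1 G K S' hKG hKS hdK' r hr hcop L hL a x hx.2 (N' \ Y) Ux
      (Finset.sdiff_subset.trans hN'S) hUx hUc (by
        refine le_trans ?_ hUxc
        rw [← hN]
        apply mul_le_mul_of_nonneg_right _ hN0.le
        linarith) M (rho H r x / (β * Fintype.card V)) hM0 (by positivity) hUa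
      (fun y hy => ⟨hHG (hUxm y hy).1, (hUxm y hy).2⟩)
    rw [← ht, ← hN] at h1
    have h2 : t * (M + rho H r x / (β * N)) + D = t * M + D + t / (β * N) * rho H r x := by ring
    linarith
  -- the sum
  have hs0 : ∑ x ∈ S, OCY.ext G r a x = ∑ x ∈ Na, r a x := by
    rw [hNa, Finset.sum_filter]
    rfl
  have hs1 : ∑ x ∈ Na, r a x = ∑ x ∈ N' \ Z, r a x + (∑ x ∈ Z, r a x + ∑ x ∈ Na \ N', r a x) := by
    have h1 := Finset.sum_sdiff (f := r a) hNN
    have h2 := Finset.sum_sdiff (f := r a) hZN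
    linarith
  have hdisj : Disjoint Z (Na \ N') := by
    rw [Finset.disjoint_left]
    intro x hx hx2
    exact (Finset.mem_sdiff.mp hx2).2 (hZN hx)
  have hs2 : ∑ x ∈ Z, r a x + ∑ x ∈ Na \ N', r a x ≤ (2 * β * N + 1) * (t * M + D)
      + t / (β * N) * tot H r := by
    rw [← Finset.sum_union hdisj]
    have h1 : ∑ x ∈ Z ∪ (Na \ N'), r a x
        ≤ ∑ x ∈ Z ∪ (Na \ N'), (t * M + D + t / (β * N) * rho H r x) := by
      refine Finset.sum_le_sum fun x hx => hpt x ?_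
      rw [Finset.mem_union] at hx
      rcases hx with hx | hx
      · exact hNN (hZN hx)
      · exact (Finset.mem_sdiff.mp hx).1
    have h2 : ∑ x ∈ Z ∪ (Na \ N'), (t * M + D + t / (β * N) * rho H r x)
        = ((Z ∪ (Na \ N')).card : ℝ) * (t * M + D)
          + t / (β * N) * ∑ x ∈ Z ∪ (Na \ N'), rho H r x := by
      rw [Finset.sum_add_distrib, Finset.sum_const, nsmul_eq_mul, Finset.mul_sum]
    have h3 : ((Z ∪ (Na \ N')).card : ℝ) ≤ 2 * β * N + 1 := by
      rw [Finset.card_union_of_disjoint hdisj]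
      push_cast
      linarith
    have h4 : ∑ x ∈ Z ∪ (Na \ N'), rho H r x ≤ tot H r := by
      refine Finset.sum_le_sum_of_subset_of_nonneg (Finset.subset_univ _) fun x _ _ => ?_
      exact Finset.sum_nonneg fun _ _ => abs_nonneg _
    have h5 : ((Z ∪ (Na \ N')).card : ℝ) * (t * M + D) ≤ (2 * β * N + 1) * (t * M + D) :=
      mul_le_mul_of_nonneg_right h3 (by positivity)
    have h6 : t / (β * N) * ∑ x ∈ Z ∪ (Na \ N'), rho H r x ≤ t / (β * N) * tot H r :=
      mul_le_mul_of_nonneg_left h4 (by positivity)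
    linarith
  rw [hs0, hs1]
  have hfin : 2 * N * D - (η / 8 * N - 1) * M + ((2 * β * N + 1) * (t * M + D)
      + t / (β * N) * tot H r)
      ≤ (5 * T * t ^ 3 / β ^ 2 + t / β) * tot H r / N - η / 16 * N * M := by
    have h1 : 2 * N * D - (η / 8 * N - 1) * M + ((2 * β * N + 1) * (t * M + D)
        + t / (β * N) * tot H r)
        = (2 * N + 2 * β * N + 1) * D + t / (β * N) * tot H r
          - (η / 8 * N - 1 - 2 * (t * β) * N - t) * M := by ring
    have h2 : (2 * N + 2 * β * N + 1) * D ≤ 5 * N * D := by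
      apply mul_le_mul_of_nonneg_right _ hD0
      nlinarith
    have h3 : 5 * N * D + t / (β * N) * tot H r
        = (5 * T * t ^ 3 / β ^ 2 + t / β) * tot H r / N := by
      rw [hD, hLd, ← hN]
      field_simp
    have h4 : η / 16 * N * M ≤ (η / 8 * N - 1 - 2 * (t * β) * N - t) * M := by
      apply mul_le_mul_of_nonneg_right _ hM0
      nlinarith
    linarith
  rw [← hN]
  linarith

end Pool.TCF
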