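import Pool.Agent.TCF.Few3
import Pool.Agent.TCF.Hubs3
import Pool.Agent.TCF.BadE3
import Pool.Agent.TCF.Clean3
import Pool.Agent.OCY.Main

/-!
Dual form of the upper bound.
-/

open Finset
open scoped Classical

namespace Pool.TCF
open Pool.OCY Pool.OCG

theorem main3 {W : Type} [Fintype W] {F : SimpleGraph W} (hF : F ≠ ⊥) {c : W → Fin 3}
    (hc : Prop3 F c) {T : ℝ} (hT : TCond F c T) (hB : T ≤ 3 ∨ Bow F) {ε : ℝ} (hε : 0 < ε) :
    ∃ n₀ : ℕ, ∀ (V : Type) [Fintype V],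
    n₀ ≤ Fintype.card V → ∀ G : SimpleGraph V,
      (∀ v, (1 / 2 + 1 / (2 * T) + ε) * Fintype.card V ≤ G.degree v) →
      ∀ r : V → V → ℝ, (∀ a b, r a b = r b a) → CopNonpos F G r →
      ∑ a, ∑ b, OCY.ext G r a b ≤ 0 := by
  have hε' : 0 < min ε (1 / 12) := lt_min hε (by norm_num)
  obtain ⟨c', hc', hclean⟩ := clean3 (T := T) (ε := min ε (1 / 12)) hT.1 hε'
    (min_le_right _ _)
  have hη : 0 < min ε (1 / 12) / 2 := by linarith
  obtain ⟨C₁, hC₁, n₁, h₁⟩ := badE3 hF hc hT.1 hB hη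
  obtain ⟨C₂, β₀, hC₂, hβ₀, n₂, h₂⟩ := hubs3 hF hc hT hB hη
  have hγ : 0 < min β₀ (c' / (C₁ + C₂ + 1)) := lt_min hβ₀ (by positivity)
  set γ := min β₀ (c' / (C₁ + C₂ + 1)) with hγdef
  have hγ1 : γ ≤ β₀ := min_le_left _ _
  have hγ2 : (C₁ + C₂) * γ ≤ c' := by
    have h : γ ≤ c' / (C₁ + C₂ + 1) := min_le_right _ _
    rw [le_div_iff₀ (by positivity)] at h
    nlinarith
  obtain ⟨τ, hτ, hcl⟩ := hclean γ hγ
  obtain ⟨n₃, h₃⟩ := few3 hF hc hT hτ
  refine ⟨max (max n₁ n₂) (max n₃ 1), fun V _ hn G hdeg r hs hr => ?_⟩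
  have hn1 : n₁ ≤ Fintype.card V := le_trans (le_trans (le_max_left _ _) (le_max_left _ _)) hn
  have hn2 : n₂ ≤ Fintype.card V := le_trans (le_trans (le_max_right _ _) (le_max_left _ _)) hn
  have hn3 : n₃ ≤ Fintype.card V := le_trans (le_trans (le_max_left _ _) (le_max_right _ _)) hn
  have hn4 : 1 ≤ Fintype.card V := le_trans (le_trans (le_max_right _ _) (le_max_right _ _)) hn
  have hN : (0 : ℝ) < Fintype.card V := by exact_mod_cast hn4
  have hP3 := h₃ V hn3 G r hs hr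
  have hdeg' : ∀ v, (1 / 2 + 1 / (2 * T) + min ε (1 / 12)) * Fintype.card V ≤
      G.degree v := by
    intro v
    refine le_trans ?_ (hdeg v)
    exact mul_le_mul_of_nonneg_right (by linarith [min_le_left ε (1 / 12)]) hN.le
  obtain ⟨S, H, hHG, hHS, hSc, hHdeg, hBad, hHub, hneg⟩ := hcl V G hdeg' r hs hP3
  have htot : 0 ≤ tot H r := Finset.sum_nonneg fun a _ => Finset.sum_nonneg fun b _ => abs_nonneg _
  have hb := h₁ V hn1 G H S hHG hHS hHdeg γ hγ.le hBad r hs hr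
  have hh := h₂ V hn2 G H S hHG hHS hHdeg hHub
    (le_trans hSc (mul_le_mul_of_nonneg_right hγ1 hN.le)) r hs hr
  have hh' : C₂ * ((Sᶜ.card : ℝ) / Fintype.card V) * tot H r ≤ C₂ * γ * tot H r := by
    refine mul_le_mul_of_nonneg_right (mul_le_mul_of_nonneg_left ?_ hC₂.le) htot
    rw [div_le_iff₀ hN]
    exact hSc
  rw [main_split _ (main_ext_symm G hs) S, main_inside r hHG hHS]
  nlinarith [mul_le_mul_of_nonneg_right hγ2 htot]

end Pool.TCF
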