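import Pool.Agent.TCF.RootG
import Pool.Agent.TCF.CfgTri
import Pool.Agent.TCF.CfgBow
import Pool.Agent.OCG.Root2

/-!
MODULE PairT (difficulty 2).  The weight of an arbitrary edge `a b` is bounded by rooted copies of `F`.

RECIPE.  `t = card W`, `N = card V`.  (Compare the proved file `Pool/Agent/OCG/PairB.lean`, theorem `pair_bound`.)
* `T ≤ 3`: then `1/2 + 1/(2T) ≥ 2/3`.  `F` has an edge `w0 w1`; compose `c` with a permutation of `Fin 3` so that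
  `c' w0 = 0`, `c' w1 = 1` (`Prop3 F c'`, so `Col F 2 c'`: in `Fin 3`, `x ≠ y → y = x + 1 ∨ x = y + 1` by `decide`).  `cfg2T t hη` and
  `Pool.OCG.root2` with `n = 2` (`-1 = 2` in `Fin 3`; `X 1 ⊆ U`, `X 2 ⊆ U ∩ U'`, `X 0 ⊆ U'`).
* `Bow F`: `u, v, b`; `cfgBow t hη` (degrees `≥ (1/2 + η) N`), `rootG BowR` with `w0 = u`, `w1 = v`; `BowR 2 s` only for
  `s = 0, 1` and `X 0 ⊆ U`, `X 1 ⊆ U`; `BowR 4 s` only for `s = 0, 3` and `X 0 ⊆ U'`, `X 3 ⊆ U'`.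
`Λ ≥ 0`: there is a `K`-edge (between the nonempty classes `X 0`, `X 1`; `t > 0`).
-/

open Finset
open scoped Classical

namespace Pool.TCF
open Pool.OCY Pool.OCG

private theorem pairT_edge {W : Type} {F : SimpleGraph W} (hF : F ≠ ⊥) : ∃ w0 w1, F.Adj w0 w1 := by
  by_contra h
  push Not at h
  apply hF
  ext a b
  simp [h a b]

private theorem pairT_perm : ∀ x y : Fin 3, x ≠ y → ∃ σ : Equiv.Perm (Fin 3), σ x = 0 ∧ σ y = 1 := by
  decide

private theorem pairT_ne : ∀ x y : Fin 3, x ≠ y → y = x + 1 ∨ x = y + 1 := by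
  decide

private theorem pairT_bow2 : ∀ s : Fin 5, BowR 2 s → s = 0 ∨ s = 1 := by
  intro s h
  fin_cases s <;> simp [BowR] at h ⊢

private theorem pairT_bow4 : ∀ s : Fin 5, BowR 4 s → s = 0 ∨ s = 3 := by
  intro s h
  fin_cases s <;> simp [BowR] at h ⊢

theorem pair_boundT {W : Type} [Fintype W] {F : SimpleGraph W} (hF : F ≠ ⊥) {c : W → Fin 3}
    (hc : Prop3 F c) {T : ℝ} (hT : 2 ≤ T) (hB : T ≤ 3 ∨ Bow F) {η : ℝ} (hη : 0 < η) :
    ∃ n₀ : ℕ, ∀ (V : Type) [Fintype V], n₀ ≤ Fintype.card V →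
      ∀ (G K : SimpleGraph V) (S : Finset V), K ≤ G → (∀ a b, K.Adj a b → a ∈ S ∧ b ∈ S) →
      (∀ v ∈ S, (1 / 2 + 1 / (2 * T) + η) * Fintype.card V ≤ K.degree v) →
      ∀ r : V → V → ℝ, (∀ a b, r a b = r b a) → CopNonpos F G r →
      ∀ Λ : ℝ, (∀ a b, K.Adj a b → |r a b| ≤ Λ) → ∀ a b, G.Adj a b →
      ∀ U U' : Finset V, U ⊆ S → U' ⊆ S →
      (1 / 2 + 1 / (2 * T) + η) * Fintype.card V ≤ U.card →
      (1 / 2 + 1 / (2 * T) + η) * Fintype.card V ≤ U'.card →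
      ∀ M M' : ℝ, 0 ≤ M → 0 ≤ M' → (∀ x ∈ U, G.Adj a x ∧ -M ≤ r a x) →
      (∀ x ∈ U', G.Adj b x ∧ -M' ≤ r b x) →
      r a b ≤ (Fintype.card W : ℝ) * (M + M') + (Fintype.card W : ℝ) ^ 2 * Λ := by
  rcases hB with hT3 | hBow
  · obtain ⟨w0, w1, h01⟩ := pairT_edge hF
    obtain ⟨σ, hσ0, hσ1⟩ := pairT_perm (c w0) (c w1) (hc w0 w1 h01)
    have hc' : Col F 2 (fun w => σ (c w)) := by
      intro i j hij
      exact pairT_ne _ _ (fun h => hc i j hij (σ.injective h))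
    obtain ⟨n₀, hn₀⟩ := cfg2T (Fintype.card W) hη
    refine ⟨n₀, ?_⟩
    intro V _ hN G K S hK hKS hdeg r hs hr Λ hΛ a b hab U U' hU hU' hUc hU'c M M' hM hM' hU1 hU'1
    have hN0 : (0 : ℝ) ≤ (Fintype.card V : ℝ) := Nat.cast_nonneg _
    have hT6 : (1 : ℝ) / 6 ≤ 1 / (2 * T) := by
      apply one_div_le_one_div_of_le <;> linarith
    have e : (2 / 3 + η) * (Fintype.card V : ℝ) ≤
        (1 / 2 + 1 / (2 * T) + η) * (Fintype.card V : ℝ) :=
      mul_le_mul_of_nonneg_right (by linarith) hN0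
    obtain ⟨X, hX1, hX2, ha, hb, hXU, hXUU, hXU', hXK⟩ :=
      hn₀ V hN K S hKS (fun v hv => e.trans (hdeg v hv)) U U' hU hU' (e.trans hUc)
        (e.trans hU'c) a b
    exact root2 (n := 2) (le_refl 2) hc' h01 hσ0 hσ1 hK hs hr hΛ a b hab X
      (fun s => (hX1 s).ge) hX2 ha hb hXK hM hM' (fun x hx => hU1 x (hXU hx))
      (fun x hx => hU1 x (mem_inter.1 (hXUU hx)).1)
      (fun x hx => hU'1 x (hXU' hx)) (fun x hx => hU'1 x (mem_inter.1 (hXUU hx)).2)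
  · obtain ⟨u, v, β, huv, hbu, hbv, hb⟩ := hBow
    obtain ⟨n₀, hn₀⟩ := cfgBow (Fintype.card W) hη
    refine ⟨n₀, ?_⟩
    intro V _ hN G K S hK hKS hdeg r hs hr Λ hΛ a b hab U U' hU hU' hUc hU'c M M' hM hM' hU1 hU'1
    have hN0 : (0 : ℝ) ≤ (Fintype.card V : ℝ) := Nat.cast_nonneg _
    have hT0 : (0 : ℝ) ≤ 1 / (2 * T) := by positivity
    have e : (1 / 2 + η) * (Fintype.card V : ℝ) ≤
        (1 / 2 + 1 / (2 * T) + η) * (Fintype.card V : ℝ) :=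
      mul_le_mul_of_nonneg_right (by linarith) hN0
    obtain ⟨X, hX1, hX2, ha, hb', hX0, hXU, hXU', hXK⟩ :=
      hn₀ V hN K S hKS (fun v hv => e.trans (hdeg v hv)) U U' hU hU' (e.trans hUc)
        (e.trans hU'c) a b
    have hΛ0 : 0 ≤ Λ := by
      have hpos : 0 < Fintype.card W := Fintype.card_pos_iff.mpr ⟨u⟩
      obtain ⟨x, hx⟩ := Finset.card_pos.mp (lt_of_lt_of_le hpos (hX1 0).ge)
      obtain ⟨y, hy⟩ := Finset.card_pos.mp (lt_of_lt_of_le hpos (hX1 1).ge)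
      exact (abs_nonneg _).trans (hΛ x y (hXK 0 1 (by simp [BowR]) x hx y hy))
    refine rootG BowR huv hb hK hs hr hΛ0 hΛ a b hab X (fun s => (hX1 s).ge) hX2 ha hb' hXK
      hM hM' ?_ ?_
    · intro s hs' x hx
      rw [hbu] at hs'
      rcases pairT_bow2 s hs' with rfl | rfl
      · exact hU1 x (mem_inter.1 (hX0 hx)).1
      · exact hU1 x (hXU hx)
    · intro s hs' x hx
      rw [hbv] at hs'
      rcases pairT_bow4 s hs' with rfl | rfl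
      · exact hU'1 x (mem_inter.1 (hX0 hx)).2
      · exact hU'1 x (hXU' hx)

end Pool.TCF
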