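import Pool.Agent.TCF.Defs
import Pool.Agent.OCG.WalkB

/-!
MODULE Place3 (difficulty 3).  The average over the placements of `F` in a blow-up of the triangle.

RECIPE.  Step 1 of the proof of `walk_box` in the proved file `Pool/Agent/OCG/WalkB.lean` (with `walkB_edge` from it), for the
colouring `χ w = c w` itself: `t = card W > 0`, `e : W ≃ Fin t`, for `ρ : Fin 3 → Fin t` the map
`f w = u (c w) (e w + ρ (c w))` is injective (`hu`) and a homomorphism (`c i ≠ c j` for an edge, `hG`), so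
`∑ i, ∑ j, (if F.Adj i j then r (f i) (f j) else 0) ≤ 0`; sum over all `ρ`; by `walkB_edge`
(`x = c i ≠ y = c j`) and `t > 0`:
`∑ i, ∑ j, (if F.Adj i j then R (c i) (c j) else 0) ≤ 0`, `R x y = ∑ p, ∑ q, r (u x p) (u y q)`, symmetric.
Each ordered pair `(i, j)` with `F.Adj i j` has `(c i, c j)` one of the six pairs `(s, s')`, `s ≠ s'`; the number of those
with given `(s, s')` is `ecol F c s s' = ecol F c s' s` (`(i, j) ↦ (j, i)`).  So the sum is
`2 (ecol 0 1 * R 0 1 + ecol 0 2 * R 0 2 + ecol 1 2 * R 1 2)`.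
-/

open Finset
open scoped Classical

namespace Pool.TCF
open Pool.OCY Pool.OCG

theorem ecol_comm {W : Type*} [Fintype W] (F : SimpleGraph W) (c : W → Fin 3) (s s' : Fin 3) :
    ecol F c s s' = ecol F c s' s := by
  unfold ecol
  refine Finset.card_bij (fun x _ => x.swap) ?_ ?_ ?_
  · intro x hx
    simp only [Finset.mem_filter, Finset.mem_univ, true_and, Prod.fst_swap, Prod.snd_swap] at hx ⊢
    exact ⟨hx.1.symm, hx.2.2, hx.2.1⟩
  · intro x _ y _ h
    exact Prod.swap_injective h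
  · intro y hy
    refine ⟨y.swap, ?_, Prod.swap_swap y⟩
    simp only [Finset.mem_filter, Finset.mem_univ, true_and, Prod.fst_swap, Prod.snd_swap] at hy ⊢
    exact ⟨hy.1.symm, hy.2.2, hy.2.1⟩

private theorem place3_self {W : Type*} [Fintype W] {F : SimpleGraph W} {c : W → Fin 3} (hc : Prop3 F c)
    (s : Fin 3) : ecol F c s s = 0 := by
  unfold ecol
  rw [Finset.card_eq_zero, Finset.filter_eq_empty_iff]
  rintro x - ⟨h, h1, h2⟩
  exact hc _ _ h (h1.trans h2.symm)

private theorem place3_count {W : Type*} [Fintype W] (F : SimpleGraph W) (c : W → Fin 3) (s s' : Fin 3) (a : ℝ) :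
    ∑ i, ∑ j, (if F.Adj i j ∧ c i = s ∧ c j = s' then a else 0) = (ecol F c s s' : ℝ) * a := by
  unfold ecol
  rw [← Fintype.sum_prod_type' (f := fun i j => if F.Adj i j ∧ c i = s ∧ c j = s' then a else 0),
    ← Finset.sum_filter, Finset.sum_const, nsmul_eq_mul]

/-- a sum over the edges of a function of the colours (ordered pairs: both orders of each edge) -/
theorem sum_ecol {W : Type*} [Fintype W] {F : SimpleGraph W} {c : W → Fin 3} (hc : Prop3 F c)
    (R : Fin 3 → Fin 3 → ℝ) (hR : ∀ x y, R x y = R y x) :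
    ∑ i, ∑ j, (if F.Adj i j then R (c i) (c j) else 0) =
      2 * ((ecol F c 0 1 : ℝ) * R 0 1 + ecol F c 0 2 * R 0 2 + ecol F c 1 2 * R 1 2) := by
  have h1 : ∀ i j, (if F.Adj i j then R (c i) (c j) else 0) =
      ∑ s, ∑ s', (if F.Adj i j ∧ c i = s ∧ c j = s' then R s s' else 0) := by
    intro i j
    by_cases hij : F.Adj i j
    · rw [Finset.sum_eq_single (c i), Finset.sum_eq_single (c j)]
      · simp [hij]
      · intro b _ hb
        rw [if_neg]
        rintro ⟨-, -, h⟩
        exact hb h.symm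
      · intro h
        exact absurd (Finset.mem_univ _) h
      · intro b _ hb
        refine Finset.sum_eq_zero fun b' _ => ?_
        rw [if_neg]
        rintro ⟨-, h, -⟩
        exact hb h.symm
      · intro h
        exact absurd (Finset.mem_univ _) h
    · simp [hij]
  have h2 : ∑ i, ∑ j, (if F.Adj i j then R (c i) (c j) else 0) =
      ∑ s, ∑ s', ∑ i, ∑ j, (if F.Adj i j ∧ c i = s ∧ c j = s' then R s s' else 0) := by
    simp_rw [h1]
    calc ∑ i, ∑ j, ∑ s, ∑ s', (if F.Adj i j ∧ c i = s ∧ c j = s' then R s s' else 0)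
        = ∑ i, ∑ s, ∑ j, ∑ s', (if F.Adj i j ∧ c i = s ∧ c j = s' then R s s' else 0) :=
          Finset.sum_congr rfl fun i _ => Finset.sum_comm
      _ = ∑ s, ∑ i, ∑ j, ∑ s', (if F.Adj i j ∧ c i = s ∧ c j = s' then R s s' else 0) := Finset.sum_comm
      _ = ∑ s, ∑ i, ∑ s', ∑ j, (if F.Adj i j ∧ c i = s ∧ c j = s' then R s s' else 0) :=
          Finset.sum_congr rfl fun s _ => Finset.sum_congr rfl fun i _ => Finset.sum_comm
      _ = ∑ s, ∑ s', ∑ i, ∑ j, (if F.Adj i j ∧ c i = s ∧ c j = s' then R s s' else 0) :=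
          Finset.sum_congr rfl fun s _ => Finset.sum_comm
  rw [h2]
  simp_rw [place3_count]
  simp only [Fin.sum_univ_three]
  rw [place3_self hc 0, place3_self hc 1, place3_self hc 2, ecol_comm F c 1 0, ecol_comm F c 2 0,
    ecol_comm F c 2 1, hR 1 0, hR 2 0, hR 2 1]
  push_cast
  ring

theorem place3 {W V : Type*} [Fintype W] {F : SimpleGraph W} (hF : F ≠ ⊥) {c : W → Fin 3}
    (hc : Prop3 F c) {G : SimpleGraph V} {r : V → V → ℝ}
    (hs : ∀ a b, r a b = r b a) (hr : CopNonpos F G r)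
    (u : Fin 3 → Fin (Fintype.card W) → V) (hu : ∀ x y p q, u x p = u y q → x = y ∧ p = q)
    (hG : ∀ x y, x ≠ y → ∀ p q, G.Adj (u x p) (u y q)) :
    (ecol F c 0 1 : ℝ) * (∑ p, ∑ q, r (u 0 p) (u 1 q)) + ecol F c 0 2 * (∑ p, ∑ q, r (u 0 p) (u 2 q))
      + ecol F c 1 2 * (∑ p, ∑ q, r (u 1 p) (u 2 q)) ≤ 0 := by
  obtain ⟨i0, j0, hij0⟩ : ∃ i j, F.Adj i j := by
    by_contra hcon
    push Not at hcon
    exact hF (by
      refine SimpleGraph.ext ?_
      funext i j
      simp [hcon i j])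
  have hne : Nonempty W := ⟨i0⟩
  have ht0 : 0 < Fintype.card W := Fintype.card_pos
  have : NeZero (Fintype.card W) := ⟨ht0.ne'⟩
  have htR : (0 : ℝ) < (Fintype.card W : ℝ) := by exact_mod_cast ht0
  let e : W ≃ Fin (Fintype.card W) := Fintype.equivFin W
  set R : Fin 3 → Fin 3 → ℝ := fun x y => ∑ p, ∑ q, r (u x p) (u y q) with hR
  have hRs : ∀ x y, R x y = R y x := by
    intro x y
    show ∑ p, ∑ q, r (u x p) (u y q) = ∑ p, ∑ q, r (u y p) (u x q)
    rw [Finset.sum_comm]
    exact Finset.sum_congr rfl fun p _ => Finset.sum_congr rfl fun q _ => hs _ _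
  have step1 : ∑ i, ∑ j, (if F.Adj i j then R (c i) (c j) else 0) ≤ 0 := by
    have h1 : ∀ ρ : Fin 3 → Fin (Fintype.card W), ∑ i, ∑ j, (if F.Adj i j then
        r (u (c i) (e i + ρ (c i))) (u (c j) (e j + ρ (c j))) else 0) ≤ 0 := by
      intro ρ
      refine hr (fun w => u (c w) (e w + ρ (c w))) ?_ ?_
      · intro w w' hw
        obtain ⟨h1, h2⟩ := hu _ _ _ _ hw
        rw [h1] at h2
        exact e.injective (add_right_cancel h2)
      · intro i j hij
        exact hG _ _ (hc i j hij) _ _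
    have h2 := Finset.sum_nonpos fun (ρ : Fin 3 → Fin (Fintype.card W)) (_ : ρ ∈ Finset.univ) => h1 ρ
    rw [Finset.sum_comm] at h2
    have h3 : (Fintype.card W : ℝ) ^ 2 * ∑ i, ∑ ρ : Fin 3 → Fin (Fintype.card W), ∑ j, (if F.Adj i j then
        r (u (c i) (e i + ρ (c i))) (u (c j) (e j + ρ (c j))) else 0)
        = (Fintype.card W : ℝ) ^ 3 * ∑ i, ∑ j, (if F.Adj i j then R (c i) (c j) else 0) := by
      rw [Finset.mul_sum, Finset.mul_sum]
      refine Finset.sum_congr rfl fun i _ => ?_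
      rw [Finset.sum_comm, Finset.mul_sum, Finset.mul_sum]
      refine Finset.sum_congr rfl fun j _ => ?_
      by_cases hij : F.Adj i j
      · simp only [hij, if_true]
        exact walkB_edge r u (hc i j hij) (e i) (e j)
      · simp [hij]
    have h4 : (Fintype.card W : ℝ) ^ 3 * ∑ i, ∑ j, (if F.Adj i j then R (c i) (c j) else 0) ≤ 0 := by
      rw [← h3]
      exact mul_nonpos_of_nonneg_of_nonpos (by positivity) h2
    have h5 : (0 : ℝ) < (Fintype.card W : ℝ) ^ 3 := by positivity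
    by_contra hcon
    push Not at hcon
    exact absurd h4 (not_le.2 (mul_pos h5 hcon))
  rw [sum_ecol hc R hRs] at step1
  have h6 : (ecol F c 0 1 : ℝ) * R 0 1 + ecol F c 0 2 * R 0 2 + ecol F c 1 2 * R 1 2 ≤ 0 := by linarith
  exact h6

end Pool.TCF
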