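import Pool.Agent.TCF.Defs

/-!
MODULE RootG (difficulty 2).  A copy of `F` with the edge `w0 w1` at a given edge `a b`, the rest in a blow-up of a template.

RECIPE.  Copy of the proved file `Pool/Agent/OCG/Root2.lean` (theorem `root2`), with the cyclic adjacency replaced by the
relation `R`: `g w ∈ X (c w)` injective, `f w0 = a`, `f w1 = b`, `f w = g w` otherwise.  An edge `i j` with `i, j ∉ {w0, w1}` has
`R (c i) (c j)`, so it is a `K`-edge of weight `≥ -Λ`; an edge `w0 j`, `j ≠ w1`, has `R (c w0) (c j)`, so weight `≥ -M` by `h1`; an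
edge `w1 j`, `j ≠ w0`, has `R (c w1) (c j)`, weight `≥ -M'` by `h2`.  (`g i`, `g j` are only used for `i, j ∉ {w0, w1}`, so `K.Adj (g i) (g j)`
is needed only for those; `hc` does not speak about the edge `w0 w1`.)
`hr f` (both orders of each edge): `2 r a b - 2 t M - 2 t M' - t ^ 2 Λ ≤ 0`.
-/

open Finset
open scoped Classical

namespace Pool.TCF
open Pool.OCY Pool.OCG

theorem rootG {W V : Type*} [Fintype W] {F : SimpleGraph W} {m : ℕ} (R : Fin m → Fin m → Prop)
    {c : W → Fin m} {w0 w1 : W} (h01 : F.Adj w0 w1)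
    (hc : ∀ i j, F.Adj i j → ¬ (i = w0 ∧ j = w1) → ¬ (i = w1 ∧ j = w0) → R (c i) (c j))
    {G K : SimpleGraph V} (hK : K ≤ G) {r : V → V → ℝ}
    (hs : ∀ a b, r a b = r b a) (hr : CopNonpos F G r) {Λ : ℝ} (hΛ0 : 0 ≤ Λ)
    (hΛ : ∀ a b, K.Adj a b → |r a b| ≤ Λ) (a b : V) (hab : G.Adj a b)
    (X : Fin m → Finset V) (hX : ∀ s, Fintype.card W ≤ (X s).card)
    (hd : ∀ s s', s ≠ s' → Disjoint (X s) (X s')) (ha : ∀ s, a ∉ X s) (hb : ∀ s, b ∉ X s)
    (hXK : ∀ s s', R s s' → ∀ x ∈ X s, ∀ y ∈ X s', K.Adj x y) {M M' : ℝ} (hM : 0 ≤ M) (hM' : 0 ≤ M')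
    (h1 : ∀ s, R (c w0) s → ∀ x ∈ X s, G.Adj a x ∧ -M ≤ r a x)
    (h2 : ∀ s, R (c w1) s → ∀ x ∈ X s, G.Adj b x ∧ -M' ≤ r b x) :
    r a b ≤ (Fintype.card W : ℝ) * (M + M') + (Fintype.card W : ℝ) ^ 2 * Λ := by
  have hne : w0 ≠ w1 := F.ne_of_adj h01
  have hab' : a ≠ b := G.ne_of_adj hab
  have hu : ∀ s, Nonempty (W ↪ X s) := fun s => by
    apply Function.Embedding.nonempty_of_card_le
    rw [Fintype.card_coe]
    exact hX s
  let u : ∀ s, W ↪ X s := fun s => (hu s).some
  let g : W → V := fun w => (u (c w) w : V)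
  have hgX : ∀ w, g w ∈ X (c w) := fun w => (u (c w) w).2
  have hginj : Function.Injective g := by
    intro w w' hww
    by_cases hcc : c w = c w'
    · have h3 : (u (c w) w : V) = (u (c w') w' : V) := hww
      rw [hcc] at h3
      exact (u (c w')).injective (Subtype.ext h3)
    · exact absurd hww (fun h => Finset.disjoint_left.mp (hd _ _ hcc) (hgX w) (by rw [h]; exact hgX w'))
  have hga : ∀ w, g w ≠ a := fun w h => ha _ (by rw [← h]; exact hgX w)
  have hgb : ∀ w, g w ≠ b := fun w h => hb _ (by rw [← h]; exact hgX w)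
  let f : W → V := fun w => if w = w0 then a else if w = w1 then b else g w
  have hf0 : f w0 = a := if_pos rfl
  have hf1 : f w1 = b := by
    show (if w1 = w0 then a else if w1 = w1 then b else g w1) = b
    rw [if_neg (Ne.symm hne), if_pos rfl]
  have hf2 : ∀ w, w ≠ w0 → w ≠ w1 → f w = g w := fun w hw hw' => by
    show (if w = w0 then a else if w = w1 then b else g w) = g w
    rw [if_neg hw, if_neg hw']
  have hfinj : Function.Injective f := by
    intro w w' hww
    by_cases hw : w = w0
    · by_cases hw' : w' = w0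
      · rw [hw, hw']
      · by_cases hw2 : w' = w1
        · rw [hw, hf0, hw2, hf1] at hww
          exact absurd hww hab'
        · rw [hw, hf0, hf2 w' hw' hw2] at hww
          exact absurd hww.symm (hga w')
    · by_cases hw1' : w = w1
      · by_cases hw' : w' = w0
        · rw [hw1', hf1, hw', hf0] at hww
          exact absurd hww.symm hab'
        · by_cases hw2 : w' = w1
          · rw [hw1', hw2]
          · rw [hw1', hf1, hf2 w' hw' hw2] at hww
            exact absurd hww.symm (hgb w')
      · by_cases hw' : w' = w0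
        · rw [hw', hf0, hf2 w hw hw1'] at hww
          exact absurd hww (hga w)
        · by_cases hw2 : w' = w1
          · rw [hw2, hf1, hf2 w hw hw1'] at hww
            exact absurd hww (hgb w)
          · rw [hf2 w hw hw1', hf2 w' hw' hw2] at hww
            exact hginj hww
  have hnb0 : ∀ j, F.Adj w0 j → j ≠ w1 → G.Adj a (g j) ∧ -M ≤ r a (g j) := by
    intro j hj hj1
    exact h1 (c j) (hc w0 j hj (fun h => hj1 h.2) (fun h => hne h.1)) _ (hgX j)
  have hnb1 : ∀ j, F.Adj w1 j → j ≠ w0 → G.Adj b (g j) ∧ -M' ≤ r b (g j) := by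
    intro j hj hj0
    exact h2 (c j) (hc w1 j hj (fun h => hne h.1.symm) (fun h => hj0 h.2)) _ (hgX j)
  have hKK : ∀ i j, F.Adj i j → i ≠ w0 → i ≠ w1 → K.Adj (g i) (g j) := by
    intro i j hij hi0 hi1
    exact hXK _ _ (hc i j hij (fun h => hi0 h.1) (fun h => hi1 h.1)) _ (hgX i) _ (hgX j)
  have key : ∀ i j, F.Adj i j → G.Adj (f i) (f j) ∧
      ((if i = w0 ∧ j = w1 then r a b else 0) + (if i = w1 ∧ j = w0 then r a b else 0)
        - (if i = w0 then M else 0) - (if j = w0 then M else 0) - (if i = w1 then M' else 0)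
        - (if j = w1 then M' else 0) - Λ ≤ r (f i) (f j)) := by
    intro i j hij
    by_cases hi : i = w0
    · subst hi
      have hj0 : j ≠ i := (F.ne_of_adj hij).symm
      by_cases hj : j = w1
      · subst hj
        rw [hf0, hf1]
        refine ⟨hab, ?_⟩
        rw [if_pos ⟨rfl, rfl⟩, if_neg (fun h => hne h.1), if_pos rfl, if_neg hj0, if_neg hne,
          if_pos rfl]
        linarith
      · rw [hf0, hf2 j hj0 hj]
        refine ⟨(hnb0 j hij hj).1, ?_⟩
        rw [if_neg (fun h => hj h.2), if_neg (fun h => hne h.1), if_pos rfl, if_neg hj0, if_neg hne,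
          if_neg hj]
        have := (hnb0 j hij hj).2
        linarith
    · by_cases hi1 : i = w1
      · subst hi1
        have hj1 : j ≠ i := (F.ne_of_adj hij).symm
        by_cases hj : j = w0
        · subst hj
          rw [hf0, hf1]
          refine ⟨hab.symm, ?_⟩
          rw [if_neg (fun h => hi h.1), if_pos ⟨rfl, rfl⟩, if_neg hi, if_pos rfl, if_pos rfl,
            if_neg hj1, hs b a]
          linarith
        · rw [hf1, hf2 j hj hj1]
          refine ⟨(hnb1 j hij hj).1, ?_⟩
          rw [if_neg (fun h => hi h.1), if_neg (fun h => hj h.2), if_neg hi, if_neg hj, if_pos rfl,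
            if_neg hj1]
          have := (hnb1 j hij hj).2
          linarith
      · rw [if_neg (fun h => hi h.1), if_neg (fun h => hi1 h.1), if_neg hi, if_neg hi1, hf2 i hi hi1]
        by_cases hj : j = w0
        · subst hj
          rw [if_pos rfl, if_neg hne, hf0]
          refine ⟨(hnb0 i hij.symm hi1).1.symm, ?_⟩
          rw [hs]
          have := (hnb0 i hij.symm hi1).2
          linarith
        · by_cases hj1 : j = w1
          · subst hj1
            rw [if_neg hj, if_pos rfl, hf1]
            refine ⟨(hnb1 i hij.symm hi).1.symm, ?_⟩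
            rw [hs]
            have := (hnb1 i hij.symm hi).2
            linarith
          · rw [if_neg hj, if_neg hj1, hf2 j hj hj1]
            refine ⟨hK (hKK i j hij hi hi1), ?_⟩
            have := (abs_le.mp (hΛ _ _ (hKK i j hij hi hi1))).1
            linarith
  have hsum := hr f hfinj (fun i j hij => (key i j hij).1)
  have hpt : ∀ i j, (if i = w0 ∧ j = w1 then r a b else 0) + (if i = w1 ∧ j = w0 then r a b else 0)
        - (if i = w0 then M else 0) - (if j = w0 then M else 0) - (if i = w1 then M' else 0)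
        - (if j = w1 then M' else 0) - Λ ≤ (if F.Adj i j then r (f i) (f j) else 0) := by
    intro i j
    by_cases hadj : F.Adj i j
    · rw [if_pos hadj]
      exact (key i j hadj).2
    · rw [if_neg hadj, if_neg (fun h => hadj (by rw [h.1, h.2]; exact h01)),
        if_neg (fun h => hadj (by rw [h.1, h.2]; exact h01.symm))]
      have q1 : 0 ≤ (if i = w0 then M else 0) := by split_ifs <;> linarith
      have q2 : 0 ≤ (if j = w0 then M else 0) := by split_ifs <;> linarith
      have q3 : 0 ≤ (if i = w1 then M' else 0) := by split_ifs <;> linarith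
      have q4 : 0 ≤ (if j = w1 then M' else 0) := by split_ifs <;> linarith
      linarith
  have hle : ∑ i, ∑ j, ((if i = w0 ∧ j = w1 then r a b else 0)
        + (if i = w1 ∧ j = w0 then r a b else 0)
        - (if i = w0 then M else 0) - (if j = w0 then M else 0) - (if i = w1 then M' else 0)
        - (if j = w1 then M' else 0) - Λ) ≤
      ∑ i, ∑ j, (if F.Adj i j then r (f i) (f j) else 0) :=
    Finset.sum_le_sum fun i _ => Finset.sum_le_sum fun j _ => hpt i j
  have epair : ∀ (x y : W) (z : ℝ), ∑ i, ∑ j, (if i = x ∧ j = y then z else 0) = z := by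
    intro x y z
    rw [Finset.sum_eq_single x]
    · rw [Finset.sum_eq_single y]
      · rw [if_pos ⟨rfl, rfl⟩]
      · intro j _ hj
        exact if_neg (fun h => hj h.2)
      · intro h
        exact absurd (Finset.mem_univ _) h
    · intro i _ hi
      exact Finset.sum_eq_zero fun j _ => if_neg (fun h => hi h.1)
    · intro h
      exact absurd (Finset.mem_univ _) h
  have e1 : ∀ (x : W) (z : ℝ), ∑ i, ∑ _j : W, (if i = x then z else 0) = (Fintype.card W : ℝ) * z := by
    intro x z
    rw [Finset.sum_comm]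
    have : ∀ j : W, ∑ i, (if i = x then z else 0) = z := fun j => by
      rw [Finset.sum_ite_eq' Finset.univ x (fun _ => z), if_pos (Finset.mem_univ _)]
    rw [Finset.sum_congr rfl (fun j _ => this j), Finset.sum_const, Finset.card_univ, nsmul_eq_mul]
  have e2 : ∀ (x : W) (z : ℝ), ∑ _i : W, ∑ j, (if j = x then z else 0) = (Fintype.card W : ℝ) * z := by
    intro x z
    have : ∀ i : W, ∑ j, (if j = x then z else 0) = z := fun i => by
      rw [Finset.sum_ite_eq' Finset.univ x (fun _ => z), if_pos (Finset.mem_univ _)]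
    rw [Finset.sum_congr rfl (fun j _ => this j), Finset.sum_const, Finset.card_univ, nsmul_eq_mul]
  have e3 : ∑ _i : W, ∑ _j : W, Λ = (Fintype.card W : ℝ) ^ 2 * Λ := by
    simp only [Finset.sum_const, Finset.card_univ, nsmul_eq_mul]
    ring
  simp only [Finset.sum_sub_distrib, Finset.sum_add_distrib] at hle
  rw [epair, epair, e1, e1, e2, e2, e3] at hle
  have hpos : 0 ≤ (Fintype.card W : ℝ) ^ 2 * Λ := by positivity
  nlinarith [hle, hsum, hpos]


end Pool.TCF
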