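import Pool.Agent.TCF.StarA3
import Pool.Agent.OCY.StarB
import Pool.Agent.OCY.Tail
import Pool.Agent.OCY.Const
import Pool.Agent.OCG.Star

/-!
MODULE Star3 (difficulty 3).  The sampling inequality.

RECIPE: copy of the proved file `Pool/Agent/OCG/Star.lean` with `exc3` only (that file may be imported for
`star_cnt`, `star_pair`, `star_tail`, `exc3_nonneg'`, `star_ext_self`: `import Pool.Agent.OCG.Star`, namespace `Pool.OCG`).
First `sum_exc3`: exchange the sums; if two of `i, j, k` are equal then `exc3 (U i) (U j) (U k) = 0` (no loops), otherwise use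
`Pool.OCY.avg3` (file `Pool/Agent/OCY/Avg.lean`); there are at most `M ^ 3` triples, all terms are `≥ 0`, and
`n = card V > 0` (compare `sum_exc` in `Pool/Agent/OCY/StarB.lean`).
Then `star3` exactly as `star`: `good_U3` instead of `good_U`, `hT : 2 ≤ T`, and in the algebra (`star_alg`)
`W ≤ nM * (m ^ 3 * E3 / n ^ 3)` gives `A + c₁ / 2 * t ≤ 2 * m ^ 3 * (E3 / n)`.
-/

open Finset
open scoped Classical

namespace Pool.TCF
open Pool.OCY Pool.OCG

private theorem Star3_term {T : ℝ} {V : Type*} [Fintype V] [Nonempty V] (G : SimpleGraph V)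
    (r : V → V → ℝ) {M : ℕ} (i j k : Fin M) :
    ∑ U : Fin M → V, exc3 G T r (U i) (U j) (U k) ≤
      (Fintype.card V : ℝ) ^ M * (∑ a, ∑ b, ∑ c, exc3 G T r a b c) /
        (Fintype.card V : ℝ) ^ 3 := by
  have hn : (0 : ℝ) < Fintype.card V := by exact_mod_cast Fintype.card_pos
  have h3 : 0 ≤ (Fintype.card V : ℝ) ^ M * (∑ a, ∑ b, ∑ c, exc3 G T r a b c) /
      (Fintype.card V : ℝ) ^ 3 := by
    refine div_nonneg (mul_nonneg (by positivity) ?_) (by positivity)
    exact Finset.sum_nonneg fun a _ => Finset.sum_nonneg fun b _ => Finset.sum_nonneg fun c _ =>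
      exc3_nonneg' G T r a b c
  by_cases hz : i = j ∨ i = k ∨ j = k
  · have h0 : ∑ U : Fin M → V, exc3 G T r (U i) (U j) (U k) = 0 := by
      refine Finset.sum_eq_zero fun U _ => ?_
      unfold exc3
      rw [if_neg]
      rintro ⟨e1, e2, e3⟩
      rcases hz with rfl | rfl | rfl
      · exact G.loopless.irrefl _ e1
      · exact G.loopless.irrefl _ e2
      · exact G.loopless.irrefl _ e3
    rw [h0]
    exact h3
  · push Not at hz
    obtain ⟨hij, hik, hjk⟩ := hz
    apply le_of_eq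
    rw [eq_div_iff (by positivity), mul_comm]
    exact avg3 hij hik hjk (fun a b c => exc3 G T r a b c)

theorem sum_exc3 {T : ℝ} {V : Type*} [Fintype V] [Nonempty V] (G : SimpleGraph V) (r : V → V → ℝ) (M : ℕ) :
    ∑ U : Fin M → V, ∑ i, ∑ j, ∑ k, exc3 G T r (U i) (U j) (U k)
      ≤ (Fintype.card V : ℝ) ^ M * ((M : ℝ) ^ 3 * (∑ a, ∑ b, ∑ c', exc3 G T r a b c') /
        (Fintype.card V : ℝ) ^ 3) := by
  have h1 : ∑ U : Fin M → V, ∑ i, ∑ j, ∑ k, exc3 G T r (U i) (U j) (U k)
      = ∑ i, ∑ j, ∑ k, ∑ U : Fin M → V, exc3 G T r (U i) (U j) (U k) := by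
    rw [Finset.sum_comm]
    refine Finset.sum_congr rfl fun i _ => ?_
    rw [Finset.sum_comm]
    refine Finset.sum_congr rfl fun j _ => ?_
    rw [Finset.sum_comm]
  rw [h1]
  have h2 : ∑ i : Fin M, ∑ j : Fin M, ∑ k : Fin M, ∑ U : Fin M → V, exc3 G T r (U i) (U j) (U k)
      ≤ ∑ _i : Fin M, ∑ _j : Fin M, ∑ _k : Fin M,
        (Fintype.card V : ℝ) ^ M * (∑ a, ∑ b, ∑ c, exc3 G T r a b c) / (Fintype.card V : ℝ) ^ 3 :=
    Finset.sum_le_sum fun i _ => Finset.sum_le_sum fun j _ => Finset.sum_le_sum fun k _ =>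
      Star3_term G r i j k
  refine h2.trans (le_of_eq ?_)
  simp only [Finset.sum_const, Finset.card_univ, Fintype.card_fin, nsmul_eq_mul]
  ring

private theorem Star3_alg {n m A t c₁ E3 W Z nM y : ℝ} (hn0 : 0 < n) (hM : 2 ≤ m) (ht : 0 ≤ t)
    (hE3 : 0 ≤ E3) (hnM : 0 < nM)
    (h1 : m * (m - 1) * (nM * (A + c₁ * t)) ≤ n ^ 2 * (m ^ 2 * W) + n ^ 2 * (2 * Z))
    (h2 : n ^ 2 * Z ≤ m * (m - 1) * (y * (nM * t))) (hy : y ≤ c₁ / 4)
    (h3 : W ≤ nM * (m ^ 3 * E3 / n ^ 3)) :
    A + c₁ / 2 * t ≤ 2 * m ^ 3 * (E3 / n) := by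
  have hMM : 0 < m * (m - 1) := mul_pos (by linarith) (by linarith)
  have hR2 : n ^ 2 * Z ≤ m * (m - 1) * ((c₁ / 4) * (nM * t)) := by
    refine h2.trans ?_
    apply mul_le_mul_of_nonneg_left _ hMM.le
    apply mul_le_mul_of_nonneg_right hy
    exact mul_nonneg hnM.le ht
  obtain ⟨B, hB⟩ : ∃ B, B = m ^ 3 * E3 / n ^ 3 := ⟨_, rfl⟩
  have hB0 : 0 ≤ B := by rw [hB]; positivity
  rw [← hB] at h3
  have hE2 : n ^ 2 * (m ^ 2 * W) ≤ m * (m - 1) * (2 * n ^ 2 * nM * B) := by
    have h1 : m ^ 2 ≤ 2 * (m * (m - 1)) := by nlinarith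
    calc n ^ 2 * (m ^ 2 * W) ≤ n ^ 2 * (m ^ 2 * (nM * B)) := by
          apply mul_le_mul_of_nonneg_left _ (sq_nonneg n)
          exact mul_le_mul_of_nonneg_left h3 (sq_nonneg _)
      _ = m ^ 2 * (n ^ 2 * nM * B) := by ring
      _ ≤ 2 * (m * (m - 1)) * (n ^ 2 * nM * B) :=
          mul_le_mul_of_nonneg_right h1 (mul_nonneg (mul_nonneg (sq_nonneg n) hnM.le) hB0)
      _ = _ := by ring
  have hfin : m * (m - 1) * (nM * (A + c₁ * t))
      ≤ m * (m - 1) * (nM * (2 * n ^ 2 * B + c₁ / 2 * t)) := by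
    calc m * (m - 1) * (nM * (A + c₁ * t))
        ≤ n ^ 2 * (m ^ 2 * W) + n ^ 2 * (2 * Z) := h1
      _ = n ^ 2 * (m ^ 2 * W) + 2 * (n ^ 2 * Z) := by ring
      _ ≤ m * (m - 1) * (2 * n ^ 2 * nM * B)
          + 2 * (m * (m - 1) * ((c₁ / 4) * (nM * t))) := by linarith
      _ = _ := by ring
  have hfin2 := le_of_mul_le_mul_left (le_of_mul_le_mul_left hfin hMM) hnM
  have hB2 : 2 * n ^ 2 * B = 2 * m ^ 3 * (E3 / n) := by
    rw [hB]
    field_simp
  linarith

theorem star3 {T ε : ℝ} (hT : 2 ≤ T) (hε : 0 < ε) (hε1 : ε ≤ 1 / 12) :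
    ∃ c C : ℝ, 0 < c ∧ 0 < C ∧ ∀ (V : Type) [Fintype V] (G : SimpleGraph V),
      (∀ v, (1 / 2 + 1 / (2 * T) + ε) * Fintype.card V ≤ G.degree v) →
      ∀ r : V → V → ℝ, (∀ a b, r a b = r b a) →
        ∑ a, ∑ b, OCY.ext G r a b + c * tot G r
          ≤ C * ((∑ a, ∑ b, ∑ c', exc3 G T r a b c') / (Fintype.card V : ℝ)) := by
  have hT0 : 0 < T := by linarith
  have hT6 : 1 / (2 * T) ≤ 1 / 4 := by
    apply one_div_le_one_div_of_le <;> linarith
  have hT6' : 0 < 1 / (2 * T) := by positivity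
  set p : ℝ := 1 / 2 - 1 / (2 * T) - ε with hpdef
  have hp : 0 < p := by rw [hpdef]; linarith
  set θ : ℝ := p + ε / 2 with hθdef
  have hpθ : p < θ := by rw [hθdef]; linarith
  set c₁ : ℝ := (ε / 2) / (8 * T) with hc₁
  have hc₁0 : 0 < c₁ := by rw [hc₁]; positivity
  have hc₁1 : c₁ ≤ 1 := by
    rw [hc₁, div_le_one (by positivity)]
    linarith
  obtain ⟨M, hM2, x, hx, hMx⟩ := exists_const (p := p) (θ := θ) (ρ := c₁ / 4) hp hpθ (by positivity)
  have hMr : (2 : ℝ) ≤ M := by exact_mod_cast hM2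
  refine ⟨c₁ / 2, 2 * (M : ℝ) ^ 3, by positivity, by positivity, ?_⟩
  intro V _ G hdeg r hs
  rcases isEmpty_or_nonempty V with hV | hV
  · simp [tot]
  set n : ℝ := (Fintype.card V : ℝ) with hn
  have hn0 : 0 < n := by
    rw [hn]
    exact_mod_cast Fintype.card_pos
  -- few non-neighbours
  have hG : ∀ u, ((univ.filter fun w => ¬ G.Adj u w).card : ℝ) ≤ p * n := by
    intro u
    have h1 : (univ.filter fun w => G.Adj u w).card + (univ.filter fun w => ¬ G.Adj u w).card
        = Fintype.card V := by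
      rw [Finset.card_filter_add_card_filter_not, Finset.card_univ]
    have h2 : (univ.filter fun w => G.Adj u w).card = G.degree u := by
      rw [← SimpleGraph.card_neighborFinset_eq_degree]
      congr 1
      ext w
      simp
    have h3 : (G.degree u : ℝ) + ((univ.filter fun w => ¬ G.Adj u w).card : ℝ) = n := by
      rw [hn, ← h1, h2]
      push_cast
      ring
    have h4 := hdeg u
    rw [hpdef]
    nlinarith
  set E3 : ℝ := ∑ a, ∑ b, ∑ c', exc3 G T r a b c' with hE3
  set A : ℝ := ∑ a, ∑ b, OCY.ext G r a b with hA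
  have hE30 : 0 ≤ E3 := Finset.sum_nonneg fun a _ => Finset.sum_nonneg fun b _ =>
    Finset.sum_nonneg fun c _ => exc3_nonneg' G T r a b c
  have htot0 : 0 ≤ tot G r := Finset.sum_nonneg fun a _ => Finset.sum_nonneg fun b _ => abs_nonneg _
  -- pointwise bound
  have hpt : ∀ U : Fin M → V,
      ∑ i, ∑ j, (OCY.ext G r (U i) (U j) + c₁ * |OCY.ext G r (U i) (U j)|)
        ≤ (M : ℝ) ^ 2 * ∑ i, ∑ j, ∑ k, exc3 G T r (U i) (U j) (U k)
          + 2 * ∑ i, ∑ j, ∑ v : Fin M,
            (if θ * M < ((univ.filter fun l => ¬ G.Adj (U v) (U l)).card : ℝ)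
              then |OCY.ext G r (U i) (U j)| else 0) := by
    intro U
    have hsplit : ∑ i, ∑ j, (OCY.ext G r (U i) (U j) + c₁ * |OCY.ext G r (U i) (U j)|)
        = ∑ i, ∑ j, OCY.ext G r (U i) (U j) + c₁ * ∑ i, ∑ j, |OCY.ext G r (U i) (U j)| := by
      rw [Finset.mul_sum, ← Finset.sum_add_distrib]
      apply Finset.sum_congr rfl
      intro i _
      rw [Finset.mul_sum, ← Finset.sum_add_distrib]
    have hX0 : 0 ≤ ∑ i, ∑ j, ∑ k, exc3 G T r (U i) (U j) (U k) :=
      Finset.sum_nonneg fun a _ => Finset.sum_nonneg fun b _ =>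
        Finset.sum_nonneg fun c _ => exc3_nonneg' G T r _ _ _
    have hY0 : ∀ i j, 0 ≤ ∑ v : Fin M,
            (if θ * M < ((univ.filter fun l => ¬ G.Adj (U v) (U l)).card : ℝ)
              then |OCY.ext G r (U i) (U j)| else 0) := by
      intro i j
      apply Finset.sum_nonneg
      intro v _
      split_ifs
      · exact abs_nonneg _
      · exact le_rfl
    by_cases hgood : ∀ v, ((univ.filter fun l => ¬ G.Adj (U v) (U l)).card : ℝ) ≤ θ * M
    · have h1 : ∀ v, (1 / 2 + 1 / (2 * T) + ε / 2) * M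
          ≤ ((univ.filter fun l => G.Adj (U v) (U l)).card : ℝ) := by
        intro v
        have h2 : (univ.filter fun l => G.Adj (U v) (U l)).card
            + (univ.filter fun l => ¬ G.Adj (U v) (U l)).card = M := by
          rw [Finset.card_filter_add_card_filter_not, Finset.card_univ, Fintype.card_fin]
        have h3 : ((univ.filter fun l => G.Adj (U v) (U l)).card : ℝ)
            + ((univ.filter fun l => ¬ G.Adj (U v) (U l)).card : ℝ) = (M : ℝ) := by
          exact_mod_cast h2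
        have h4 := hgood v
        rw [hθdef, hpdef] at h4
        nlinarith
      have h2 := good_U3 hT (ε := ε / 2) (by linarith) (by linarith) hs U h1
      rw [hsplit]
      have h3 : 0 ≤ ∑ i, ∑ j, ∑ v : Fin M,
            (if θ * M < ((univ.filter fun l => ¬ G.Adj (U v) (U l)).card : ℝ)
              then |OCY.ext G r (U i) (U j)| else 0) :=
        Finset.sum_nonneg fun i _ => Finset.sum_nonneg fun j _ => hY0 i j
      linarith
    · push Not at hgood
      obtain ⟨v, hv⟩ := hgood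
      have h1 : ∀ i j, OCY.ext G r (U i) (U j) + c₁ * |OCY.ext G r (U i) (U j)|
          ≤ 2 * ∑ v : Fin M,
            (if θ * M < ((univ.filter fun l => ¬ G.Adj (U v) (U l)).card : ℝ)
              then |OCY.ext G r (U i) (U j)| else 0) := by
        intro i j
        have h2 : |OCY.ext G r (U i) (U j)| ≤ ∑ v : Fin M,
            (if θ * M < ((univ.filter fun l => ¬ G.Adj (U v) (U l)).card : ℝ)
              then |OCY.ext G r (U i) (U j)| else 0) := by
          have h3 := Finset.single_le_sum (f := fun v : Fin M =>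
            (if θ * M < ((univ.filter fun l => ¬ G.Adj (U v) (U l)).card : ℝ)
              then |OCY.ext G r (U i) (U j)| else 0)) (s := univ) (fun v _ => by
                show 0 ≤ (if θ * M < ((univ.filter fun l => ¬ G.Adj (U v) (U l)).card : ℝ)
                  then |OCY.ext G r (U i) (U j)| else 0)
                split_ifs
                · exact abs_nonneg _
                · exact le_rfl) (Finset.mem_univ v)
          simp only [if_pos hv] at h3
          exact h3
        have h4 := le_abs_self (OCY.ext G r (U i) (U j))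
        have h5 := abs_nonneg (OCY.ext G r (U i) (U j))
        nlinarith
      have h2 : ∑ i, ∑ j, (OCY.ext G r (U i) (U j) + c₁ * |OCY.ext G r (U i) (U j)|)
          ≤ 2 * ∑ i, ∑ j, ∑ v : Fin M,
            (if θ * M < ((univ.filter fun l => ¬ G.Adj (U v) (U l)).card : ℝ)
              then |OCY.ext G r (U i) (U j)| else 0) := by
        rw [Finset.mul_sum]
        apply Finset.sum_le_sum
        intro i _
        rw [Finset.mul_sum]
        apply Finset.sum_le_sum
        intro j _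
        exact h1 i j
      have h3 : 0 ≤ (M : ℝ) ^ 2 * ∑ i, ∑ j, ∑ k, exc3 G T r (U i) (U j) (U k) :=
        mul_nonneg (sq_nonneg _) hX0
      linarith
  -- sum over all tuples
  have hsum := Finset.sum_le_sum (s := (univ : Finset (Fin M → V))) (fun U _ => hpt U)
  have hsum2 := mul_le_mul_of_nonneg_left hsum (sq_nonneg n)
  rw [Finset.sum_add_distrib, ← Finset.mul_sum, ← Finset.mul_sum, mul_add] at hsum2
  have hL := star_pair M (fun a b => OCY.ext G r a b + c₁ * |OCY.ext G r a b|) (fun a => by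
    show OCY.ext G r a a + c₁ * |OCY.ext G r a a| = 0
    rw [star_ext_self]
    simp)
  have hL2 : ∑ a, ∑ b, (OCY.ext G r a b + c₁ * |OCY.ext G r a b|) = A + c₁ * tot G r := by
    rw [hA, tot, Finset.mul_sum, ← Finset.sum_add_distrib]
    apply Finset.sum_congr rfl
    intro i _
    rw [Finset.mul_sum, ← Finset.sum_add_distrib]
  rw [hL2, ← hn] at hL
  have hR := star_tail M G (θ := θ) hp.le hG hx (fun a b => |OCY.ext G r a b|)
    (fun a b => abs_nonneg _) (fun a => by
      show |OCY.ext G r a a| = 0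
      rw [star_ext_self, abs_zero])
  rw [← hn] at hR
  have hE := sum_exc3 (T := T) G r M
  rw [← hn, ← hE3] at hE
  have hnM : 0 < n ^ M := pow_pos hn0 M
  have htotdef : ∑ a, ∑ b, |OCY.ext G r a b| = tot G r := rfl
  rw [htotdef] at hR
  -- abbreviations
  set W : ℝ := ∑ U : Fin M → V, ∑ i, ∑ j, ∑ k, exc3 G T r (U i) (U j) (U k) with hW
  set Z : ℝ := ∑ U : Fin M → V, ∑ i, ∑ j, ∑ v : Fin M,
            (if θ * M < ((univ.filter fun l => ¬ G.Adj (U v) (U l)).card : ℝ)
              then |OCY.ext G r (U i) (U j)| else 0) with hZ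
  rw [hL] at hsum2
  clear hpt hsum hL hL2
  clear_value W Z
  exact Star3_alg hn0 hMr htot0 hE30 hnM hsum2 hR hMx hE

end Pool.TCF
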