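import Pool.Agent.TCF.Blow
import Pool.Agent.OCY.NoDecF

/-!
MODULE Transfer (difficulty 3).  From examples on arbitrary vertex types to examples on `Fin n`.

RECIPE.  `transfer`: `e : V ≃ Fin (card V)` (`Fintype.equivFin V`), `G' = G.comap e.symm`, `SimpleGraph.Iso.comap e.symm G : G' ≃g G`;
degrees and the number of edges are preserved (`SimpleGraph.Iso.degree_eq`, `SimpleGraph.Iso.card_edgeFinset_eq` or the degree sum).
Instances: `Divisible` is stated with classical instances; if needed use `Subsingleton.elim` on `Fintype` instances (see the lemmas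
`ef_inst`, `dg_inst` in the proof of `lower_threshold`, file `/team-store`-copy not needed: `rw [Subsingleton.elim i j]`).
No fractional decomposition: `Pool.OCY.no_decF` with `r' a b = r (e.symm a) (e.symm b)`; for a copy `f : W → Fin _` use
`e.symm ∘ f` (injective, a homomorphism); the total is the same by `Equiv.sum_comp e.symm`.
`low_graph`: given `n₀`, `E = F.edgeFinset.card > 0`, `q = 2 * E * (n₀ + 1)`, `G = blow R q`, weights `ρ x.1 y.1`.
`card (ι × Fin q) = card ι * q ≥ n₀`.  Divisible: `E ∣ q * q * _`; the gcd `g` of the degrees of `F` divides the sum of the degrees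
`2 E` (`Finset.gcd_dvd`, `Finset.dvd_sum`, `sum_degrees_eq_twice_card_edges`), hence `q`, hence the degrees of `G`.
Minimum degree: `q * R.degree i ≥ q * δ * card ι`.  Copies: `ha (fun w => (f w).1)`.  Total: `blow_sum`, `q > 0`.
-/

open Finset
open scoped Classical

namespace Pool.TCF
open Pool.OCY Pool.OCG

theorem transfer {W V : Type} [Fintype W] [Fintype V] {F : SimpleGraph W} {G : SimpleGraph V}
    (hd : Divisible F G) {δ : ℝ} (h3 : ∀ v, δ * Fintype.card V ≤ G.degree v) {r : V → V → ℝ}
    (hr : CopNonpos F G r) (hpos : 0 < ∑ a, ∑ b, OCY.ext G r a b) : Bad F δ (Fintype.card V) := by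
  set e := Fintype.equivFin V with he
  let G' : SimpleGraph (Fin (Fintype.card V)) := G.comap e.symm
  let φ : G' ≃g G := SimpleGraph.Iso.comap e.symm G
  have he1 : ∀ i j : Fintype G'.edgeSet,
      (@SimpleGraph.edgeFinset _ G' i).card = (@SimpleGraph.edgeFinset _ G' j).card := fun i j => by
    rw [Subsingleton.elim i j]
  have he2 : ∀ (v : Fin (Fintype.card V)) (i j : Fintype (G'.neighborSet v)),
      @SimpleGraph.degree _ G' v i = @SimpleGraph.degree _ G' v j := fun v i j => by
    rw [Subsingleton.elim i j]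
  refine ⟨G', ⟨?_, ?_⟩, ?_, ?_⟩
  · have h := hd.1
    rw [← SimpleGraph.Iso.card_edgeFinset_eq φ] at h
    exact h.trans (dvd_of_eq (he1 _ _))
  · intro v
    have h := hd.2 (φ v)
    rw [SimpleGraph.Iso.degree_eq φ v] at h
    exact h.trans (dvd_of_eq (he2 v _ _))
  · intro v
    have h := h3 (φ v)
    rw [SimpleGraph.Iso.degree_eq φ v] at h
    exact h.trans (le_of_eq (congrArg (Nat.cast : ℕ → ℝ) (he2 v _ _)))
  · apply Pool.OCY.no_decF (r := fun a b => r (e.symm a) (e.symm b))
    · intro f hf hadj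
      exact hr (fun w => e.symm (f w)) (e.symm.injective.comp hf) (fun i j h => hadj i j h)
    · have h1 : ∑ a, ∑ b, OCY.ext G' (fun a b => r (e.symm a) (e.symm b)) a b
          = ∑ a, ∑ b, OCY.ext G r (e.symm a) (e.symm b) := rfl
      rw [h1]
      have h2 : ∀ a : Fin (Fintype.card V), ∑ b, OCY.ext G r (e.symm a) (e.symm b)
          = ∑ b, OCY.ext G r (e.symm a) b := fun a =>
        Equiv.sum_comp e.symm (fun b => OCY.ext G r (e.symm a) b)
      simp only [h2]
      rw [Equiv.sum_comp e.symm (fun a => ∑ b, OCY.ext G r a b)]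
      exact hpos

/-- the gcd of the degrees divides twice the number of edges -/
theorem gcd_dvd_two {W : Type} [Fintype W] (F : SimpleGraph W) :
    (univ.gcd fun x => F.degree x) ∣ 2 * F.edgeFinset.card := by
  rw [← F.sum_degrees_eq_twice_card_edges]
  exact Finset.dvd_sum fun x hx => Finset.gcd_dvd hx

theorem low_graph {W ι : Type} [Fintype W] [Fintype ι] [Nonempty ι] {F : SimpleGraph W}
    (hF : F ≠ ⊥) (R : SimpleGraph ι) (ρ : ι → ι → ℝ) {δ : ℝ}
    (hdeg : ∀ i, δ * Fintype.card ι ≤ R.degree i)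
    (ha : ∀ f : W → ι, (∀ i j, F.Adj i j → R.Adj (f i) (f j)) →
      ∑ i, ∑ j, (if F.Adj i j then ρ (f i) (f j) else 0) ≤ 0)
    (hb : 0 < ∑ a, ∑ b, OCY.ext R ρ a b) (n₀ : ℕ) : ∃ n ≥ n₀, Bad F δ n := by
  have hE : 0 < F.edgeFinset.card := by
    rw [Finset.card_pos]
    exact SimpleGraph.edgeFinset_nonempty.2 hF
  obtain ⟨q, hq⟩ : ∃ q, q = 2 * F.edgeFinset.card * (n₀ + 1) := ⟨_, rfl⟩
  have hq1 : n₀ + 1 ≤ q := by
    rw [hq]
    exact Nat.le_mul_of_pos_left _ (by omega)
  have hq2 : 2 * F.edgeFinset.card ∣ q := by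
    rw [hq]
    exact dvd_mul_right _ _
  have hι : 1 ≤ Fintype.card ι := Fintype.card_pos
  refine ⟨Fintype.card (ι × Fin q), ?_, transfer (G := blow R q) (r := fun x y => ρ x.1 y.1)
    ⟨?_, ?_⟩ ?_ ?_ ?_⟩
  · rw [Fintype.card_prod, Fintype.card_fin]
    have := Nat.mul_le_mul hι hq1
    omega
  · rw [blow_edges]
    exact dvd_mul_of_dvd_left (dvd_mul_of_dvd_left ((dvd_mul_left _ _).trans hq2) _) _
  · intro v
    rw [blow_degree]
    exact dvd_mul_of_dvd_left ((gcd_dvd_two F).trans hq2) _
  · intro v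
    rw [blow_degree, Fintype.card_prod, Fintype.card_fin]
    push_cast
    have h := mul_le_mul_of_nonneg_left (hdeg v.1) (Nat.cast_nonneg (α := ℝ) q)
    linarith
  · intro f _ hadj
    exact ha (fun w => (f w).1) (fun i j h => hadj i j h)
  · rw [blow_sum]
    have : (0 : ℝ) < q := by
      have : 0 < q := by omega
      exact_mod_cast this
    exact mul_pos (pow_pos this 2) hb

end Pool.TCF
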